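import Mathlib

/-!
# Weighted argument principle on a disc
-/

namespace Pool.Agent.Lib_helper75.Heun

open Topology MeasureTheory Metric Filter

noncomputable section

/-- `s` is the multiset of zeros of `f` in the disc. -/
def IsZeros (f : ℂ → ℂ) (c : ℂ) (R : ℝ) (s : Multiset ℂ) : Prop :=
  (∀ a ∈ s, a ∈ ball c R) ∧ ∃ u : ℂ → ℂ, AnalyticOnNhd ℂ u (closedBall c R) ∧
    (∀ z ∈ closedBall c R, u z ≠ 0) ∧
    ∀ z ∈ closedBall c R, f =ᶠ[𝓝 z] fun w => (s.map (fun a => w - a)).prod * u w

lemma prod_map_sub_eq_zero_iff (s : Multiset ℂ) (w : ℂ) :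
    (s.map (fun a => w - a)).prod = 0 ↔ w ∈ s := by
  rw [Multiset.prod_eq_zero_iff, Multiset.mem_map]
  constructor
  · rintro ⟨a, ha, h⟩
    rwa [sub_eq_zero.1 h]
  · intro h
    exact ⟨w, h, sub_self w⟩

lemma differentiable_prod_map_sub (s : Multiset ℂ) :
    Differentiable ℂ (fun w : ℂ => (s.map (fun a => w - a)).prod) := by
  induction s using Multiset.induction_on with
  | empty => simp
  | cons b s ihs =>
    have hh : (fun w : ℂ => ((b ::ₘ s).map (fun a => w - a)).prod) =
        fun w => (w - b) * (s.map (fun a => w - a)).prod := by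
      funext w
      rw [Multiset.map_cons, Multiset.prod_cons]
    rw [hh]
    exact (differentiable_id.sub_const b).mul ihs

lemma IsZeros.zero_iff {f : ℂ → ℂ} {c : ℂ} {R : ℝ} {s : Multiset ℂ} (h : IsZeros f c R s)
    {z : ℂ} (hz : z ∈ closedBall c R) : f z = 0 ↔ z ∈ s := by
  obtain ⟨_, u, _, hu0, hf⟩ := h
  rw [(hf z hz).eq_of_nhds, mul_eq_zero, prod_map_sub_eq_zero_iff]
  constructor
  · rintro (h | h)
    · exact h
    · exact absurd h (hu0 z hz)
  · intro h
    exact Or.inl h

lemma exists_factor_aux (c : ℂ) (R : ℝ) (T : Finset ℂ) : ∀ f : ℂ → ℂ,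
    AnalyticOnNhd ℂ f (closedBall c R) → (∀ z ∈ closedBall c R, f z = 0 → z ∈ T) →
    (∀ z ∈ T, z ∈ ball c R) → (∀ z ∈ T, analyticOrderAt f z ≠ ⊤) → ∃ s, IsZeros f c R s := by
  classical
  induction T using Finset.induction_on with
  | empty =>
    intro f hf hT _ _
    refine ⟨0, by simp, f, hf, fun z hz h0 => ?_, fun z _ => ?_⟩
    · exact absurd (hT z hz h0) (by simp)
    · simp
  | insert a T haT ih =>
    intro f hf hT hTb hord
    have haB : a ∈ ball c R := hTb a (Finset.mem_insert_self a T)
    have haC : a ∈ closedBall c R := ball_subset_closedBall haB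
    obtain ⟨g, hg, hga, hfg⟩ := ((hf a haC).analyticOrderAt_ne_top).1
      (hord a (Finset.mem_insert_self a T))
    set n := analyticOrderNatAt f a with hn
    set f₁ : ℂ → ℂ := fun z => if z = a then g a else f z / (z - a) ^ n with hf₁
    have hmul : ∀ z, f z = (z - a) ^ n * f₁ z := by
      intro z
      by_cases hz : z = a
      · subst hz
        have h1 := hfg.eq_of_nhds
        simp only [smul_eq_mul] at h1
        rw [h1, hf₁]
        simp
      · have hza : (z - a) ^ n ≠ 0 := pow_ne_zero _ (sub_ne_zero.2 hz)
        rw [hf₁]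
        simp only [hz, if_false]
        field_simp
    have hf₁a : f₁ =ᶠ[𝓝 a] g := by
      filter_upwards [hfg] with z hz
      by_cases hza : z = a
      · rw [hza, hf₁]
        simp
      · have hza' : (z - a) ^ n ≠ 0 := pow_ne_zero _ (sub_ne_zero.2 hza)
        rw [hf₁]
        simp only [hza, if_false]
        rw [hz, smul_eq_mul]
        field_simp
    have hf₁ne : ∀ z, z ≠ a → f₁ =ᶠ[𝓝 z] fun w => f w / (w - a) ^ n := by
      intro z hz
      filter_upwards [isOpen_ne.mem_nhds hz] with w hw
      have hw' : w ≠ a := hw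
      rw [hf₁]
      simp [hw']
    have hf₁an : AnalyticOnNhd ℂ f₁ (closedBall c R) := by
      intro z hz
      by_cases hza : z = a
      · rw [hza]
        exact hg.congr hf₁a.symm
      · refine AnalyticAt.congr ?_ (hf₁ne z hza).symm
        exact (hf z hz).div ((analyticAt_id.sub analyticAt_const).pow n)
          (pow_ne_zero _ (sub_ne_zero.2 hza))
    obtain ⟨s', hs'b, u, hu, hu0, hfac⟩ := ih f₁ hf₁an (by
      intro z hz h0
      have hza : z ≠ a := by
        rintro rfl
        rw [hf₁a.eq_of_nhds] at h0
        exact hga h0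
      have h1 : f z = 0 := by rw [hmul z, h0, mul_zero]
      rcases Finset.mem_insert.1 (hT z hz h1) with h | h
      · exact absurd h hza
      · exact h) (fun z hz => hTb z (Finset.mem_insert_of_mem hz)) (by
      intro z hz h0
      apply hord z (Finset.mem_insert_of_mem hz)
      rw [analyticOrderAt_eq_top] at h0 ⊢
      filter_upwards [h0] with w hw
      rw [hmul w, hw, mul_zero])
    refine ⟨Multiset.replicate n a + s', ?_, u, hu, hu0, ?_⟩
    · intro x hx
      rcases Multiset.mem_add.1 hx with h | h
      · rw [Multiset.eq_of_mem_replicate h]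
        exact haB
      · exact hs'b x h
    · intro z hz
      filter_upwards [hfac z hz] with w hw
      rw [hmul w, hw, Multiset.map_add, Multiset.prod_add, Multiset.map_replicate,
        Multiset.prod_replicate, mul_assoc]

/-- existence of the multiset of zeros -/
theorem exists_isZeros {f : ℂ → ℂ} {c : ℂ} {R : ℝ} (hR : 0 < R)
    (hf : AnalyticOnNhd ℂ f (closedBall c R)) (h0 : ∀ z ∈ sphere c R, f z ≠ 0) :
    ∃ s, IsZeros f c R s := by
  have hpre : IsPreconnected (closedBall c R) := (convex_closedBall c R).isPreconnected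
  have hpt : (c + R : ℂ) ∈ sphere c R := by simp [abs_of_pos hR]
  have hnot : ∀ z ∈ closedBall c R, ∀ᶠ w in 𝓝[≠] z, f w ≠ 0 := by
    intro z hz
    rcases (hf z hz).eventually_eq_zero_or_eventually_ne_zero with h | h
    · exfalso
      have h1 := hf.eqOn_zero_of_preconnected_of_eventuallyEq_zero hpre hz h
      exact h0 _ hpt (h1 (sphere_subset_closedBall hpt))
    · exact h
  have hfin : {z ∈ closedBall c R | f z = 0}.Finite := by
    by_contra hinf
    obtain ⟨x, hx, hacc⟩ := Set.Infinite.exists_accPt_of_subset_isCompact hinf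
      (isCompact_closedBall c R) (fun z hz => hz.1)
    rw [accPt_iff_frequently_nhdsNE] at hacc
    exact hacc ((hnot x hx).mono (fun w hw hw' => hw hw'.2))
  refine exists_factor_aux c R hfin.toFinset f hf ?_ ?_ ?_
  · intro z hz hz0
    rw [Set.Finite.mem_toFinset]
    exact ⟨hz, hz0⟩
  · intro z hz
    rw [Set.Finite.mem_toFinset] at hz
    rw [mem_ball]
    have h1 : dist z c ≤ R := hz.1
    rcases h1.lt_or_eq with h | h
    · exact h
    · exact absurd hz.2 (h0 z h)
  · intro z hz
    rw [Set.Finite.mem_toFinset] at hz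
    rw [Ne, analyticOrderAt_eq_top]
    intro h
    have h1 : ∃ᶠ w in 𝓝[≠] z, f w = 0 := (h.filter_mono nhdsWithin_le_nhds).frequently
    exact h1 ((hnot z hz.1).mono (fun w hw => hw))

lemma integral_factor (c : ℂ) (R : ℝ) (hR : 0 < R) (g : ℂ → ℂ)
    (hg : AnalyticOnNhd ℂ g (closedBall c R)) (u : ℂ → ℂ) (hu : AnalyticOnNhd ℂ u (closedBall c R))
    (hu0 : ∀ z ∈ closedBall c R, u z ≠ 0) (s : Multiset ℂ) : (∀ a ∈ s, a ∈ ball c R) →
    (∮ z in C(c, R), g z * (deriv (fun w => (s.map (fun a => w - a)).prod * u w) z /
      ((s.map (fun a => z - a)).prod * u z))) = 2 * Real.pi * Complex.I * (s.map g).sum := by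
  induction s using Multiset.induction_on with
  | empty =>
    intro _
    simp only [Multiset.map_zero, Multiset.prod_zero, one_mul, Multiset.sum_zero, mul_zero]
    refine DiffContOnCl.circleIntegral_eq_zero hR.le ?_
    have hd : DifferentiableOn ℂ (fun z => g z * (deriv u z / u z)) (closedBall c R) := by
      intro z hz
      exact ((hg z hz).differentiableAt.mul ((hu z hz).deriv.differentiableAt.div
        (hu z hz).differentiableAt (hu0 z hz))).differentiableWithinAt
    exact hd.diffContOnCl_ball (fun z hz => hz)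
  | cons a s ih =>
    intro hs
    have ih' := ih (fun b hb => hs b (Multiset.mem_cons_of_mem hb))
    have ha : a ∈ ball c R := hs a (Multiset.mem_cons_self a s)
    set P : ℂ → ℂ := fun w => (s.map (fun a => w - a)).prod with hP
    have hPdiff : Differentiable ℂ P := differentiable_prod_map_sub s
    have hPs : ∀ z ∈ sphere c R, P z ≠ 0 := by
      intro z hz h0
      rw [hP] at h0
      have h1 := (prod_map_sub_eq_zero_iff s z).1 h0
      have h2 := hs z (Multiset.mem_cons_of_mem h1)
      rw [mem_ball] at h2
      rw [mem_sphere] at hz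
      linarith
    have hsph : ∀ z ∈ sphere c R, z - a ≠ 0 := by
      intro z hz h0
      rw [sub_eq_zero] at h0
      rw [h0] at hz
      rw [mem_ball] at ha
      rw [mem_sphere] at hz
      linarith
    have hcongr : ∀ z ∈ sphere c R,
        g z * (deriv (fun w => ((a ::ₘ s).map (fun a => w - a)).prod * u w) z /
          (((a ::ₘ s).map (fun a => z - a)).prod * u z)) =
        (z - a)⁻¹ • g z + g z * (deriv (fun w => P w * u w) z / (P z * u z)) := by
      intro z hz
      have hzc := sphere_subset_closedBall hz
      have hfun : (fun w => ((a ::ₘ s).map (fun a => w - a)).prod * u w) =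
          fun w => (w - a) * (P w * u w) := by
        funext w
        rw [Multiset.map_cons, Multiset.prod_cons, mul_assoc]
      have hd1 : HasDerivAt (fun w => P w * u w) (deriv (fun w => P w * u w) z) z :=
        ((hPdiff z).mul (hu z hzc).differentiableAt).hasDerivAt
      have hd2 : HasDerivAt (fun w : ℂ => w - a) 1 z := (hasDerivAt_id z).sub_const a
      have hd3 : deriv (fun w => (w - a) * (P w * u w)) z =
          1 * (P z * u z) + (z - a) * deriv (fun w => P w * u w) z := (hd2.mul hd1).deriv
      rw [hfun, hd3, Multiset.map_cons, Multiset.prod_cons]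
      have x1 := hsph z hz
      have x2 := hPs z hz
      have x3 := hu0 z hzc
      have hPz : (Multiset.map (fun a => z - a) s).prod = P z := rfl
      rw [hPz, smul_eq_mul]
      field_simp
    have hint1 : CircleIntegrable (fun z => (z - a)⁻¹ • g z) c R := by
      refine ContinuousOn.circleIntegrable hR.le ?_
      intro z hz
      have hzc := sphere_subset_closedBall hz
      exact (((continuousAt_id.sub continuousAt_const).inv₀ (hsph z hz)).smul
        (hg z hzc).continuousAt).continuousWithinAt
    have hint2 : CircleIntegrable (fun z => g z * (deriv (fun w => P w * u w) z /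
        (P z * u z))) c R := by
      refine ContinuousOn.circleIntegrable hR.le ?_
      intro z hz
      have hzc := sphere_subset_closedBall hz
      have hPu : AnalyticAt ℂ (fun w => P w * u w) z := (hPdiff.analyticAt z).mul (hu z hzc)
      exact ((hg z hzc).continuousAt.mul (hPu.deriv.continuousAt.div hPu.continuousAt
        (mul_ne_zero (hPs z hz) (hu0 z hzc)))).continuousWithinAt
    rw [circleIntegral.integral_congr hR.le hcongr, circleIntegral.integral_add hint1 hint2,
      ih', Multiset.map_cons, Multiset.sum_cons, mul_add]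
    congr 1
    have hgd : DifferentiableOn ℂ g (closedBall c R) :=
      fun z hz => (hg z hz).differentiableAt.differentiableWithinAt
    have := hgd.diffContOnCl_ball (fun z hz => hz) |>.circleIntegral_sub_inv_smul ha
    rw [this, smul_eq_mul]

/-- weighted argument principle -/
theorem IsZeros.integral {f : ℂ → ℂ} {c : ℂ} {R : ℝ} (hR : 0 < R) {s : Multiset ℂ}
    (h : IsZeros f c R s) (g : ℂ → ℂ) (hg : AnalyticOnNhd ℂ g (closedBall c R)) :
    (∮ z in C(c, R), g z * (deriv f z / f z)) = 2 * Real.pi * Complex.I * (s.map g).sum := by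
  obtain ⟨hb, u, hu, hu0, hf⟩ := h
  rw [← integral_factor c R hR g hg u hu hu0 s hb]
  refine circleIntegral.integral_congr hR.le (fun z hz => ?_)
  have hzc := sphere_subset_closedBall hz
  change g z * (deriv f z / f z) = _
  rw [(hf z hzc).deriv_eq, (hf z hzc).eq_of_nhds]

theorem IsZeros.integral_one {f : ℂ → ℂ} {c : ℂ} {R : ℝ} (hR : 0 < R) {s : Multiset ℂ}
    (h : IsZeros f c R s) :
    (∮ z in C(c, R), deriv f z / f z) = 2 * Real.pi * Complex.I * (s.card : ℂ) := by
  have h1 := h.integral hR (fun _ => 1) (fun _ _ => analyticAt_const)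
  simpa using h1

end

end Pool.Agent.Lib_helper75.Heun
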