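import Pool.Agent.Lib_helper75.Heun.ArgPrinciple

/-!
# One-parameter families of holomorphic functions and analytic sets
-/

namespace Pool.Agent.Lib_helper75.Heun

open Topology MeasureTheory Metric Filter

noncomputable section

/-- eventually in the parameter, uniformly over a compact set -/
lemma eventually_forall_compact {K : Set ℂ} (hK : IsCompact K) {μ0 : ℂ} {P : ℂ × ℂ → Prop}
    (h : ∀ z ∈ K, ∀ᶠ p in 𝓝 (μ0, z), P p) : ∀ᶠ μ in 𝓝 μ0, ∀ z ∈ K, P (μ, z) := by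
  refine hK.eventually_forall_of_forall_eventually (P := fun μ z => P (μ, z)) (fun z hz => ?_)
  exact h z hz

theorem differentiableAt_circleIntegral (Ψ : ℂ × ℂ → ℂ) (μ0 c : ℂ) {R : ℝ} (hR : 0 < R)
    (h : ∀ z ∈ sphere c R, AnalyticAt ℂ Ψ (μ0, z)) :
    DifferentiableAt ℂ (fun μ => ∮ z in C(c, R), Ψ (μ, z)) μ0 := by
  set D : ℂ × ℂ → ℂ := fun p => fderiv ℂ Ψ p (1, 0) with hD
  have hDc : ∀ p, AnalyticAt ℂ Ψ p → ContinuousAt D p := by
    intro p hp
    have h1 : ContinuousAt (fderiv ℂ Ψ) p := hp.fderiv.continuousAt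
    exact h1.clm_apply continuousAt_const
  have hinc : ∀ μ z : ℂ, ContinuousAt (fun z : ℂ => ((μ, z) : ℂ × ℂ)) z := by
    intro μ z
    exact (Continuous.prodMk_right μ).continuousAt
  obtain ⟨C, hC⟩ := (isCompact_sphere c R).exists_bound_of_continuousOn
    (f := fun z => D (μ0, z)) (fun z hz =>
      ((hDc _ (h z hz)).comp (f := fun z : ℂ => ((μ0, z) : ℂ × ℂ)) (hinc μ0 z)).continuousWithinAt)
  have hev : ∀ z ∈ sphere c R, ∀ᶠ p in 𝓝 (μ0, z), AnalyticAt ℂ Ψ p ∧ ‖D p‖ < C + 1 := by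
    intro z hz
    refine (h z hz).eventually_analyticAt.and ?_
    have h1 : ContinuousAt (fun p => ‖D p‖) (μ0, z) := (hDc _ (h z hz)).norm
    refine h1.eventually_lt continuousAt_const ?_
    exact (hC z hz).trans_lt (lt_add_one C)
  have hs := eventually_forall_compact (isCompact_sphere c R) hev
  set s : Set ℂ := {μ | ∀ z ∈ sphere c R, AnalyticAt ℂ Ψ (μ, z) ∧ ‖D (μ, z)‖ < C + 1} with hsdef
  have hs' : s ∈ 𝓝 μ0 := hs
  have hcirc : ∀ θ : ℝ, circleMap c R θ ∈ sphere c R := fun θ => circleMap_mem_sphere c hR.le θ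
  have hcont : ∀ μ ∈ s, Continuous (fun θ : ℝ => deriv (circleMap c R) θ • Ψ (μ, circleMap c R θ)) := by
    intro μ hμ
    rw [continuous_iff_continuousAt]
    intro θ
    have h1 : ContinuousAt (fun θ : ℝ => Ψ (μ, circleMap c R θ)) θ := by
      have h2 : ContinuousAt Ψ (μ, circleMap c R θ) := (hμ _ (hcirc θ)).1.continuousAt
      have h3 : ContinuousAt (fun θ : ℝ => ((μ, circleMap c R θ) : ℂ × ℂ)) θ :=
        (continuous_const.prodMk (continuous_circleMap c R)).continuousAt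
      exact ContinuousAt.comp (g := Ψ) h2 h3
    have h4 : ContinuousAt (fun θ : ℝ => deriv (circleMap c R) θ) θ := by
      simp only [deriv_circleMap]
      exact ((continuous_circleMap 0 R).mul continuous_const).continuousAt
    exact h4.smul h1
  have hcont' : Continuous (fun θ : ℝ => deriv (circleMap c R) θ • D (μ0, circleMap c R θ)) := by
    rw [continuous_iff_continuousAt]
    intro θ
    have h1 : ContinuousAt (fun θ : ℝ => D (μ0, circleMap c R θ)) θ := by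
      have h2 : ContinuousAt D (μ0, circleMap c R θ) := hDc _ (h _ (hcirc θ))
      have h3 : ContinuousAt (fun θ : ℝ => ((μ0, circleMap c R θ) : ℂ × ℂ)) θ :=
        (continuous_const.prodMk (continuous_circleMap c R)).continuousAt
      exact ContinuousAt.comp (g := D) h2 h3
    have h4 : ContinuousAt (fun θ : ℝ => deriv (circleMap c R) θ) θ := by
      simp only [deriv_circleMap]
      exact ((continuous_circleMap 0 R).mul continuous_const).continuousAt
    exact h4.smul h1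
  have hμ0 : μ0 ∈ s := mem_of_mem_nhds hs'
  have key := intervalIntegral.hasDerivAt_integral_of_dominated_loc_of_deriv_le (𝕜 := ℂ)
    (a := (0 : ℝ)) (b := 2 * Real.pi) (μ := volume)
    (F := fun μ θ => deriv (circleMap c R) θ • Ψ (μ, circleMap c R θ))
    (F' := fun μ θ => deriv (circleMap c R) θ • D (μ, circleMap c R θ)) (x₀ := μ0)
    (s := s) (bound := fun _ => R * (C + 1)) hs'
    (by
      filter_upwards [hs'] with μ hμ
      exact (hcont μ hμ).aestronglyMeasurable)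
    ((hcont μ0 hμ0).intervalIntegrable _ _)
    hcont'.aestronglyMeasurable
    (by
      refine Eventually.of_forall (fun θ _ μ hμ => ?_)
      rw [norm_smul, deriv_circleMap, norm_mul]
      have h1 : ‖circleMap 0 R θ‖ = R := by
        rw [norm_circleMap_zero, abs_of_pos hR]
      rw [h1, Complex.norm_I, mul_one]
      exact mul_le_mul_of_nonneg_left (hμ _ (hcirc θ)).2.le hR.le)
    (continuous_const.intervalIntegrable _ _)
    (by
      refine Eventually.of_forall (fun θ _ μ hμ => ?_)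
      have h1 : HasFDerivAt Ψ (fderiv ℂ Ψ (μ, circleMap c R θ)) (μ, circleMap c R θ) :=
        (hμ _ (hcirc θ)).1.differentiableAt.hasFDerivAt
      have h2 : HasDerivAt (fun x : ℂ => ((x, circleMap c R θ) : ℂ × ℂ)) (1, 0) μ :=
        (hasDerivAt_id μ).prodMk (hasDerivAt_const μ _)
      have h3 : HasDerivAt (fun x : ℂ => Ψ (x, circleMap c R θ)) (D (μ, circleMap c R θ)) μ :=
        h1.comp_hasDerivAt μ h2
      exact h3.const_smul (deriv (circleMap c R) θ))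
  exact key.2.differentiableAt

theorem analyticAt_circleIntegral (Ψ : ℂ × ℂ → ℂ) (μ0 c : ℂ) {R : ℝ} (hR : 0 < R)
    (h : ∀ z ∈ sphere c R, AnalyticAt ℂ Ψ (μ0, z)) :
    AnalyticAt ℂ (fun μ => ∮ z in C(c, R), Ψ (μ, z)) μ0 := by
  rw [Complex.analyticAt_iff_eventually_differentiableAt]
  have h1 : ∀ᶠ μ in 𝓝 μ0, ∀ z ∈ sphere c R, AnalyticAt ℂ Ψ (μ, z) :=
    eventually_forall_compact (isCompact_sphere c R) (fun z hz => (h z hz).eventually_analyticAt)
  filter_upwards [h1] with μ hμ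
  exact differentiableAt_circleIntegral Ψ μ c hR hμ

/-- the slice of a jointly analytic function -/
lemma analyticAt_slice {f : ℂ × ℂ → ℂ} {μ z : ℂ} (h : AnalyticAt ℂ f (μ, z)) :
    AnalyticAt ℂ (fun w => f (μ, w)) z :=
  AnalyticAt.fun_comp (g := f) (f := fun w : ℂ => ((μ, w) : ℂ × ℂ)) h
    (analyticAt_const.prod analyticAt_id)

lemma deriv_slice {f : ℂ × ℂ → ℂ} {μ z : ℂ} (h : AnalyticAt ℂ f (μ, z)) :
    deriv (fun w => f (μ, w)) z = fderiv ℂ f (μ, z) (0, 1) := by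
  have h1 : HasFDerivAt f (fderiv ℂ f (μ, z)) (μ, z) := h.differentiableAt.hasFDerivAt
  have h2 : HasDerivAt (fun x : ℂ => ((μ, x) : ℂ × ℂ)) (0, 1) z :=
    (hasDerivAt_const z _).prodMk (hasDerivAt_id z)
  exact (h1.comp_hasDerivAt z h2).deriv

lemma analyticAt_fderiv_snd {f : ℂ × ℂ → ℂ} {p : ℂ × ℂ} (h : AnalyticAt ℂ f p) :
    AnalyticAt ℂ (fun q => fderiv ℂ f q (0, 1)) p := by
  have h1 := h.fderiv
  exact ((ContinuousLinearMap.apply ℂ ℂ ((0, 1) : ℂ × ℂ)).analyticAt _).fun_comp h1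

/-- the key local lemma: if for parameters accumulating at `μ0` all zeros of `f (μ, ·)` in the disc
are zeros of `h (μ, ·)`, then this holds for all parameters near `μ0` -/
theorem local_lemma (f h : ℂ × ℂ → ℂ) (μ0 z0 : ℂ) {r : ℝ} (hr : 0 < r)
    (hf : ∀ z ∈ closedBall z0 r, AnalyticAt ℂ f (μ0, z))
    (hh : ∀ z ∈ closedBall z0 r, AnalyticAt ℂ h (μ0, z))
    (hf0 : ∀ z ∈ sphere z0 r, f (μ0, z) ≠ 0)
    (hfreq : ∃ᶠ μ in 𝓝[≠] μ0, ∀ z ∈ ball z0 r, f (μ, z) = 0 → h (μ, z) = 0) :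
    ∀ᶠ μ in 𝓝 μ0, ∀ z ∈ closedBall z0 r, f (μ, z) = 0 → h (μ, z) = 0 := by
  classical
  have hev1 : ∀ᶠ μ in 𝓝 μ0, ∀ z ∈ closedBall z0 r, AnalyticAt ℂ f (μ, z) ∧
      AnalyticAt ℂ h (μ, z) :=
    eventually_forall_compact (isCompact_closedBall z0 r)
      (P := fun p => AnalyticAt ℂ f p ∧ AnalyticAt ℂ h p)
      (fun z hz => (hf z hz).eventually_analyticAt.and (hh z hz).eventually_analyticAt)
  have hev2 : ∀ᶠ μ in 𝓝 μ0, ∀ z ∈ sphere z0 r, f (μ, z) ≠ 0 :=
    eventually_forall_compact (isCompact_sphere z0 r) (P := fun p => f p ≠ 0)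
      (fun z hz => (hf z (sphere_subset_closedBall hz)).continuousAt.eventually_ne (hf0 z hz))
  obtain ⟨ε, hε, hball⟩ := Metric.eventually_nhds_iff_ball.1 (hev1.and hev2)
  -- the trace functions
  set G : (ℂ → ℂ) → ℂ → ℂ := fun p μ =>
    ∮ z in C(z0, r), (h (μ, z) * p z) * (deriv (fun w => f (μ, w)) z / f (μ, z)) with hG
  have hzeros : ∀ μ ∈ ball μ0 ε, ∃ s, IsZeros (fun w => f (μ, w)) z0 r s := by
    intro μ hμ
    exact exists_isZeros hr (fun z hz => analyticAt_slice ((hball μ hμ).1 z hz).1)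
      (hball μ hμ).2
  have hGsum : ∀ μ ∈ ball μ0 ε, ∀ s, IsZeros (fun w => f (μ, w)) z0 r s → ∀ p : ℂ → ℂ,
      Differentiable ℂ p → G p μ = 2 * Real.pi * Complex.I *
        (s.map (fun z => h (μ, z) * p z)).sum := by
    intro μ hμ s hs p hp
    refine hs.integral hr (fun z => h (μ, z) * p z) ?_
    intro z hz
    exact (analyticAt_slice ((hball μ hμ).1 z hz).2).mul (hp.analyticAt z)
  have hGan : ∀ p : ℂ → ℂ, Differentiable ℂ p → AnalyticOnNhd ℂ (G p) (ball μ0 ε) := by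
    intro p hp μ hμ
    set Ψ : ℂ × ℂ → ℂ := fun q => (h q * p q.2) * (fderiv ℂ f q (0, 1) / f q) with hΨ
    have hΨan : ∀ μ ∈ ball μ0 ε, ∀ z ∈ sphere z0 r, AnalyticAt ℂ Ψ (μ, z) := by
      intro μ hμ z hz
      have hzc := sphere_subset_closedBall hz
      have a1 := ((hball μ hμ).1 z hzc).1
      have a2 := ((hball μ hμ).1 z hzc).2
      have a3 : AnalyticAt ℂ (fun q : ℂ × ℂ => p q.2) (μ, z) :=
        AnalyticAt.fun_comp (g := p) (f := fun q : ℂ × ℂ => q.2) (hp.analyticAt z) analyticAt_snd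
      exact (a2.mul a3).mul ((analyticAt_fderiv_snd a1).div a1 ((hball μ hμ).2 z hz))
    have h1 : AnalyticAt ℂ (fun μ => ∮ z in C(z0, r), Ψ (μ, z)) μ :=
      analyticAt_circleIntegral Ψ μ z0 hr (hΨan μ hμ)
    refine h1.congr ?_
    filter_upwards [isOpen_ball.mem_nhds hμ] with ν hν
    refine circleIntegral.integral_congr hr.le (fun z hz => ?_)
    have hzc := sphere_subset_closedBall hz
    change Ψ (ν, z) = _
    rw [hΨ]
    simp only
    rw [deriv_slice ((hball ν hν).1 z hzc).1]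
  have hG0 : ∀ p : ℂ → ℂ, Differentiable ℂ p → ∀ μ ∈ ball μ0 ε, G p μ = 0 := by
    intro p hp
    have hfr : ∃ᶠ μ in 𝓝[≠] μ0, G p μ = 0 := by
      have hin : ∀ᶠ μ in 𝓝[≠] μ0, μ ∈ ball μ0 ε :=
        (ball_mem_nhds μ0 hε) |> fun h => mem_nhdsWithin_of_mem_nhds h
      refine (hfreq.and_eventually hin).mono ?_
      rintro μ ⟨h1, h2⟩
      obtain ⟨s, hs⟩ := hzeros μ h2
      rw [hGsum μ h2 s hs p hp]
      have h3 : s.map (fun z => h (μ, z) * p z) = s.map (fun _ => (0 : ℂ)) := by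
        refine Multiset.map_congr rfl (fun a ha => ?_)
        have h4 : f (μ, a) = 0 := (hs.zero_iff (ball_subset_closedBall (hs.1 a ha))).2 ha
        rw [h1 a (hs.1 a ha) h4, zero_mul]
      rw [h3]
      simp
    exact (hGan p hp).eqOn_zero_of_preconnected_of_frequently_eq_zero
      (convex_ball μ0 ε).isPreconnected (mem_ball_self hε) hfr
  filter_upwards [ball_mem_nhds μ0 hε] with μ hμ z hz hfz
  obtain ⟨s, hs⟩ := hzeros μ hμ
  have hzs : z ∈ s := (hs.zero_iff hz).1 hfz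
  set p : ℂ → ℂ := fun w => ∏ b ∈ s.toFinset.erase z, (w - b) with hp
  have hpd : Differentiable ℂ p := by
    rw [hp]
    fun_prop
  have h1 := hG0 p hpd μ hμ
  rw [hGsum μ hμ s hs p hpd, Finset.sum_multiset_map_count] at h1
  have h2 : ∑ a ∈ s.toFinset, Multiset.count a s • (h (μ, a) * p a) =
      Multiset.count z s • (h (μ, z) * p z) := by
    refine Finset.sum_eq_single z ?_ ?_
    · intro b hb hbz
      have : p b = 0 := by
        rw [hp]
        refine Finset.prod_eq_zero (Finset.mem_erase.2 ⟨hbz, hb⟩) (sub_self b)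
      rw [this, mul_zero, smul_zero]
    · intro hz'
      exact absurd (Multiset.mem_toFinset.2 hzs) hz'
  rw [h2] at h1
  have h3 : (2 * Real.pi * Complex.I : ℂ) ≠ 0 := Complex.two_pi_I_ne_zero
  have h4 := (mul_eq_zero.1 h1).resolve_left h3
  rw [nsmul_eq_mul] at h4
  have h5 : (Multiset.count z s : ℂ) ≠ 0 := by
    have : 0 < Multiset.count z s := Multiset.count_pos.2 hzs
    exact_mod_cast this.ne'
  have h6 := (mul_eq_zero.1 h4).resolve_left h5
  have h7 : p z ≠ 0 := by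
    rw [hp]
    refine Finset.prod_ne_zero_iff.2 (fun b hb => ?_)
    exact sub_ne_zero.2 (Finset.ne_of_mem_erase hb).symm
  exact (mul_eq_zero.1 h6).resolve_right h7

/-- analytic subsets of `ℂ²` -/
def IsAnalyticSet2 (A : Set (ℂ × ℂ)) : Prop :=
  ∀ p : ℂ × ℂ, ∃ U : Set (ℂ × ℂ), IsOpen U ∧ p ∈ U ∧
    ∃ (n : ℕ) (h : Fin n → ℂ × ℂ → ℂ), (∀ i, AnalyticOnNhd ℂ (h i) U) ∧
      ∀ q ∈ U, (q ∈ A ↔ ∀ i, h i q = 0)

theorem local_lemma2 (f : ℂ × ℂ → ℂ) (A : Set (ℂ × ℂ)) (hA : IsAnalyticSet2 A) (μ0 z0 : ℂ)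
    (hf : AnalyticAt ℂ f (μ0, z0)) (hiso : ∀ᶠ z in 𝓝[≠] z0, f (μ0, z) ≠ 0) {ρ : ℝ} (hρ : 0 < ρ)
    (hfreq : ∃ᶠ μ in 𝓝[≠] μ0, ∀ z ∈ ball z0 ρ, f (μ, z) = 0 → (μ, z) ∈ A) :
    ∀ᶠ p in 𝓝 (μ0, z0), f p = 0 → p ∈ A := by
  obtain ⟨U, hU, hpU, n, h, hh, hAU⟩ := hA (μ0, z0)
  -- choose the radius
  have e1 : ∀ᶠ z in 𝓝 z0, AnalyticAt ℂ f (μ0, z) ∧ (μ0, z) ∈ U := by
    have hc : Tendsto (fun z : ℂ => ((μ0, z) : ℂ × ℂ)) (𝓝 z0) (𝓝 (μ0, z0)) :=
      (Continuous.prodMk_right μ0).tendsto z0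
    exact hc.eventually (hf.eventually_analyticAt.and (hU.mem_nhds hpU))
  have e2 : ∀ᶠ z in 𝓝 z0, z ≠ z0 → f (μ0, z) ≠ 0 := eventually_nhdsWithin_iff.1 hiso
  obtain ⟨ε, hε, hball⟩ := Metric.eventually_nhds_iff_ball.1 (e1.and e2)
  obtain ⟨r, hr0, hr1⟩ : ∃ r : ℝ, 0 < r ∧ r < min ε ρ := exists_between (lt_min hε hρ)
  have hrε : r < ε := hr1.trans_le (min_le_left _ _)
  have hrρ : r < ρ := hr1.trans_le (min_le_right _ _)
  have hsub : ∀ z ∈ closedBall z0 r, z ∈ ball z0 ε := by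
    intro z hz
    rw [mem_closedBall] at hz
    rw [mem_ball]
    linarith
  have hUev : ∀ᶠ μ in 𝓝 μ0, ∀ z ∈ closedBall z0 r, (μ, z) ∈ U :=
    eventually_forall_compact (isCompact_closedBall z0 r) (P := fun p => p ∈ U)
      (fun z hz => hU.mem_nhds (hball z (hsub z hz)).1.2)
  have key : ∀ i, ∀ᶠ μ in 𝓝 μ0, ∀ z ∈ closedBall z0 r, f (μ, z) = 0 → h i (μ, z) = 0 := by
    intro i
    refine local_lemma f (h i) μ0 z0 hr0 (fun z hz => (hball z (hsub z hz)).1.1)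
      (fun z hz => hh i _ (hball z (hsub z hz)).1.2) ?_ ?_
    · intro z hz
      refine (hball z (hsub z (sphere_subset_closedBall hz))).2 ?_
      rintro rfl
      rw [mem_sphere, dist_self] at hz
      linarith
    · have hUev' : ∀ᶠ μ in 𝓝[≠] μ0, ∀ z ∈ closedBall z0 r, (μ, z) ∈ U :=
        hUev.filter_mono nhdsWithin_le_nhds
      refine (hfreq.and_eventually hUev').mono ?_
      rintro μ ⟨h1, h2⟩ z hz hfz
      have hzρ : z ∈ ball z0 ρ := ball_subset_ball hrρ.le hz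
      exact ((hAU _ (h2 z (ball_subset_closedBall hz))).1 (h1 z hzρ hfz)) i
  have key' : ∀ᶠ μ in 𝓝 μ0, ∀ z ∈ closedBall z0 r, f (μ, z) = 0 → (μ, z) ∈ A := by
    filter_upwards [eventually_all.2 key, hUev] with μ h1 h2 z hz hfz
    exact (hAU _ (h2 z hz)).2 (fun i => h1 i z hz hfz)
  have h3 : ∀ᶠ p : ℂ × ℂ in 𝓝 (μ0, z0), (∀ z ∈ closedBall z0 r, f (p.1, z) = 0 → (p.1, z) ∈ A) ∧
      p.2 ∈ closedBall z0 r := by
    rw [nhds_prod_eq]
    exact key'.prod_mk (closedBall_mem_nhds z0 hr0)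
  filter_upwards [h3] with p hp hfp
  exact hp.1 p.2 hp.2 hfp

/-- the global propagation lemma -/
theorem propagate (f : ℂ × ℂ → ℂ) (A : Set (ℂ × ℂ)) (hA : IsAnalyticSet2 A) (V : Set ℂ)
    (hV : IsPreconnected V) (c : ℂ) {R : ℝ} (hR : 0 < R)
    (hf : ∀ μ ∈ V, ∀ z ∈ closedBall c R, AnalyticAt ℂ f (μ, z))
    (hf0 : ∀ μ ∈ V, ∀ z ∈ sphere c R, f (μ, z) ≠ 0) (μ1 : ℂ) (hμ1 : μ1 ∈ V)
    (hfreq : ∃ᶠ μ in 𝓝[≠] μ1, ∀ z ∈ closedBall c R, f (μ, z) = 0 → (μ, z) ∈ A) :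
    ∀ μ ∈ V, ∀ z ∈ closedBall c R, f (μ, z) = 0 → (μ, z) ∈ A := by
  set X : Set ℂ := {μ | ∀ z ∈ closedBall c R, f (μ, z) = 0 → (μ, z) ∈ A} with hX
  have claim : ∀ μ0 ∈ V, (∃ᶠ μ in 𝓝[≠] μ0, μ ∈ X) → X ∈ 𝓝 μ0 := by
    intro μ0 hμ0 hfr
    have hpre : IsPreconnected (closedBall c R) := (convex_closedBall c R).isPreconnected
    have hslice : AnalyticOnNhd ℂ (fun w => f (μ0, w)) (closedBall c R) :=
      fun z hz => analyticAt_slice (hf μ0 hμ0 z hz)
    have hpt : (c + R : ℂ) ∈ sphere c R := by simp [abs_of_pos hR]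
    refine eventually_forall_compact (isCompact_closedBall c R) (P := fun p => f p = 0 → p ∈ A) ?_
    intro z hz
    by_cases hfz : f (μ0, z) = 0
    · have hzb : z ∈ ball c R := by
        rw [mem_ball]
        rcases (mem_closedBall.1 hz).lt_or_eq with h | h
        · exact h
        · exact absurd hfz (hf0 μ0 hμ0 z h)
      have hiso : ∀ᶠ w in 𝓝[≠] z, f (μ0, w) ≠ 0 := by
        rcases (hslice z hz).eventually_eq_zero_or_eventually_ne_zero with h | h
        · exfalso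
          have h1 := hslice.eqOn_zero_of_preconnected_of_eventuallyEq_zero hpre hz h
          exact hf0 μ0 hμ0 _ hpt (h1 (sphere_subset_closedBall hpt))
        · exact h
      obtain ⟨ρ, hρ, hρsub⟩ := Metric.isOpen_ball.mem_nhds hzb |> Metric.mem_nhds_iff.1
      refine local_lemma2 f A hA μ0 z (hf μ0 hμ0 z hz) hiso hρ ?_
      refine hfr.mono (fun μ hμ w hw hfw => ?_)
      exact hμ w (ball_subset_closedBall (hρsub hw)) hfw
    · have h1 : ∀ᶠ p in 𝓝 (μ0, z), f p ≠ 0 :=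
        (hf μ0 hμ0 z hz).continuousAt.eventually_ne hfz
      filter_upwards [h1] with p hp h
      exact absurd h hp
  have hsub : V ⊆ interior X := by
    refine hV.subset_of_closure_inter_subset isOpen_interior ?_ ?_
    · exact ⟨μ1, hμ1, mem_interior_iff_mem_nhds.2 (claim μ1 hμ1 hfreq)⟩
    · rintro μ0 ⟨h1, h2⟩
      by_contra hcon
      apply hcon
      rw [mem_interior_iff_mem_nhds]
      refine claim μ0 h2 ?_
      rw [frequently_nhdsWithin_iff]
      rw [mem_closure_iff_frequently] at h1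
      refine h1.mono (fun μ hμ => ⟨interior_subset hμ, ?_⟩)
      rintro rfl
      exact hcon hμ
  intro μ hμ
  exact interior_subset (hsub hμ)

/-- local constancy of the number of zeros -/
theorem card_locally_constant (f : ℂ × ℂ → ℂ) (μ0 c : ℂ) {R : ℝ} (hR : 0 < R)
    (hf : ∀ z ∈ closedBall c R, AnalyticAt ℂ f (μ0, z)) (hf0 : ∀ z ∈ sphere c R, f (μ0, z) ≠ 0)
    (s0 : Multiset ℂ) (hs0 : IsZeros (fun w => f (μ0, w)) c R s0) :
    ∀ᶠ μ in 𝓝 μ0, ∃ s, IsZeros (fun w => f (μ, w)) c R s ∧ Multiset.card s = Multiset.card s0 := by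
  have hev1 : ∀ᶠ μ in 𝓝 μ0, ∀ z ∈ closedBall c R, AnalyticAt ℂ f (μ, z) :=
    eventually_forall_compact (isCompact_closedBall c R) (fun z hz => (hf z hz).eventually_analyticAt)
  have hev2 : ∀ᶠ μ in 𝓝 μ0, ∀ z ∈ sphere c R, f (μ, z) ≠ 0 :=
    eventually_forall_compact (isCompact_sphere c R) (P := fun p => f p ≠ 0)
      (fun z hz => (hf z (sphere_subset_closedBall hz)).continuousAt.eventually_ne (hf0 z hz))
  set Ψ : ℂ × ℂ → ℂ := fun q => fderiv ℂ f q (0, 1) / f q with hΨ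
  have hΨan : ∀ z ∈ sphere c R, AnalyticAt ℂ Ψ (μ0, z) := fun z hz =>
    (analyticAt_fderiv_snd (hf z (sphere_subset_closedBall hz))).div
      (hf z (sphere_subset_closedBall hz)) (hf0 z hz)
  have hcont : ContinuousAt (fun μ => ∮ z in C(c, R), Ψ (μ, z)) μ0 :=
    (differentiableAt_circleIntegral Ψ μ0 c hR hΨan).continuousAt
  have hval : ∀ μ, (∀ z ∈ closedBall c R, AnalyticAt ℂ f (μ, z)) → ∀ s,
      IsZeros (fun w => f (μ, w)) c R s →
      (∮ z in C(c, R), Ψ (μ, z)) = 2 * Real.pi * Complex.I * (Multiset.card s : ℂ) := by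
    intro μ hμ s hs
    rw [← hs.integral_one hR]
    refine circleIntegral.integral_congr hR.le (fun z hz => ?_)
    rw [deriv_slice (hμ z (sphere_subset_closedBall hz))]
  have hlt : ∀ᶠ μ in 𝓝 μ0, dist (∮ z in C(c, R), Ψ (μ, z)) (∮ z in C(c, R), Ψ (μ0, z)) < 1 :=
    Metric.continuousAt_iff'.1 hcont 1 one_pos
  filter_upwards [hev1, hev2, hlt] with μ h1 h2 h3
  obtain ⟨s, hs⟩ := exists_isZeros hR (fun z hz => analyticAt_slice (h1 z hz)) h2
  refine ⟨s, hs, ?_⟩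
  rw [hval μ h1 s hs, hval μ0 hf s0 hs0, dist_eq_norm, ← mul_sub, norm_mul] at h3
  have h4 : ‖(2 * Real.pi * Complex.I : ℂ)‖ = 2 * Real.pi := by
    simp [abs_of_pos Real.pi_pos]
  rw [h4] at h3
  by_contra hne
  have h5 : (1 : ℝ) ≤ ‖((Multiset.card s : ℂ) - (Multiset.card s0 : ℂ))‖ := by
    have h6 : ((Multiset.card s : ℂ) - (Multiset.card s0 : ℂ)) =
        (((Multiset.card s : ℤ) - (Multiset.card s0 : ℤ) : ℤ) : ℂ) := by push_cast; ring
    rw [h6, Complex.norm_intCast]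
    have h7 : (Multiset.card s : ℤ) - (Multiset.card s0 : ℤ) ≠ 0 := by
      intro h
      apply hne
      omega
    exact_mod_cast Int.one_le_abs h7
  have h8 : (3 : ℝ) < Real.pi := Real.pi_gt_three
  nlinarith

end

end Pool.Agent.Lib_helper75.Heun
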