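import Pool.Agent.Lib_helper75.Heun.Localize
import Pool.Agent.Lib_helper75.Heun.Family

/-!
# The function `Phi l mu Lam` and its symmetries, slices of analytic sets
-/

namespace Pool.Agent.Lib_helper75.Heun

open Topology MeasureTheory Metric Filter ComplexConjugate

noncomputable section

/-- the defining function in the coordinate `Lam = l²/4 - lam - mu²/2` -/
def Phi (l mu Lam : ℂ) : ℂ := FF l (l ^ 2 / 4 - mu ^ 2 / 2 - Lam) mu

lemma Phi_eq_zero_iff (l mu Lam : ℂ) :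
    Phi l mu Lam = 0 ↔ (l, l ^ 2 / 4 - mu ^ 2 / 2 - Lam, mu) ∈ SigmaTilde :=
  (mem_SigmaTilde_iff _ _ _).symm

lemma mem_SigmaTilde_iff_Phi (l lam mu : ℂ) :
    (l, lam, mu) ∈ SigmaTilde ↔ Phi l mu (l ^ 2 / 4 - lam - mu ^ 2 / 2) = 0 := by
  rw [Phi_eq_zero_iff]
  have : l ^ 2 / 4 - mu ^ 2 / 2 - (l ^ 2 / 4 - lam - mu ^ 2 / 2) = lam := by ring
  rw [this]

lemma Phi_localize (l mu Lam : ℂ) (h : Phi l mu Lam = 0) (q : ℝ) (hq : qq l mu < q) :
    ∃ n : ℤ, ‖Lam - (n : ℂ) ^ 2 / 4‖ < q := by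
  obtain ⟨n, hn⟩ := localize l (l ^ 2 / 4 - mu ^ 2 / 2 - Lam) mu h q hq
  refine ⟨n, ?_⟩
  have : l ^ 2 / 4 - (l ^ 2 / 4 - mu ^ 2 / 2 - Lam) - mu ^ 2 / 2 - (n : ℂ) ^ 2 / 4 =
      Lam - (n : ℂ) ^ 2 / 4 := by ring
  rwa [this] at hn

lemma Phi_localize_nat (l mu Lam : ℂ) (h : Phi l mu Lam = 0) (q : ℝ) (hq : qq l mu < q) :
    ∃ n : ℕ, ‖Lam - (n : ℂ) ^ 2 / 4‖ < q := by
  obtain ⟨n, hn⟩ := Phi_localize l mu Lam h q hq
  refine ⟨n.natAbs, ?_⟩
  have h1 : ((n.natAbs : ℕ) : ℂ) ^ 2 = (n : ℂ) ^ 2 := by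
    have h2 : ((n.natAbs : ℕ) : ℂ) = (((n.natAbs : ℤ)) : ℂ) := (Int.cast_natCast _).symm
    rw [h2, ← Int.cast_pow, Int.natAbs_sq, Int.cast_pow]
  rwa [h1]

/-- analyticity in `(l, Lam)` -/
lemma analyticAt_Phi_l (mu : ℂ) (p : ℂ × ℂ) : AnalyticAt ℂ (fun q : ℂ × ℂ => Phi q.1 mu q.2) p := by
  unfold Phi
  refine analyticAt_FF analyticAt_fst ?_ analyticAt_const
  exact (((analyticAt_fst.pow 2).div_const).sub analyticAt_const).sub analyticAt_snd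

/-- analyticity in `(mu, Lam)` -/
lemma analyticAt_Phi_mu (l : ℂ) (p : ℂ × ℂ) : AnalyticAt ℂ (fun q : ℂ × ℂ => Phi l q.1 q.2) p := by
  unfold Phi
  refine analyticAt_FF analyticAt_const ?_ analyticAt_fst
  exact (analyticAt_const.sub ((analyticAt_fst.pow 2).div_const)).sub analyticAt_snd

/-! ### reality -/

lemma conj_PP : conj PP = -PP := by
  unfold PP
  rw [map_mul, map_mul, Complex.conj_ofReal, Complex.conj_I, map_ofNat]
  ring

lemma FF_conj (l lam mu : ℂ) (h : FF l lam mu = 0) : FF (conj l) (conj lam) (conj mu) = 0 := by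
  obtain ⟨c, f, hc, hf, hf0, hfp⟩ := exists_floquet l lam mu h
  have hf' := (isSol_iff _ _ _ _).1 (mem_Sol.1 hf)
  have hcne : c ≠ 0 := by
    intro h0
    rw [h0] at hc
    have := Complex.exp_ne_zero (PP * l)
    rw [← hc] at this
    simp at this
  set g : ℂ → ℂ := fun s => conj (f (conj s)) with hg
  have hd : ∀ (k : ℂ → ℂ) (k' : ℂ → ℂ), (∀ s, HasDerivAt k (k' s) s) →
      ∀ s, HasDerivAt (fun s => conj (k (conj s))) (conj (k' (conj s))) s := by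
    intro k k' hk s
    have h1 := (hk (conj s)).conj_conj
    rw [Complex.conj_conj] at h1
    exact h1
  have hgd : ∀ s, HasDerivAt g (conj (deriv f (conj s))) s :=
    hd f (deriv f) (fun s => (hf'.1 s).hasDerivAt)
  have hgdd : ∀ s, HasDerivAt (fun s => conj (deriv f (conj s)))
      (conj (deriv (deriv f) (conj s))) s :=
    hd (deriv f) (deriv (deriv f)) (fun s => (hf'.1.deriv s).hasDerivAt)
  have hderiv : deriv g = fun s => conj (deriv f (conj s)) := funext fun s => (hgd s).deriv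
  refine FF_eq_zero_of_floquet (conj l) (conj lam) (conj mu) (conj c)⁻¹ g ?_ ?_ ?_ ?_
  · have h1 : (conj c) ^ 2 = Complex.exp (-(PP * conj l)) := by
      rw [← map_pow, hc, ← Complex.exp_conj, map_mul, conj_PP]
      congr 1
      ring
    rw [inv_pow, h1, ← Complex.exp_neg, neg_neg]
  · rw [mem_Sol, isSol_iff]
    refine ⟨fun s => (hgd s).differentiableAt, fun s => ?_⟩
    rw [hderiv, (hgdd s).deriv, hf'.2, map_add, map_mul, map_mul]
    have e0 : conj (c0 l lam mu (conj s)) = c0 (conj l) (conj lam) (conj mu) s := by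
      unfold c0
      simp [map_mul, map_sub, map_add, ← Complex.exp_conj]
    have e1 : conj (c1 l mu (conj s)) = c1 (conj l) (conj mu) s := by
      unfold c1
      simp [map_mul, map_sub, ← Complex.exp_conj]
    rw [e0, e1]
  · intro h0
    apply hf0
    funext s
    have h1 : g (conj s) = 0 := congrFun h0 (conj s)
    rw [hg] at h1
    simp only [Complex.conj_conj] at h1
    simpa using h1
  · intro s
    have h1 : f (conj s) = c * f (conj (s + PP)) := by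
      rw [← hfp]
      congr 1
      rw [map_add, conj_PP]
      ring
    rw [hg]
    simp only
    rw [h1, map_mul]
    have hcc : conj c ≠ 0 := by
      rwa [Ne, map_eq_zero]
    field_simp

lemma Phi_conj (l mu : ℝ) (z : ℂ) (h : Phi l mu z = 0) : Phi l mu (conj z) = 0 := by
  have h1 := FF_conj _ _ _ h
  unfold Phi
  rw [Complex.conj_ofReal, Complex.conj_ofReal] at h1
  have : conj (((l : ℂ)) ^ 2 / 4 - (mu : ℂ) ^ 2 / 2 - z) =
      (l : ℂ) ^ 2 / 4 - (mu : ℂ) ^ 2 / 2 - conj z := by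
    rw [map_sub, map_sub, map_div₀, map_div₀, map_pow, map_pow, Complex.conj_ofReal,
      Complex.conj_ofReal, map_ofNat, map_ofNat]
  rwa [this] at h1

/-! ### slices of analytic sets -/

lemma isAnalyticSet2_preimage {A : Set (ℂ × ℂ × ℂ)} (hA : IsAnalyticSubset A)
    (G : ℂ × ℂ → ℂ × ℂ × ℂ) (hG : ∀ p, AnalyticAt ℂ G p) : IsAnalyticSet2 (G ⁻¹' A) := by
  intro p
  obtain ⟨U, hU, hpU, n, h, hh, hAU⟩ := hA (G p)
  have hGc : Continuous G := by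
    rw [continuous_iff_continuousAt]
    exact fun p => (hG p).continuousAt
  refine ⟨G ⁻¹' U, hU.preimage hGc, hpU, n, fun i q => h i (G q), fun i q hq => ?_, fun q hq => ?_⟩
  · exact AnalyticAt.fun_comp (hh i _ hq) (hG q)
  · exact hAU (G q) hq

/-- slice at fixed `mu` -/
def sliceL (A : Set (ℂ × ℂ × ℂ)) (mu : ℂ) : Set (ℂ × ℂ) :=
  {p | (p.1, p.1 ^ 2 / 4 - mu ^ 2 / 2 - p.2, mu) ∈ A}

/-- slice at fixed `l` -/
def sliceM (A : Set (ℂ × ℂ × ℂ)) (l : ℂ) : Set (ℂ × ℂ) :=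
  {p | (l, l ^ 2 / 4 - p.1 ^ 2 / 2 - p.2, p.1) ∈ A}

lemma isAnalyticSet2_sliceL {A : Set (ℂ × ℂ × ℂ)} (hA : IsAnalyticSubset A) (mu : ℂ) :
    IsAnalyticSet2 (sliceL A mu) := by
  refine isAnalyticSet2_preimage hA (fun p => (p.1, p.1 ^ 2 / 4 - mu ^ 2 / 2 - p.2, mu)) ?_
  intro p
  exact analyticAt_fst.prod (((((analyticAt_fst.pow 2).div_const).sub analyticAt_const).sub
    analyticAt_snd).prod analyticAt_const)

lemma isAnalyticSet2_sliceM {A : Set (ℂ × ℂ × ℂ)} (hA : IsAnalyticSubset A) (l : ℂ) :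
    IsAnalyticSet2 (sliceM A l) := by
  refine isAnalyticSet2_preimage hA (fun p => (l, l ^ 2 / 4 - p.1 ^ 2 / 2 - p.2, p.1)) ?_
  intro p
  exact analyticAt_const.prod (((analyticAt_const.sub ((analyticAt_fst.pow 2).div_const)).sub
    analyticAt_snd).prod analyticAt_fst)

/-! ### zero free circles -/

lemma small_sphere_free (l mu : ℂ) (n : ℕ) (h : qq l mu < 1 / 16) :
    ∀ z ∈ sphere ((n : ℂ) ^ 2 / 4) (1 / 16 : ℝ), Phi l mu z ≠ 0 := by
  intro z hz h0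
  obtain ⟨m, hm⟩ := Phi_localize_nat l mu z h0 (1 / 16) h
  rw [mem_sphere_iff_norm] at hz
  have h1 : ‖((n : ℂ) ^ 2 / 4 - (m : ℂ) ^ 2 / 4)‖ < 1 / 8 := by
    calc ‖((n : ℂ) ^ 2 / 4 - (m : ℂ) ^ 2 / 4)‖
        = ‖(z - (m : ℂ) ^ 2 / 4) - (z - (n : ℂ) ^ 2 / 4)‖ := by congr 1; ring
      _ ≤ ‖z - (m : ℂ) ^ 2 / 4‖ + ‖z - (n : ℂ) ^ 2 / 4‖ := norm_sub_le _ _
      _ < 1 / 16 + 1 / 16 := by rw [hz]; linarith
      _ = 1 / 8 := by norm_num
  have h2 : ((n : ℂ) ^ 2 / 4 - (m : ℂ) ^ 2 / 4) = ((((n : ℤ) ^ 2 - (m : ℤ) ^ 2 : ℤ) : ℝ) / 4 : ℝ) := by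
    push_cast
    ring
  rw [h2, Complex.norm_real, Real.norm_eq_abs, abs_div] at h1
  have h3 : |(((n : ℤ) ^ 2 - (m : ℤ) ^ 2 : ℤ) : ℝ)| < 1 := by
    rw [abs_of_pos (by norm_num : (0 : ℝ) < 4)] at h1
    linarith
  have h4 : ((n : ℤ) ^ 2 - (m : ℤ) ^ 2 : ℤ) = 0 := by
    have h5 : |((n : ℤ) ^ 2 - (m : ℤ) ^ 2 : ℤ)| < 1 := by exact_mod_cast h3
    exact Int.abs_lt_one_iff.1 h5
  have h6 : (n : ℂ) ^ 2 = (m : ℂ) ^ 2 := by
    have : (n : ℤ) ^ 2 = (m : ℤ) ^ 2 := by linarith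
    exact_mod_cast this
  rw [h6] at hz
  rw [hz] at hm
  exact lt_irrefl _ hm

/-- radii of the big circles -/
def bigR (N : ℕ) : ℝ := ((N : ℝ) + 1 / 2) ^ 2 / 4

lemma bigR_pos (N : ℕ) : 0 < bigR N := by
  unfold bigR
  positivity

lemma norm_nat_sq_div (n : ℕ) : ‖((n : ℂ) ^ 2 / 4)‖ = (n : ℝ) ^ 2 / 4 := by
  have : ((n : ℂ) ^ 2 / 4) = (((n : ℝ) ^ 2 / 4 : ℝ) : ℂ) := by push_cast; ring
  rw [this, Complex.norm_real, Real.norm_eq_abs, abs_of_nonneg (by positivity)]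

lemma big_sphere_free (l mu : ℂ) (N : ℕ) (h : qq l mu < (N : ℝ) / 4) :
    ∀ z ∈ sphere (0 : ℂ) (bigR N), Phi l mu z ≠ 0 := by
  intro z hz h0
  obtain ⟨m, hm⟩ := Phi_localize_nat l mu z h0 _ h
  rw [mem_sphere_zero_iff_norm] at hz
  have h1 : |‖z‖ - ‖((m : ℂ) ^ 2 / 4)‖| < (N : ℝ) / 4 := (abs_norm_sub_norm_le _ _).trans_lt hm
  rw [hz, norm_nat_sq_div, abs_lt] at h1
  unfold bigR at h1
  rcases le_or_gt m N with hmN | hmN
  · have h2 : (m : ℝ) ≤ N := by exact_mod_cast hmN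
    have h3 : (m : ℝ) ^ 2 ≤ (N : ℝ) ^ 2 := by
      have : (0 : ℝ) ≤ m := by positivity
      nlinarith
    nlinarith [h1.2]
  · have h2 : (N : ℝ) + 1 ≤ m := by exact_mod_cast hmN
    have h3 : ((N : ℝ) + 1) ^ 2 ≤ (m : ℝ) ^ 2 := by
      have : (0 : ℝ) ≤ N := by positivity
      nlinarith
    nlinarith [h1.1]

/-- for a small potential the zeros in the big disc lie in small discs -/
lemma zeros_in_small_discs (l mu : ℂ) (N : ℕ) (h : qq l mu < 1 / 16) (z : ℂ)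
    (hz : z ∈ closedBall (0 : ℂ) (bigR N)) (h0 : Phi l mu z = 0) :
    ∃ n ≤ N, z ∈ closedBall ((n : ℂ) ^ 2 / 4) (1 / 16 : ℝ) := by
  obtain ⟨m, hm⟩ := Phi_localize_nat l mu z h0 _ h
  refine ⟨m, ?_, ?_⟩
  · by_contra hcon
    push Not at hcon
    rw [mem_closedBall_zero_iff] at hz
    have h1 : |‖z‖ - ‖((m : ℂ) ^ 2 / 4)‖| < 1 / 16 := (abs_norm_sub_norm_le _ _).trans_lt hm
    rw [norm_nat_sq_div, abs_lt] at h1
    unfold bigR at hz
    have h2 : (N : ℝ) + 1 ≤ m := by exact_mod_cast hcon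
    have h3 : ((N : ℝ) + 1) ^ 2 ≤ (m : ℝ) ^ 2 := by
      have : (0 : ℝ) ≤ N := by positivity
      nlinarith
    have : (0 : ℝ) ≤ N := by positivity
    nlinarith [h1.1]
  · rw [mem_closedBall_iff_norm]
    exact hm.le

end

end Pool.Agent.Lib_helper75.Heun
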