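import Pool.Agent.Lib_helper75.Heun.ODE

/-!
# The special double confluent Heun equation: solutions, monodromy, the locus `SigmaTilde`
-/

namespace Pool.Agent.Lib_helper75.Heun

open Topology

noncomputable section

/-- A function `f : ℂ → ℂ` of `s` is regarded as a multivalued function `E` of `z = exp s ∈ ℂ*`
(a function on the universal covering of `ℂ*`).  `dz f` is the derivative `dE/dz`. -/
def dz (f : ℂ → ℂ) (s : ℂ) : ℂ := deriv f s / Complex.exp s

/-- `f`, viewed as a multivalued function `E` of `z = exp s`, is a solution of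
`z² E'' + ((1 - l) z + mu (1 - z²)) E' + (lam + mu (l - 1) z) E = 0` on `ℂ*`. -/
def IsSol (l lam mu : ℂ) (f : ℂ → ℂ) : Prop :=
  Differentiable ℂ f ∧ ∀ s : ℂ,
    Complex.exp s ^ 2 * dz (dz f) s +
      ((1 - l) * Complex.exp s + mu * (1 - Complex.exp s ^ 2)) * dz f s +
      (lam + mu * (l - 1) * Complex.exp s) * f s = 0

lemma differentiable_deriv {f : ℂ → ℂ} (hf : Differentiable ℂ f) : Differentiable ℂ (deriv f) :=
  hf.deriv

lemma exp_sq_mul_dz_dz {f : ℂ → ℂ} (hf : Differentiable ℂ f) (s : ℂ) :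
    Complex.exp s ^ 2 * dz (dz f) s = deriv (deriv f) s - deriv f s := by
  have h1 : HasDerivAt (dz f) ((deriv (deriv f) s * Complex.exp s - deriv f s * Complex.exp s) /
      (Complex.exp s) ^ 2) s := by
    have e1 : HasDerivAt (deriv f) (deriv (deriv f) s) s := (hf.deriv s).hasDerivAt
    exact e1.div (Complex.hasDerivAt_exp s) (Complex.exp_ne_zero s)
  have hne := Complex.exp_ne_zero s
  unfold dz at h1 ⊢
  rw [h1.deriv]
  field_simp

lemma exp_mul_dz (f : ℂ → ℂ) (s : ℂ) : Complex.exp s * dz f s = deriv f s := by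
  have hne := Complex.exp_ne_zero s
  unfold dz
  field_simp

lemma isSol_iff (l lam mu : ℂ) (f : ℂ → ℂ) : IsSol l lam mu f ↔
    Differentiable ℂ f ∧ ∀ s, deriv (deriv f) s = c0 l lam mu s * f s + c1 l mu s * deriv f s := by
  unfold IsSol
  constructor
  · rintro ⟨hf, h⟩
    refine ⟨hf, fun s => ?_⟩
    have h1 := h s
    rw [exp_sq_mul_dz_dz hf] at h1
    have h2 := exp_mul_dz f s
    have hne := Complex.exp_ne_zero s
    have h3 : (mu * (1 - Complex.exp s ^ 2)) * dz f s =
        mu * (Complex.exp (-s) - Complex.exp s) * deriv f s := by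
      rw [← h2, Complex.exp_neg]
      field_simp
    have h4 : ((1 - l) * Complex.exp s + mu * (1 - Complex.exp s ^ 2)) * dz f s =
        (1 - l) * deriv f s + mu * (Complex.exp (-s) - Complex.exp s) * deriv f s := by
      rw [add_mul, h3, mul_assoc, h2]
    rw [h4] at h1
    unfold c0 c1
    linear_combination h1
  · rintro ⟨hf, h⟩
    refine ⟨hf, fun s => ?_⟩
    have h1 := h s
    rw [exp_sq_mul_dz_dz hf]
    have h2 := exp_mul_dz f s
    have hne := Complex.exp_ne_zero s
    have h3 : (mu * (1 - Complex.exp s ^ 2)) * dz f s =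
        mu * (Complex.exp (-s) - Complex.exp s) * deriv f s := by
      rw [← h2, Complex.exp_neg]
      field_simp
    have h4 : ((1 - l) * Complex.exp s + mu * (1 - Complex.exp s ^ 2)) * dz f s =
        (1 - l) * deriv f s + mu * (Complex.exp (-s) - Complex.exp s) * deriv f s := by
      rw [add_mul, h3, mul_assoc, h2]
    rw [h4]
    unfold c0 c1 at h1
    linear_combination h1

/-- The space of solutions (functions on the universal covering of `ℂ*`). -/
def Sol (l lam mu : ℂ) : Submodule ℂ (ℂ → ℂ) where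
  carrier := {f | IsSol l lam mu f}
  zero_mem' := by
    rw [Set.mem_ofPred_eq, isSol_iff]
    refine ⟨differentiable_const 0, fun s => ?_⟩
    have h : deriv (0 : ℂ → ℂ) = 0 := by
      funext x
      exact deriv_const x 0
    rw [h, h]
    simp
  add_mem' := by
    intro f g hf hg
    rw [Set.mem_ofPred_eq, isSol_iff] at hf hg ⊢
    refine ⟨hf.1.add hg.1, fun s => ?_⟩
    have h : deriv (f + g) = deriv f + deriv g := by
      funext x
      exact deriv_add (hf.1 x) (hg.1 x)
    rw [h, deriv_add (hf.1.deriv s) (hg.1.deriv s), hf.2 s, hg.2 s]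
    simp only [Pi.add_apply]
    ring
  smul_mem' := by
    intro c f hf
    rw [Set.mem_ofPred_eq, isSol_iff] at hf ⊢
    refine ⟨hf.1.const_smul c, fun s => ?_⟩
    have h : deriv (c • f) = c • deriv f := by
      funext x
      exact deriv_const_smul c (hf.1 x)
    rw [h, deriv_const_smul c (hf.1.deriv s), hf.2 s]
    simp only [Pi.smul_apply, smul_eq_mul]
    ring

lemma mem_Sol {l lam mu : ℂ} {f : ℂ → ℂ} : f ∈ Sol l lam mu ↔ IsSol l lam mu f := Iff.rfl

lemma exp_add_two_pi (s : ℂ) : Complex.exp (s + 2 * Real.pi * Complex.I) = Complex.exp s :=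
  Complex.exp_periodic s

lemma c0_periodic (l lam mu s : ℂ) : c0 l lam mu (s + 2 * Real.pi * Complex.I) = c0 l lam mu s := by
  unfold c0
  rw [exp_add_two_pi]

lemma c1_periodic (l mu s : ℂ) : c1 l mu (s + 2 * Real.pi * Complex.I) = c1 l mu s := by
  unfold c1
  rw [exp_add_two_pi, Complex.exp_neg, Complex.exp_neg, exp_add_two_pi]

lemma shift_mem {l lam mu : ℂ} {f : ℂ → ℂ} (hf : f ∈ Sol l lam mu) :
    (fun s => f (s + 2 * Real.pi * Complex.I)) ∈ Sol l lam mu := by
  rw [mem_Sol, isSol_iff] at hf ⊢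
  have h1 : deriv (fun s => f (s + 2 * Real.pi * Complex.I)) =
      fun s => deriv f (s + 2 * Real.pi * Complex.I) := by
    funext s
    exact deriv_comp_add_const f _ s
  refine ⟨hf.1.comp (differentiable_id.add_const _), fun s => ?_⟩
  rw [h1, deriv_comp_add_const (deriv f) _ s, hf.2, c0_periodic, c1_periodic]

/-- The monodromy operator: analytic continuation along one counterclockwise loop around `z = 0`,
that is `s ↦ s + 2πi` on the universal covering. -/
def monodromy (l lam mu : ℂ) : Sol l lam mu →ₗ[ℂ] Sol l lam mu where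
  toFun f := ⟨fun s => f.1 (s + 2 * Real.pi * Complex.I), shift_mem f.2⟩
  map_add' _ _ := rfl
  map_smul' _ _ := rfl

lemma monodromy_apply (l lam mu : ℂ) (f : Sol l lam mu) (s : ℂ) :
    (monodromy l lam mu f).1 s = f.1 (s + 2 * Real.pi * Complex.I) := rfl

/-! ### the solution space is two-dimensional -/

lemma Y1_mem (l lam mu a b : ℂ) : Y1 l lam mu a b ∈ Sol l lam mu := by
  rw [mem_Sol, isSol_iff]
  have h : deriv (Y1 l lam mu a b) = Y2 l lam mu a b := by
    funext s
    exact deriv_Y1 l lam mu a b s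
  refine ⟨differentiable_Y1 l lam mu a b, fun s => ?_⟩
  rw [h, deriv_Y2]

lemma Sol_eq_Y1 {l lam mu : ℂ} {f : ℂ → ℂ} (hf : f ∈ Sol l lam mu) (s : ℂ) :
    f s = Y1 l lam mu (f 0) (deriv f 0) s ∧ deriv f s = Y2 l lam mu (f 0) (deriv f 0) s := by
  rw [mem_Sol, isSol_iff] at hf
  refine eq_Y1 l lam mu f (deriv f) (fun s => (hf.1 s).hasDerivAt) (fun s => ?_) s
  rw [← hf.2 s]
  exact (hf.1.deriv s).hasDerivAt

/-- initial data at `s = 0` -/
def solEquiv (l lam mu : ℂ) : Sol l lam mu ≃ₗ[ℂ] (Fin 2 → ℂ) where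
  toFun f := ![f.1 0, deriv f.1 0]
  map_add' f g := by
    have hf := (isSol_iff _ _ _ _).1 f.2
    have hg := (isSol_iff _ _ _ _).1 g.2
    have h : deriv ((f + g : Sol l lam mu) : ℂ → ℂ) 0 = deriv f.1 0 + deriv g.1 0 :=
      deriv_add (hf.1 0) (hg.1 0)
    ext i
    fin_cases i
    · rfl
    · simpa using h
  map_smul' c f := by
    have hf := (isSol_iff _ _ _ _).1 f.2
    have h : deriv ((c • f : Sol l lam mu) : ℂ → ℂ) 0 = c * deriv f.1 0 :=
      deriv_const_smul c (hf.1 0)
    ext i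
    fin_cases i
    · rfl
    · simpa using h
  invFun v := ⟨Y1 l lam mu (v 0) (v 1), Y1_mem _ _ _ _ _⟩
  left_inv f := by
    refine Subtype.ext (funext fun s => ?_)
    exact ((Sol_eq_Y1 f.2 s).1).symm
  right_inv v := by
    ext i
    fin_cases i
    · simp [Y1_zero]
    · simp [deriv_Y1, Y2_zero]

lemma solEquiv_apply (l lam mu : ℂ) (f : Sol l lam mu) :
    solEquiv l lam mu f = ![f.1 0, deriv f.1 0] := rfl

instance (l lam mu : ℂ) : Module.Finite ℂ (Sol l lam mu) :=
  Module.Finite.equiv (solEquiv l lam mu).symm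

/-- The space of solutions is two-dimensional. -/
theorem finrank_Sol (l lam mu : ℂ) : Module.finrank ℂ (Sol l lam mu) = 2 := by
  rw [(solEquiv l lam mu).finrank_eq]
  simp

/-- The locus `SigmaTilde ⊂ ℂ³` of parameters `(l, lam, mu)` for which the characteristic polynomial
of the monodromy operator has a multiple root. -/
def SigmaTilde : Set (ℂ × ℂ × ℂ) :=
  {p | ∃ c : ℂ, 2 ≤ (LinearMap.charpoly (monodromy p.1 p.2.1 p.2.2)).rootMultiplicity c}

/-- `A` is a complex analytic subset of `ℂ³`: every point of `ℂ³` has a neighbourhood in which `A`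
is the set of common zeros of finitely many holomorphic functions. -/
def IsAnalyticSubset (A : Set (ℂ × ℂ × ℂ)) : Prop :=
  ∀ p : ℂ × ℂ × ℂ, ∃ U : Set (ℂ × ℂ × ℂ), IsOpen U ∧ p ∈ U ∧
    ∃ (n : ℕ) (h : Fin n → ℂ × ℂ × ℂ → ℂ), (∀ i, AnalyticOnNhd ℂ (h i) U) ∧
      ∀ q ∈ U, (q ∈ A ↔ ∀ i, h i q = 0)

end

end Pool.Agent.Lib_helper75.Heun
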