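import Pool.Agent.Lib_helper75.Heun.Pairs

/-!
# `SigmaTilde` is the smallest analytic set containing its real points with `lam + mu² > 0`
-/

namespace Pool.Agent.Lib_helper75.Heun

open Topology MeasureTheory Metric Filter ComplexConjugate

noncomputable section

lemma eq_or_eq_of_card_le_two {s : Multiset ℂ} (hs : Multiset.card s ≤ 2) {a b : ℂ} (ha : a ∈ s)
    (hb : b ∈ s) (hab : a ≠ b) : ∀ z ∈ s, z = a ∨ z = b := by
  classical
  intro z hz
  by_contra hcon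
  push Not at hcon
  have h1 : ({a, b, z} : Finset ℂ) ⊆ s.toFinset := by
    intro w hw
    rw [Multiset.mem_toFinset]
    simp only [Finset.mem_insert, Finset.mem_singleton] at hw
    rcases hw with rfl | rfl | rfl
    · exact ha
    · exact hb
    · exact hz
  have h2 : ({a, b, z} : Finset ℂ).card = 3 := by
    rw [Finset.card_eq_three]
    exact ⟨a, b, z, hab, fun h => hcon.1 h.symm, fun h => hcon.2 h.symm, rfl⟩
  have h3 := (Finset.card_le_card h1).trans (Multiset.toFinset_card_le s)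
  omega

lemma eq_of_card_le_one {s : Multiset ℂ} (hs : Multiset.card s ≤ 1) {a b : ℂ} (ha : a ∈ s)
    (hb : b ∈ s) : a = b := by
  classical
  by_contra hab
  have h1 : ({a, b} : Finset ℂ) ⊆ s.toFinset := by
    intro w hw
    rw [Multiset.mem_toFinset]
    simp only [Finset.mem_insert, Finset.mem_singleton] at hw
    rcases hw with rfl | rfl
    · exact ha
    · exact hb
  have h2 : ({a, b} : Finset ℂ).card = 2 := Finset.card_pair hab
  have h3 := (Finset.card_le_card h1).trans (Multiset.toFinset_card_le s)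
  omega

lemma conj_mem_closedBall {x : ℝ} {r : ℝ} {z : ℂ} (hz : z ∈ closedBall (x : ℂ) r) :
    conj z ∈ closedBall (x : ℂ) r := by
  rw [mem_closedBall] at hz ⊢
  rw [← Complex.conj_ofReal x, Complex.dist_conj_conj]
  exact hz

lemma eq_ofReal_of_conj {z : ℂ} (h : conj z = z) : ∃ x : ℝ, z = (x : ℂ) := by
  obtain ⟨x, hx⟩ := Complex.conj_eq_iff_real.1 h
  exact ⟨x, hx⟩

lemma center_eq (n : ℕ) : ((n : ℂ) ^ 2 / 4) = (((n : ℝ) ^ 2 / 4 : ℝ) : ℂ) := by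
  push_cast
  ring

lemma card_lc_l (mu l0 : ℂ) (c : ℂ) {R : ℝ} (hR : 0 < R)
    (hf0 : ∀ z ∈ sphere c R, Phi l0 mu z ≠ 0) (s0 : Multiset ℂ)
    (hs0 : IsZeros (fun w => Phi l0 mu w) c R s0) :
    ∀ᶠ l in 𝓝 l0, ∃ s, IsZeros (fun w => Phi l mu w) c R s ∧
      Multiset.card s = Multiset.card s0 :=
  card_locally_constant (fun q : ℂ × ℂ => Phi q.1 mu q.2) l0 c hR
    (fun z _ => analyticAt_Phi_l mu (l0, z)) hf0 s0 hs0

/-- all zeros in the small disc are real for real `l` near `n + 2` -/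
theorem real_zeros_near (n : ℕ) : ∀ᶠ mu : ℝ in 𝓝[≠] 0, ∀ᶠ l : ℝ in 𝓝 ((n : ℝ) + 2),
    ∀ z ∈ closedBall ((n : ℂ) ^ 2 / 4) (1 / 16 : ℝ), Phi l mu z = 0 → ∃ x : ℝ, z = (x : ℂ) := by
  have hofReal : Tendsto (fun mu : ℝ => (mu : ℂ)) (𝓝[≠] 0) (𝓝 0) := by
    have h1 := (Complex.continuous_ofReal.tendsto 0)
    rw [Complex.ofReal_zero] at h1
    exact h1.mono_left nhdsWithin_le_nhds
  have hl0 : (((n : ℝ) + 2 : ℝ) : ℂ) = (n : ℂ) + 2 := by push_cast; ring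
  have hcap : ∀ᶠ mu : ℝ in 𝓝[≠] 0, ∃ s,
      IsZeros (fun w => Phi ((n : ℂ) + 2) mu w) ((n : ℂ) ^ 2 / 4) (1 / 16) s ∧
      Multiset.card s ≤ 2 ∧ (n = 0 → Multiset.card s ≤ 1) :=
    hofReal.eventually (capacity ((n : ℂ) + 2) n)
  have hqq : ∀ᶠ mu : ℝ in 𝓝[≠] 0, qq ((n : ℂ) + 2) mu < 1 / 16 := by
    have hc : Continuous (fun mu : ℝ => qq ((n : ℂ) + 2) (mu : ℂ)) := by
      unfold qq
      fun_prop
    have h3 := hc.tendsto 0
    have h4 : qq ((n : ℂ) + 2) ((0 : ℝ) : ℂ) = 0 := by unfold qq; simp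
    rw [h4] at h3
    exact (h3.mono_left nhdsWithin_le_nhds).eventually (gt_mem_nhds (by norm_num))
  have htwo : ∀ᶠ mu : ℝ in 𝓝[≠] 0, 1 ≤ n → ∃ x1 x2 : ℝ, x1 ≠ x2 ∧
      ((x1 : ℂ) ∈ closedBall ((n : ℂ) ^ 2 / 4) (1 / 16 : ℝ)) ∧
      ((x2 : ℂ) ∈ closedBall ((n : ℂ) ^ 2 / 4) (1 / 16 : ℝ)) ∧
      Phi ((n : ℂ) + 2) mu x1 = 0 ∧ Phi ((n : ℂ) + 2) mu x2 = 0 := by
    by_cases hn : 1 ≤ n
    · filter_upwards [two_real_zeros n hn] with mu h _
      exact h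
    · exact Filter.Eventually.of_forall (fun mu h => absurd h hn)
  filter_upwards [hcap, hqq, htwo] with mu h1 h2 h3
  obtain ⟨s, hs, hs2, hs1⟩ := h1
  have hsph := small_sphere_free ((n : ℂ) + 2) mu n h2
  have hbig := card_lc_l mu ((n : ℂ) + 2) ((n : ℂ) ^ 2 / 4) (R := 1 / 16) (by norm_num) hsph s hs
  have hto : Tendsto (fun l : ℝ => (l : ℂ)) (𝓝 ((n : ℝ) + 2)) (𝓝 ((n : ℂ) + 2)) := by
    have := Complex.continuous_ofReal.tendsto ((n : ℝ) + 2)
    rwa [hl0] at this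
  rcases Nat.eq_zero_or_pos n with hn | hn
  · -- the case `n = 0`
    filter_upwards [hto.eventually hbig] with l hl z hz h0
    obtain ⟨t, ht, htc⟩ := hl
    have htc1 : Multiset.card t ≤ 1 := htc.le.trans (hs1 hn)
    have hz' : conj z ∈ closedBall ((n : ℂ) ^ 2 / 4) (1 / 16 : ℝ) := by
      rw [center_eq] at hz ⊢
      exact conj_mem_closedBall hz
    have e1 : z ∈ t := (ht.zero_iff hz).1 h0
    have e2 : conj z ∈ t := (ht.zero_iff hz').1 (Phi_conj l mu z h0)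
    exact eq_ofReal_of_conj (eq_of_card_le_one htc1 e2 e1)
  · -- the case `1 ≤ n`
    obtain ⟨x1, x2, hne, hx1, hx2, hz1, hz2⟩ := h3 hn
    have hball : ∀ x : ℝ, (x : ℂ) ∈ closedBall ((n : ℂ) ^ 2 / 4) (1 / 16 : ℝ) →
        Phi ((n : ℂ) + 2) mu x = 0 → (x : ℂ) ∈ ball ((n : ℂ) ^ 2 / 4) (1 / 16 : ℝ) := by
      intro x hx hx0
      rw [mem_ball]
      rcases (mem_closedBall.1 hx).lt_or_eq with h | h
      · exact h
      · exact absurd hx0 (hsph _ h)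
    have hx1b := hball x1 hx1 hz1
    have hx2b := hball x2 hx2 hz2
    obtain ⟨ε1, hε1, hsub1⟩ := Metric.mem_nhds_iff.1 (isOpen_ball.mem_nhds hx1b)
    obtain ⟨ε2, hε2, hsub2⟩ := Metric.mem_nhds_iff.1 (isOpen_ball.mem_nhds hx2b)
    have hd : 0 < |x1 - x2| := abs_pos.2 (sub_ne_zero.2 hne)
    obtain ⟨r, hr0, hr⟩ : ∃ r : ℝ, 0 < r ∧ r < min (min ε1 ε2) (|x1 - x2| / 2) :=
      exists_between (lt_min (lt_min hε1 hε2) (by linarith))
    have hrε1 : r < ε1 := hr.trans_le ((min_le_left _ _).trans (min_le_left _ _))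
    have hrε2 : r < ε2 := hr.trans_le ((min_le_left _ _).trans (min_le_right _ _))
    have hrd : r < |x1 - x2| / 2 := hr.trans_le (min_le_right _ _)
    have hc1 : closedBall (x1 : ℂ) r ⊆ closedBall ((n : ℂ) ^ 2 / 4) (1 / 16 : ℝ) :=
      ((closedBall_subset_ball hrε1).trans hsub1).trans ball_subset_closedBall
    have hc2 : closedBall (x2 : ℂ) r ⊆ closedBall ((n : ℂ) ^ 2 / 4) (1 / 16 : ℝ) :=
      ((closedBall_subset_ball hrε2).trans hsub2).trans ball_subset_closedBall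
    have hdist : dist (x1 : ℂ) (x2 : ℂ) = |x1 - x2| := by
      rw [dist_eq_norm, ← Complex.ofReal_sub, Complex.norm_real, Real.norm_eq_abs]
    have hx1s : (x1 : ℂ) ∈ s := (hs.zero_iff hx1).1 hz1
    have hx2s : (x2 : ℂ) ∈ s := (hs.zero_iff hx2).1 hz2
    have hnec : (x1 : ℂ) ≠ (x2 : ℂ) := fun h => hne (by exact_mod_cast h)
    have honly : ∀ z ∈ closedBall ((n : ℂ) ^ 2 / 4) (1 / 16 : ℝ), Phi ((n : ℂ) + 2) mu z = 0 →
        z = x1 ∨ z = x2 := by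
      intro z hz h0
      exact eq_or_eq_of_card_le_two hs2 hx1s hx2s hnec z ((hs.zero_iff hz).1 h0)
    have hs1' : ∀ z ∈ sphere (x1 : ℂ) r, Phi ((n : ℂ) + 2) mu z ≠ 0 := by
      intro z hz h0
      rcases honly z (hc1 (sphere_subset_closedBall hz)) h0 with h | h
      · rw [h, mem_sphere, dist_self] at hz
        linarith
      · rw [h, mem_sphere, dist_comm, hdist] at hz
        linarith
    have hs2' : ∀ z ∈ sphere (x2 : ℂ) r, Phi ((n : ℂ) + 2) mu z ≠ 0 := by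
      intro z hz h0
      rcases honly z (hc2 (sphere_subset_closedBall hz)) h0 with h | h
      · rw [h, mem_sphere, hdist] at hz
        linarith
      · rw [h, mem_sphere, dist_self] at hz
        linarith
    obtain ⟨t1, ht1⟩ := exists_isZeros (f := fun w => Phi ((n : ℂ) + 2) mu w) hr0
      (fun z _ => analyticAt_slice (analyticAt_Phi_l mu ((n : ℂ) + 2, z))) hs1'
    obtain ⟨t2, ht2⟩ := exists_isZeros (f := fun w => Phi ((n : ℂ) + 2) mu w) hr0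
      (fun z _ => analyticAt_slice (analyticAt_Phi_l mu ((n : ℂ) + 2, z))) hs2'
    have hlc1 := card_lc_l mu ((n : ℂ) + 2) x1 hr0 hs1' t1 ht1
    have hlc2 := card_lc_l mu ((n : ℂ) + 2) x2 hr0 hs2' t2 ht2
    have ht1pos : 0 < Multiset.card t1 := Multiset.card_pos_iff_exists_mem.2
      ⟨x1, (ht1.zero_iff (mem_closedBall_self hr0.le)).1 hz1⟩
    have ht2pos : 0 < Multiset.card t2 := Multiset.card_pos_iff_exists_mem.2
      ⟨x2, (ht2.zero_iff (mem_closedBall_self hr0.le)).1 hz2⟩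
    filter_upwards [hto.eventually hbig, hto.eventually hlc1, hto.eventually hlc2] with
      l hl hl1 hl2 z hz h0
    obtain ⟨t, ht, htc⟩ := hl
    obtain ⟨u1, hu1, hu1c⟩ := hl1
    obtain ⟨u2, hu2, hu2c⟩ := hl2
    obtain ⟨a1, ha1⟩ := Multiset.card_pos_iff_exists_mem.1 (hu1c ▸ ht1pos)
    obtain ⟨a2, ha2⟩ := Multiset.card_pos_iff_exists_mem.1 (hu2c ▸ ht2pos)
    have ha1b : a1 ∈ closedBall (x1 : ℂ) r := ball_subset_closedBall (hu1.1 a1 ha1)
    have ha2b : a2 ∈ closedBall (x2 : ℂ) r := ball_subset_closedBall (hu2.1 a2 ha2)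
    have ha10 : Phi l mu a1 = 0 := (hu1.zero_iff ha1b).2 ha1
    have ha20 : Phi l mu a2 = 0 := (hu2.zero_iff ha2b).2 ha2
    have hdisj : ∀ w, w ∈ closedBall (x1 : ℂ) r → w ∈ closedBall (x2 : ℂ) r → False := by
      intro w hw1 hw2
      rw [mem_closedBall] at hw1 hw2
      have h5 := dist_triangle_left (x1 : ℂ) (x2 : ℂ) w
      rw [hdist] at h5
      linarith
    have ha12 : a1 ≠ a2 := by
      rintro rfl
      exact hdisj a1 ha1b ha2b
    have ha1t : a1 ∈ t := (ht.zero_iff (hc1 ha1b)).1 ha10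
    have ha2t : a2 ∈ t := (ht.zero_iff (hc2 ha2b)).1 ha20
    have htc2 : Multiset.card t ≤ 2 := htc.le.trans hs2
    have honly' := eq_or_eq_of_card_le_two htc2 ha1t ha2t ha12
    have hr1 : conj a1 = a1 := by
      have h6 : conj a1 ∈ t := (ht.zero_iff (hc1 (conj_mem_closedBall ha1b))).1
        (Phi_conj l mu a1 ha10)
      rcases honly' _ h6 with h | h
      · exact h
      · exact absurd (h ▸ conj_mem_closedBall ha1b) (fun h' => hdisj a2 h' ha2b)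
    have hr2 : conj a2 = a2 := by
      have h6 : conj a2 ∈ t := (ht.zero_iff (hc2 (conj_mem_closedBall ha2b))).1
        (Phi_conj l mu a2 ha20)
      rcases honly' _ h6 with h | h
      · exact absurd (h ▸ conj_mem_closedBall ha2b) (fun h' => hdisj a1 ha1b h')
      · exact h
    have hzt : z ∈ t := (ht.zero_iff hz).1 h0
    rcases honly' z hzt with h | h
    · rw [h]
      exact eq_ofReal_of_conj hr1
    · rw [h]
      exact eq_ofReal_of_conj hr2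

/-- the hypothesis on the analytic set -/
def ContainsReal (A : Set (ℂ × ℂ × ℂ)) : Prop :=
  ∀ l lam mu : ℝ, ((l : ℂ), (lam : ℂ), (mu : ℂ)) ∈ SigmaTilde → 0 < lam + mu ^ 2 →
    ((l : ℂ), (lam : ℂ), (mu : ℂ)) ∈ A

theorem claim1 {A : Set (ℂ × ℂ × ℂ)} (hreal : ContainsReal A) (n : ℕ) :
    ∀ᶠ mu : ℝ in 𝓝[≠] 0, ∀ᶠ l : ℝ in 𝓝 ((n : ℝ) + 2),
      ∀ z ∈ closedBall ((n : ℂ) ^ 2 / 4) (1 / 16 : ℝ), Phi l mu z = 0 →
        ((l : ℂ), z) ∈ sliceL A mu := by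
  filter_upwards [real_zeros_near n] with mu hmu
  have hl : ∀ᶠ l : ℝ in 𝓝 ((n : ℝ) + 2), (n : ℝ) + 1 < l := by
    exact lt_mem_nhds (by linarith)
  filter_upwards [hmu, hl] with l h1 h2 z hz h0
  obtain ⟨x, rfl⟩ := h1 z hz h0
  have hmem := (Phi_eq_zero_iff (l : ℂ) (mu : ℂ) (x : ℂ)).1 h0
  have hcast : ((l : ℂ) ^ 2 / 4 - (mu : ℂ) ^ 2 / 2 - (x : ℂ)) =
      ((l ^ 2 / 4 - mu ^ 2 / 2 - x : ℝ) : ℂ) := by push_cast; ring
  change ((l : ℂ), (l : ℂ) ^ 2 / 4 - (mu : ℂ) ^ 2 / 2 - (x : ℂ), (mu : ℂ)) ∈ A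
  rw [hcast] at hmem ⊢
  refine hreal l _ mu hmem ?_
  have hx : |x - (n : ℝ) ^ 2 / 4| ≤ 1 / 16 := by
    rw [center_eq, mem_closedBall_iff_norm, ← Complex.ofReal_sub, Complex.norm_real,
      Real.norm_eq_abs] at hz
    exact hz
  rw [abs_le] at hx
  have hn0 : (0 : ℝ) ≤ n := by positivity
  nlinarith [sq_nonneg mu, hx.2]

lemma frequently_of_real {P : ℂ → Prop} {a : ℝ} (h : ∀ᶠ l : ℝ in 𝓝[≠] a, P l) :
    ∃ᶠ l in 𝓝[≠] (a : ℂ), P l := by
  have hto : Tendsto (fun l : ℝ => (l : ℂ)) (𝓝[≠] a) (𝓝[≠] (a : ℂ)) := by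
    rw [tendsto_nhdsWithin_iff]
    refine ⟨(Complex.continuous_ofReal.tendsto a).mono_left nhdsWithin_le_nhds, ?_⟩
    filter_upwards [self_mem_nhdsWithin] with l hl
    intro h'
    exact hl (Complex.ofReal_injective h')
  exact hto.frequently h.frequently

theorem claim2 {A : Set (ℂ × ℂ × ℂ)} (hA : IsAnalyticSubset A) (hreal : ContainsReal A) (n : ℕ)
    (R : ℝ) : ∀ᶠ mu : ℝ in 𝓝[≠] 0, ∀ l : ℂ, ‖l‖ < R →
      ∀ z ∈ closedBall ((n : ℂ) ^ 2 / 4) (1 / 16 : ℝ), Phi l mu z = 0 →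
        (l, l ^ 2 / 4 - (mu : ℂ) ^ 2 / 2 - z, (mu : ℂ)) ∈ A := by
  set R' : ℝ := max R ((n : ℝ) + 3) with hR'
  have hRR' : R ≤ R' := le_max_left _ _
  have hnR' : (n : ℝ) + 3 ≤ R' := le_max_right _ _
  have hsmall : ∀ᶠ mu : ℝ in 𝓝[≠] 0, |mu| * (R' + 1) + mu ^ 2 / 2 < 1 / 16 := by
    have hc : Continuous (fun mu : ℝ => |mu| * (R' + 1) + mu ^ 2 / 2) := by
      fun_prop
    have h3 := hc.tendsto 0
    simp only [abs_zero, zero_mul, ne_eq, OfNat.ofNat_ne_zero, not_false_eq_true, zero_pow,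
      zero_div, add_zero] at h3
    exact (h3.mono_left nhdsWithin_le_nhds).eventually (gt_mem_nhds (by norm_num))
  filter_upwards [claim1 hreal n, hsmall] with mu h1 h2 l hl z hz h0
  have hfree : ∀ l ∈ ball (0 : ℂ) R', ∀ z ∈ sphere ((n : ℂ) ^ 2 / 4) (1 / 16 : ℝ),
      Phi l mu z ≠ 0 := by
    intro l hl
    refine small_sphere_free l mu n ?_
    rw [mem_ball_zero_iff] at hl
    unfold qq
    rw [Complex.norm_real, Real.norm_eq_abs, sq_abs]
    have h3 : |mu| * (‖l‖ + 1) ≤ |mu| * (R' + 1) :=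
      mul_le_mul_of_nonneg_left (by linarith) (abs_nonneg _)
    linarith
  have hμ1 : (((n : ℝ) + 2 : ℝ) : ℂ) ∈ ball (0 : ℂ) R' := by
    rw [mem_ball_zero_iff, Complex.norm_real, Real.norm_eq_abs, abs_of_nonneg (by positivity)]
    linarith
  have hfreq : ∃ᶠ l in 𝓝[≠] ((((n : ℝ) + 2 : ℝ)) : ℂ),
      ∀ z ∈ closedBall ((n : ℂ) ^ 2 / 4) (1 / 16 : ℝ), Phi l mu z = 0 → (l, z) ∈ sliceL A mu :=
    frequently_of_real (P := fun l => ∀ z ∈ closedBall ((n : ℂ) ^ 2 / 4) (1 / 16 : ℝ),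
      Phi l mu z = 0 → (l, z) ∈ sliceL A mu) (h1.filter_mono nhdsWithin_le_nhds)
  have key := propagate (fun q : ℂ × ℂ => Phi q.1 mu q.2) (sliceL A mu)
    (isAnalyticSet2_sliceL hA mu) (ball (0 : ℂ) R') (convex_ball _ _).isPreconnected
    ((n : ℂ) ^ 2 / 4) (R := 1 / 16) (by norm_num) (fun l _ z _ => analyticAt_Phi_l mu (l, z))
    hfree _ hμ1 hfreq
  exact key l (mem_ball_zero_iff.2 (hl.trans_le hRR')) z hz h0

theorem claim3 {A : Set (ℂ × ℂ × ℂ)} (hA : IsAnalyticSubset A) (hreal : ContainsReal A)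
    (l mu z : ℂ) (h0 : Phi l mu z = 0) : (l, l ^ 2 / 4 - mu ^ 2 / 2 - z, mu) ∈ A := by
  set B : ℝ := ‖mu‖ + 1 with hB
  have hB0 : 0 < B := by positivity
  obtain ⟨N, hN⟩ := exists_nat_gt (max (4 * (B * (‖l‖ + 1) + B ^ 2 / 2)) (max 4 (4 * ‖z‖)))
  have hN1 : 4 * (B * (‖l‖ + 1) + B ^ 2 / 2) < N := (le_max_left _ _).trans_lt hN
  have hN2 : 4 * ‖z‖ < N := ((le_max_right _ _).trans (le_max_right _ _)).trans_lt hN
  have hN3 : (4 : ℝ) < N := ((le_max_left _ _).trans (le_max_right _ _)).trans_lt hN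
  have hfree : ∀ m ∈ ball (0 : ℂ) B, ∀ w ∈ sphere (0 : ℂ) (bigR N), Phi l m w ≠ 0 := by
    intro m hm
    refine big_sphere_free l m N ?_
    rw [mem_ball_zero_iff] at hm
    unfold qq
    have h1 : ‖m‖ * (‖l‖ + 1) ≤ B * (‖l‖ + 1) :=
      mul_le_mul_of_nonneg_right hm.le (by positivity)
    have h2 : ‖m‖ ^ 2 ≤ B ^ 2 := by
      have := norm_nonneg m
      nlinarith
    linarith
  have hev : ∀ᶠ m : ℝ in 𝓝[≠] 0, ∀ w ∈ closedBall (0 : ℂ) (bigR N), Phi l m w = 0 →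
      ((m : ℂ), w) ∈ sliceM A l := by
    have h1 : ∀ᶠ m : ℝ in 𝓝[≠] 0, ∀ n ∈ Finset.range (N + 1), ∀ l' : ℂ, ‖l'‖ < ‖l‖ + 1 →
        ∀ w ∈ closedBall ((n : ℂ) ^ 2 / 4) (1 / 16 : ℝ), Phi l' m w = 0 →
        (l', l' ^ 2 / 4 - (m : ℂ) ^ 2 / 2 - w, (m : ℂ)) ∈ A := by
      rw [Filter.eventually_all_finset]
      intro n _
      exact claim2 hA hreal n (‖l‖ + 1)
    have h2 : ∀ᶠ m : ℝ in 𝓝[≠] 0, qq l m < 1 / 16 := by
      have hc : Continuous (fun m : ℝ => qq l (m : ℂ)) := by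
        unfold qq
        fun_prop
      have h3 := hc.tendsto 0
      have h4 : qq l ((0 : ℝ) : ℂ) = 0 := by unfold qq; simp
      rw [h4] at h3
      exact (h3.mono_left nhdsWithin_le_nhds).eventually (gt_mem_nhds (by norm_num))
    filter_upwards [h1, h2] with m e1 e2 w hw hw0
    obtain ⟨n, hn, hwn⟩ := zeros_in_small_discs l m N e2 w hw hw0
    exact e1 n (Finset.mem_range.2 (by omega)) l (by linarith) w hwn hw0
  have hfreq : ∃ᶠ m in 𝓝[≠] ((0 : ℝ) : ℂ), ∀ w ∈ closedBall (0 : ℂ) (bigR N), Phi l m w = 0 →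
      (m, w) ∈ sliceM A l :=
    frequently_of_real (P := fun m => ∀ w ∈ closedBall (0 : ℂ) (bigR N), Phi l m w = 0 →
      (m, w) ∈ sliceM A l) hev
  have hμ1 : (((0 : ℝ)) : ℂ) ∈ ball (0 : ℂ) B := by
    rw [mem_ball_zero_iff]
    simpa using hB0
  have key := propagate (fun q : ℂ × ℂ => Phi l q.1 q.2) (sliceM A l)
    (isAnalyticSet2_sliceM hA l) (ball (0 : ℂ) B) (convex_ball _ _).isPreconnected
    0 (bigR_pos N) (fun m _ w _ => analyticAt_Phi_mu l (m, w))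
    hfree _ hμ1 hfreq
  refine key mu ?_ z ?_ h0
  · rw [mem_ball_zero_iff, hB]
    linarith
  · rw [mem_closedBall_zero_iff]
    unfold bigR
    nlinarith [norm_nonneg z]

/-- `SigmaTilde` is an analytic subset of `ℂ³`. -/
theorem isAnalyticSubset_SigmaTilde : IsAnalyticSubset SigmaTilde := by
  intro p
  refine ⟨Set.univ, isOpen_univ, Set.mem_univ p, 1, fun _ q => FF q.1 q.2.1 q.2.2,
    fun _ q _ => ?_, fun q _ => ?_⟩
  · exact analyticAt_FF analyticAt_fst (analyticAt_fst.fun_comp analyticAt_snd)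
      (analyticAt_snd.fun_comp analyticAt_snd)
  · obtain ⟨l, lam, mu⟩ := q
    rw [mem_SigmaTilde_iff]
    simp

/-- every analytic set containing the real points contains the whole locus -/
theorem SigmaTilde_subset {A : Set (ℂ × ℂ × ℂ)} (hA : IsAnalyticSubset A)
    (hreal : ContainsReal A) : SigmaTilde ⊆ A := by
  rintro ⟨l, lam, mu⟩ h
  have h1 := (mem_SigmaTilde_iff_Phi l lam mu).1 h
  have h2 := claim3 hA hreal l mu _ h1
  have h3 : l ^ 2 / 4 - mu ^ 2 / 2 - (l ^ 2 / 4 - lam - mu ^ 2 / 2) = lam := by ring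
  rwa [h3] at h2

end

end Pool.Agent.Lib_helper75.Heun
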