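import Pool.Agent.Lib_helper75.Heun.MuZero

/-!
# Polynomial solutions at integer `l` and the Jacobi matrix
-/

namespace Pool.Agent.Lib_helper75.Heun

open Topology MeasureTheory Metric Filter

noncomputable section

/-- diagonal entries -/
def dd (M k : ℕ) : ℝ := (k : ℝ) * ((M : ℝ) + 1 - k)

/-- off diagonal entries -/
def bb (M k : ℕ) : ℝ := Real.sqrt (dd M k)

lemma dd_nonneg {M k : ℕ} (h : k ≤ M + 1) : 0 ≤ dd M k := by
  unfold dd
  have : (k : ℝ) ≤ (M : ℝ) + 1 := by exact_mod_cast h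
  have h2 : (0 : ℝ) ≤ k := by positivity
  nlinarith

lemma bb_zero (M : ℕ) : bb M 0 = 0 := by
  unfold bb dd
  simp

lemma bb_sq {M k : ℕ} (h : k ≤ M + 1) : bb M k * bb M k = dd M k :=
  Real.mul_self_sqrt (dd_nonneg h)

lemma bb_pos {M k : ℕ} (h1 : 1 ≤ k) (h2 : k ≤ M) : 0 < bb M k := by
  unfold bb
  refine Real.sqrt_pos.2 ?_
  unfold dd
  have h3 : (1 : ℝ) ≤ k := by exact_mod_cast h1
  have h4 : (k : ℝ) ≤ M := by exact_mod_cast h2
  nlinarith

lemma bb_nonneg (M k : ℕ) : 0 ≤ bb M k := Real.sqrt_nonneg _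

lemma bb_le (M k : ℕ) : bb M k ≤ (M : ℝ) + 1 := by
  unfold bb
  refine Real.sqrt_le_iff.2 ⟨by positivity, ?_⟩
  unfold dd
  have h3 : (0 : ℝ) ≤ k := by positivity
  have h4 : (0 : ℝ) ≤ M := by positivity
  nlinarith [sq_nonneg ((k : ℝ) - ((M : ℝ) + 1 - k))]

/-- the Jacobi matrix -/
def JM (M : ℕ) (mu : ℝ) : Matrix (Fin (M + 1)) (Fin (M + 1)) ℝ :=
  Matrix.of fun i j => (if (i : ℕ) = j then dd M i else 0) +
    (if (j : ℕ) = i + 1 then -mu * bb M (i + 1) else 0) +
    (if (i : ℕ) = j + 1 then -mu * bb M (j + 1) else 0)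

lemma JM_isHermitian (M : ℕ) (mu : ℝ) : (JM M mu).IsHermitian := by
  refine Matrix.IsHermitian.ext (fun i j => ?_)
  simp only [JM, Matrix.of_apply, star_trivial]
  have e1 : (if (j : ℕ) = i then dd M j else 0) = (if (i : ℕ) = j then dd M i else 0) := by
    by_cases h : (i : ℕ) = j
    · rw [if_pos h.symm, if_pos h, h]
    · rw [if_neg (fun h' => h h'.symm), if_neg h]
  rw [e1]
  ring

/-- extension of a vector by zero -/
def extv {M : ℕ} (v : Fin (M + 1) → ℝ) (k : ℕ) : ℝ := if h : k < M + 1 then v ⟨k, h⟩ else 0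

lemma extv_coe {M : ℕ} (v : Fin (M + 1) → ℝ) (i : Fin (M + 1)) : extv v i = v i := by
  unfold extv
  rw [dif_pos i.2]

lemma extv_of_gt {M : ℕ} (v : Fin (M + 1) → ℝ) {k : ℕ} (h : M < k) : extv v k = 0 := by
  unfold extv
  rw [dif_neg (by omega)]

lemma JM_mulVec (M : ℕ) (mu : ℝ) (v : Fin (M + 1) → ℝ) (i : Fin (M + 1)) :
    (JM M mu).mulVec v i = dd M i * extv v i - mu * bb M (i + 1) * extv v (i + 1) -
      mu * bb M i * extv v (i - 1) := by
  have h1 : (JM M mu).mulVec v i = ∑ j : Fin (M + 1),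
      (fun j : ℕ => ((if (i : ℕ) = j then dd M i else 0) +
        (if j = (i : ℕ) + 1 then -mu * bb M (i + 1) else 0) +
        (if (i : ℕ) = j + 1 then -mu * bb M (j + 1) else 0)) * extv v j) (j : ℕ) := by
    unfold Matrix.mulVec dotProduct
    refine Finset.sum_congr rfl (fun j _ => ?_)
    simp only [JM, Matrix.of_apply, extv_coe]
  rw [h1, Fin.sum_univ_eq_sum_range (fun j : ℕ => ((if (i : ℕ) = j then dd M i else 0) +
        (if j = (i : ℕ) + 1 then -mu * bb M (i + 1) else 0) +
        (if (i : ℕ) = j + 1 then -mu * bb M (j + 1) else 0)) * extv v j) (M + 1)]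
  simp only [add_mul, Finset.sum_add_distrib, ite_mul, zero_mul]
  have s1 : ∑ x ∈ Finset.range (M + 1), (if (i : ℕ) = x then dd M i * extv v x else 0) =
      dd M i * extv v i := by
    rw [Finset.sum_ite_eq, if_pos (Finset.mem_range.2 i.2)]
  have s2 : ∑ x ∈ Finset.range (M + 1),
      (if x = (i : ℕ) + 1 then -mu * bb M (i + 1) * extv v x else 0) =
      -mu * bb M (i + 1) * extv v (i + 1) := by
    rw [Finset.sum_ite_eq']
    by_cases h : (i : ℕ) + 1 ∈ Finset.range (M + 1)
    · rw [if_pos h]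
    · rw [if_neg h, extv_of_gt v (by rw [Finset.mem_range] at h; omega), mul_zero]
  have s3 : ∑ x ∈ Finset.range (M + 1),
      (if (i : ℕ) = x + 1 then -mu * bb M (x + 1) * extv v x else 0) =
      -mu * bb M i * extv v (i - 1) := by
    obtain ⟨i, hi⟩ := i
    simp only
    cases i with
    | zero =>
      rw [bb_zero]
      simp
    | succ j =>
      have : ∀ x : ℕ, (j + 1 = x + 1) = (j = x) := by
        intro x
        simp
      simp only [this]
      rw [Finset.sum_ite_eq, if_pos (Finset.mem_range.2 (by omega))]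
      rfl
  rw [s1, s2, s3]
  ring

/-- eigenvectors in three term form -/
def IsEv (M : ℕ) (mu lam : ℝ) (V : ℕ → ℝ) : Prop :=
  (∀ k, M < k → V k = 0) ∧ ∀ k ≤ M, lam * V k = dd M k * V k - mu * bb M (k + 1) * V (k + 1) -
    mu * bb M k * V (k - 1)

lemma IsEv.eq_zero {M : ℕ} {mu lam : ℝ} {V : ℕ → ℝ} (h : IsEv M mu lam V) (hmu : mu ≠ 0)
    (h0 : V 0 = 0) : ∀ k, V k = 0 := by
  have key : ∀ k, V k = 0 ∧ V (k + 1) = 0 := by
    intro k
    induction k with
    | zero =>
      refine ⟨h0, ?_⟩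
      rcases Nat.lt_or_ge M 1 with hM | hM
      · exact h.1 _ hM
      · have h1 := h.2 0 (Nat.zero_le _)
        rw [h0, bb_zero] at h1
        simp only [mul_zero, zero_sub, sub_zero, zero_add] at h1
        have h2 : mu * bb M 1 ≠ 0 := mul_ne_zero hmu (bb_pos le_rfl hM).ne'
        have h3 : mu * bb M 1 * V 1 = 0 := by linarith
        exact (mul_eq_zero.1 h3).resolve_left h2
    | succ k ih =>
      refine ⟨ih.2, ?_⟩
      rcases Nat.lt_or_ge M (k + 1 + 1) with hM | hM
      · exact h.1 _ hM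
      · have h1 := h.2 (k + 1) (by omega)
        rw [Nat.add_sub_cancel, ih.1, ih.2] at h1
        simp only [mul_zero, zero_sub, sub_zero] at h1
        have h2 : mu * bb M (k + 1 + 1) ≠ 0 := mul_ne_zero hmu (bb_pos (by omega) hM).ne'
        have h3 : mu * bb M (k + 1 + 1) * V (k + 1 + 1) = 0 := by linarith
        exact (mul_eq_zero.1 h3).resolve_left h2
  exact fun k => (key k).1

/-- localisation of the eigenvalues of the Jacobi matrix -/
lemma IsEv.localize {M : ℕ} {mu lam : ℝ} {V : ℕ → ℝ} (h : IsEv M mu lam V)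
    (hV : ∃ k, V k ≠ 0) : ∃ k ≤ M, |lam - dd M k| ≤ |mu| * (2 * ((M : ℝ) + 1)) := by
  obtain ⟨k, hk, hmax⟩ := Finset.exists_max_image (Finset.range (M + 1)) (fun k => |V k|)
    ⟨0, Finset.mem_range.2 (by omega)⟩
  have hkM : k ≤ M := by
    rw [Finset.mem_range] at hk
    omega
  have hall : ∀ j, |V j| ≤ |V k| := by
    intro j
    rcases Nat.lt_or_ge M j with hj | hj
    · rw [h.1 j hj, abs_zero]
      exact abs_nonneg _
    · exact hmax j (Finset.mem_range.2 (by omega))
  have hpos : 0 < |V k| := by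
    obtain ⟨j, hj⟩ := hV
    exact (abs_pos.2 hj).trans_le (hall j)
  refine ⟨k, hkM, ?_⟩
  have h1 := h.2 k hkM
  have h2 : (lam - dd M k) * V k = -(mu * (bb M (k + 1) * V (k + 1) + bb M k * V (k - 1))) := by
    linear_combination h1
  have h3 : |lam - dd M k| * |V k| ≤ (|mu| * (2 * ((M : ℝ) + 1))) * |V k| := by
    rw [← abs_mul, h2, abs_neg, abs_mul]
    have h4 : |bb M (k + 1) * V (k + 1) + bb M k * V (k - 1)| ≤ 2 * ((M : ℝ) + 1) * |V k| := by
      refine (abs_add_le _ _).trans ?_
      rw [abs_mul, abs_mul, abs_of_nonneg (bb_nonneg _ _), abs_of_nonneg (bb_nonneg _ _)]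
      have e1 := mul_le_mul (bb_le M (k + 1)) (hall (k + 1)) (abs_nonneg _) (by positivity)
      have e2 := mul_le_mul (bb_le M k) (hall (k - 1)) (abs_nonneg _) (by positivity)
      linarith
    calc |mu| * |bb M (k + 1) * V (k + 1) + bb M k * V (k - 1)|
        ≤ |mu| * (2 * ((M : ℝ) + 1) * |V k|) := mul_le_mul_of_nonneg_left h4 (abs_nonneg _)
      _ = _ := by ring
  exact le_of_mul_le_mul_right h3 hpos

/-- symmetrising weights -/
def rho (M : ℕ) : ℕ → ℝ
  | 0 => 1
  | k + 1 => rho M k * bb M (k + 1) / (k + 1)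

lemma rho_succ (M k : ℕ) : ((k : ℝ) + 1) * rho M (k + 1) = rho M k * bb M (k + 1) := by
  rw [rho]
  have : ((k : ℝ) + 1) ≠ 0 := by positivity
  field_simp

lemma rho_pred {M k : ℕ} (hk : k + 1 ≤ M + 1) :
    rho M (k + 1) * bb M (k + 1) = ((M : ℝ) + 1 - (k + 1)) * rho M k := by
  rw [rho]
  have h1 := bb_sq hk
  have h2 : ((k : ℝ) + 1) ≠ 0 := by positivity
  unfold dd at h1
  push_cast at h1
  field_simp
  linear_combination (rho M k) * h1

lemma rho_pos {M : ℕ} : ∀ {k : ℕ}, k ≤ M → 0 < rho M k := by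
  intro k
  induction k with
  | zero => intro _; rw [rho]; exact one_pos
  | succ k ih =>
    intro hk
    rw [rho]
    have h1 := ih (by omega)
    have h2 : 0 < bb M (k + 1) := bb_pos (by omega) hk
    positivity

/-- the polynomial solution -/
lemma FF_of_isEv {M : ℕ} {mu lam : ℝ} {V : ℕ → ℝ} (h : IsEv M mu lam V)
    (hV : ∃ k, V k ≠ 0) : FF ((M : ℂ) + 1) lam mu = 0 := by
  set e : ℕ → ℝ := fun k => rho M k * V k with he
  have hrow0 : (lam - dd M 0) * e 0 + mu * ((0 : ℝ) + 1) * e 1 = 0 := by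
    have h1 := h.2 0 (Nat.zero_le _)
    rw [bb_zero] at h1
    have h2 := rho_succ M 0
    rw [he]
    simp only
    push_cast at h2
    linear_combination (rho M 0) * h1 + (mu * V 1) * h2
  have hrow : ∀ k, k + 1 ≤ M → (lam - dd M (k + 1)) * e (k + 1) +
      mu * (((k + 1 : ℕ) : ℝ) + 1) * e (k + 1 + 1) +
      mu * ((M : ℝ) + 1 - (k + 1)) * e k = 0 := by
    intro k hk
    have h1 := h.2 (k + 1) hk
    rw [Nat.add_sub_cancel] at h1
    have h2 := rho_succ M (k + 1)
    have h3 := rho_pred (M := M) (k := k) (by omega)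
    rw [he]
    simp only
    linear_combination (rho M (k + 1)) * h1 + (mu * V (k + 1 + 1)) * h2 - (mu * V k) * h3
  have heM : e (M + 1) = 0 := by
    rw [he]
    simp only
    rw [h.1 (M + 1) (by omega), mul_zero]
  set f : ℂ → ℂ := fun s => ∑ k ∈ Finset.range (M + 1), (e k : ℂ) * Complex.exp ((k : ℂ) * s)
    with hf
  have hE : ∀ x s : ℂ, HasDerivAt (fun s : ℂ => Complex.exp (x * s)) (x * Complex.exp (x * s)) s := by
    intro x s
    have e0 : HasDerivAt (fun s : ℂ => x * s) x s := by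
      simpa using (hasDerivAt_id s).const_mul x
    refine e0.cexp.congr_deriv ?_
    ring
  have hfd : ∀ s, HasDerivAt f (∑ k ∈ Finset.range (M + 1),
      (e k : ℂ) * ((k : ℂ) * Complex.exp ((k : ℂ) * s))) s := by
    intro s
    exact HasDerivAt.fun_sum (fun k _ => (hE (k : ℂ) s).const_mul (e k : ℂ))
  have hfdd : ∀ s, HasDerivAt (fun s => ∑ k ∈ Finset.range (M + 1),
      (e k : ℂ) * ((k : ℂ) * Complex.exp ((k : ℂ) * s))) (∑ k ∈ Finset.range (M + 1),
      (e k : ℂ) * ((k : ℂ) * ((k : ℂ) * Complex.exp ((k : ℂ) * s)))) s := by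
    intro s
    exact HasDerivAt.fun_sum (fun k _ => ((hE (k : ℂ) s).const_mul (k : ℂ)).const_mul (e k : ℂ))
  have hderiv : deriv f = fun s => ∑ k ∈ Finset.range (M + 1),
      (e k : ℂ) * ((k : ℂ) * Complex.exp ((k : ℂ) * s)) := funext fun s => (hfd s).deriv
  refine FF_eq_zero_of_floquet ((M : ℂ) + 1) lam mu 1 f ?_ ?_ ?_ ?_
  · have : PP * ((M : ℂ) + 1) = ((M + 1 : ℕ) : ℂ) * (2 * Real.pi * Complex.I) := by
      unfold PP
      push_cast
      ring
    rw [this, Complex.exp_nat_mul_two_pi_mul_I]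
    norm_num
  · rw [mem_Sol, isSol_iff]
    refine ⟨fun s => (hfd s).differentiableAt, fun s => ?_⟩
    rw [hderiv, (hfdd s).deriv]
    -- the three sums
    have hS2 : Complex.exp (-s) * ∑ k ∈ Finset.range (M + 1),
        (e k : ℂ) * ((k : ℂ) * Complex.exp ((k : ℂ) * s)) =
        ∑ k ∈ Finset.range (M + 1), ((k : ℂ) + 1) * (e (k + 1) : ℂ) * Complex.exp ((k : ℂ) * s) := by
      rw [Finset.sum_range_succ', Finset.sum_range_succ (fun k : ℕ =>
        ((k : ℂ) + 1) * (e (k + 1) : ℂ) * Complex.exp ((k : ℂ) * s)), heM]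
      simp only [Nat.cast_zero, zero_mul, mul_zero, add_zero, Complex.ofReal_zero]
      rw [Finset.mul_sum]
      refine Finset.sum_congr rfl (fun k _ => ?_)
      have : Complex.exp (((k + 1 : ℕ) : ℂ) * s) = Complex.exp ((k : ℂ) * s) * Complex.exp s := by
        rw [← Complex.exp_add]; congr 1; push_cast; ring
      rw [this]
      have h2 : Complex.exp (-s) * Complex.exp s = 1 := by rw [← Complex.exp_add]; simp
      push_cast
      linear_combination ((e (k + 1) : ℂ) * ((k : ℂ) + 1) * Complex.exp ((k : ℂ) * s)) * h2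
    have hS3 : Complex.exp s * ∑ k ∈ Finset.range (M + 1),
        ((M : ℂ) - k) * (e k : ℂ) * Complex.exp ((k : ℂ) * s) =
        ∑ k ∈ Finset.range (M + 1), (if k = 0 then 0 else
          ((M : ℂ) + 1 - k) * (e (k - 1) : ℂ) * Complex.exp ((k : ℂ) * s)) := by
      rw [Finset.sum_range_succ, Finset.sum_range_succ' (fun k : ℕ => (if k = 0 then (0 : ℂ) else
          ((M : ℂ) + 1 - k) * (e (k - 1) : ℂ) * Complex.exp ((k : ℂ) * s)))]
      simp only [sub_self, zero_mul, add_zero, if_true]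
      rw [Finset.mul_sum]
      refine Finset.sum_congr rfl (fun k _ => ?_)
      rw [if_neg (Nat.succ_ne_zero k), Nat.add_sub_cancel]
      have : Complex.exp (((k + 1 : ℕ) : ℂ) * s) = Complex.exp ((k : ℂ) * s) * Complex.exp s := by
        rw [← Complex.exp_add]; congr 1; push_cast; ring
      rw [this]
      push_cast
      ring
    have hmain : ∑ k ∈ Finset.range (M + 1),
        (((lam : ℂ) - (dd M k : ℂ)) * (e k : ℂ) * Complex.exp ((k : ℂ) * s) +
        (mu : ℂ) * (((k : ℂ) + 1) * (e (k + 1) : ℂ) * Complex.exp ((k : ℂ) * s)) +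
        (mu : ℂ) * (if k = 0 then 0 else
          ((M : ℂ) + 1 - k) * (e (k - 1) : ℂ) * Complex.exp ((k : ℂ) * s))) = 0 := by
      refine Finset.sum_eq_zero (fun k hk => ?_)
      have hkM : k ≤ M := by
        rw [Finset.mem_range] at hk
        omega
      cases k with
      | zero =>
        have h1 : (((lam - dd M 0) * e 0 + mu * ((0 : ℝ) + 1) * e 1 : ℝ) : ℂ) = 0 := by
          rw [hrow0]; simp
        push_cast at h1
        simp only [if_true, mul_zero, add_zero, Nat.cast_zero]
        linear_combination (Complex.exp ((0 : ℂ) * s)) * h1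
      | succ j =>
        have h1 : (((lam - dd M (j + 1)) * e (j + 1) + mu * (((j + 1 : ℕ) : ℝ) + 1) * e (j + 1 + 1) +
            mu * ((M : ℝ) + 1 - (j + 1)) * e j : ℝ) : ℂ) = 0 := by
          rw [hrow j hkM]; simp
        push_cast at h1
        rw [if_neg (Nat.succ_ne_zero j), Nat.add_sub_cancel]
        push_cast
        linear_combination (Complex.exp (((j : ℂ) + 1) * s)) * h1
    rw [Finset.sum_add_distrib, Finset.sum_add_distrib, ← Finset.mul_sum, ← Finset.mul_sum,
      ← hS2, ← hS3] at hmain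
    unfold c0 c1
    have e1 : ∑ k ∈ Finset.range (M + 1), (e k : ℂ) * ((k : ℂ) * ((k : ℂ) *
        Complex.exp ((k : ℂ) * s))) = ((M : ℂ) + 1) * (∑ k ∈ Finset.range (M + 1),
        (e k : ℂ) * ((k : ℂ) * Complex.exp ((k : ℂ) * s))) - (lam : ℂ) * f s +
        ∑ k ∈ Finset.range (M + 1),
        (((lam : ℂ) - (dd M k : ℂ)) * (e k : ℂ) * Complex.exp ((k : ℂ) * s)) := by
      rw [hf]
      simp only
      rw [Finset.mul_sum, Finset.mul_sum, ← Finset.sum_sub_distrib, ← Finset.sum_add_distrib]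
      refine Finset.sum_congr rfl (fun k _ => ?_)
      unfold dd
      push_cast
      ring
    have e2 : ∑ k ∈ Finset.range (M + 1),
        ((M : ℂ) - k) * (e k : ℂ) * Complex.exp ((k : ℂ) * s) =
        (M : ℂ) * f s - ∑ k ∈ Finset.range (M + 1),
        (e k : ℂ) * ((k : ℂ) * Complex.exp ((k : ℂ) * s)) := by
      rw [hf]
      simp only
      rw [Finset.mul_sum, ← Finset.sum_sub_distrib]
      refine Finset.sum_congr rfl (fun k _ => ?_)
      ring
    rw [e2] at hmain
    rw [e1]
    linear_combination hmain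
  · intro h0
    -- the polynomial vanishes
    set P : Polynomial ℂ := ∑ k ∈ Finset.range (M + 1), Polynomial.C (e k : ℂ) * Polynomial.X ^ k
      with hP
    have hev : ∀ s : ℂ, P.eval (Complex.exp s) = f s := by
      intro s
      rw [hP, hf, Polynomial.eval_finsetSum]
      refine Finset.sum_congr rfl (fun k _ => ?_)
      rw [Polynomial.eval_mul, Polynomial.eval_C, Polynomial.eval_pow, Polynomial.eval_X,
        ← Complex.exp_nat_mul]
    have hP0 : P = 0 := by
      refine Polynomial.eq_zero_of_infinite_isRoot P ?_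
      refine Set.Infinite.mono (s := {z : ℂ | z ≠ 0}) ?_ ?_
      · intro z hz
        have h1 : P.eval (Complex.exp (Complex.log z)) = 0 := by
          rw [hev, h0]
          rfl
        rw [Complex.exp_log hz] at h1
        exact h1
      · have : {z : ℂ | z ≠ 0} = ({0} : Set ℂ)ᶜ := rfl
        rw [this]
        exact (Set.finite_singleton (0 : ℂ)).infinite_compl
    obtain ⟨k, hk⟩ := hV
    have hkM : k ≤ M := by
      by_contra hcon
      exact hk (h.1 k (by omega))
    have h1 : P.coeff k = (e k : ℂ) := by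
      rw [hP, Polynomial.finsetSum_coeff]
      simp only [Polynomial.coeff_C_mul, Polynomial.coeff_X_pow]
      rw [Finset.sum_eq_single k]
      · simp
      · intro b _ hb
        rw [if_neg (Ne.symm hb), mul_zero]
      · intro hk'
        exact absurd (Finset.mem_range.2 (by omega)) hk'
    rw [hP0, Polynomial.coeff_zero] at h1
    have h2 : e k = 0 := by exact_mod_cast h1.symm
    rw [he] at h2
    rcases mul_eq_zero.1 h2 with h3 | h3
    · exact (rho_pos hkM).ne' h3
    · exact hk h3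
  · intro s
    rw [one_mul, hf]
    simp only
    refine Finset.sum_congr rfl (fun k _ => ?_)
    congr 1
    have : (k : ℂ) * (s + PP) = (k : ℂ) * s + (k : ℂ) * (2 * Real.pi * Complex.I) := by
      unfold PP
      ring
    rw [this, Complex.exp_add, Complex.exp_nat_mul_two_pi_mul_I, mul_one]

/-- all eigenvalues of the Jacobi matrix -/
theorem jacobi_zeros (M : ℕ) (mu : ℝ) (hmu : mu ≠ 0) : ∃ lam : Fin (M + 1) → ℝ,
    Function.Injective lam ∧ (∑ i, lam i = ∑ k ∈ Finset.range (M + 1), dd M k) ∧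
    (∀ i, ∃ k ≤ M, |lam i - dd M k| ≤ |mu| * (2 * ((M : ℝ) + 1))) ∧
    ∀ i, FF ((M : ℂ) + 1) (lam i) mu = 0 := by
  have hA := JM_isHermitian M mu
  have hEv : ∀ i, IsEv M mu (hA.eigenvalues i) (extv (hA.eigenvectorBasis i).ofLp) := by
    intro i
    refine ⟨fun k hk => extv_of_gt _ hk, fun k hk => ?_⟩
    have h1 := congrFun (hA.mulVec_eigenvectorBasis i) ⟨k, by omega⟩
    rw [JM_mulVec] at h1
    simp only [Pi.smul_apply, smul_eq_mul] at h1
    have h2 : extv (hA.eigenvectorBasis i).ofLp k = (hA.eigenvectorBasis i).ofLp ⟨k, by omega⟩ :=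
      extv_coe _ ⟨k, by omega⟩
    rw [← h2] at h1
    exact h1.symm
  have hne : ∀ i, ∃ k, extv (hA.eigenvectorBasis i).ofLp k ≠ 0 := by
    intro i
    by_contra hcon
    push Not at hcon
    have h1 : hA.eigenvectorBasis i = 0 := by
      ext j
      have := hcon j
      rw [extv_coe] at this
      simpa using this
    exact hA.eigenvectorBasis.orthonormal.ne_zero i h1
  refine ⟨hA.eigenvalues, ?_, ?_, fun i => (hEv i).localize (hne i), fun i => FF_of_isEv (hEv i) (hne i)⟩
  · intro i j hij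
    by_contra hne'
    set Vi := extv (hA.eigenvectorBasis i).ofLp with hVi
    set Vj := extv (hA.eigenvectorBasis j).ofLp with hVj
    have hW : IsEv M mu (hA.eigenvalues i) (fun k => Vj 0 * Vi k - Vi 0 * Vj k) := by
      refine ⟨fun k hk => ?_, fun k hk => ?_⟩
      · have e1 : Vi k = 0 := (hEv i).1 k hk
        have e2 : Vj k = 0 := (hEv j).1 k hk
        change Vj 0 * Vi k - Vi 0 * Vj k = 0
        rw [e1, e2]
        ring
      · have e1 := (hEv i).2 k hk
        have e2 := (hEv j).2 k hk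
        rw [← hij] at e2
        linear_combination (Vj 0) * e1 - (Vi 0) * e2
    have hW0 := hW.eq_zero hmu (by ring)
    have hVi0 : Vi 0 ≠ 0 := by
      intro h0
      obtain ⟨k, hk⟩ := hne i
      exact hk ((hEv i).eq_zero hmu h0 k)
    have hvec : (Vj 0) • hA.eigenvectorBasis i = (Vi 0) • hA.eigenvectorBasis j := by
      ext k
      have h1 := hW0 k
      rw [hVi, hVj] at h1 ⊢
      simp only [extv_coe] at h1
      simp only [PiLp.smul_apply, smul_eq_mul]
      linarith
    have hinner := congrArg (fun x => inner ℝ x (hA.eigenvectorBasis j)) hvec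
    simp only [inner_smul_left] at hinner
    rw [hA.eigenvectorBasis.orthonormal.2 hne', real_inner_self_eq_norm_sq,
      hA.eigenvectorBasis.orthonormal.1 j] at hinner
    simp at hinner
    exact hVi0 hinner.symm
  · have h1 := hA.trace_eq_sum_eigenvalues
    have h2 : (JM M mu).trace = ∑ k ∈ Finset.range (M + 1), dd M k := by
      rw [← Fin.sum_univ_eq_sum_range (fun k => dd M k) (M + 1), Matrix.trace]
      refine Finset.sum_congr rfl (fun i _ => ?_)
      simp [JM]
    rw [← h2, h1]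
    simp

end

end Pool.Agent.Lib_helper75.Heun
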