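import Pool.Agent.Lib_helper75.Heun.Monodromy

/-!
# Localisation of the spectral parameter

If `(l, lam, mu)` lies in the locus then `Lam = l²/4 - lam - mu²/2` is within distance
`|mu| (|l| + 1) + |mu|²/2` of some `n²/4`.
-/

namespace Pool.Agent.Lib_helper75.Heun

open Topology MeasureTheory

noncomputable section

/-- the Fourier coefficients (unnormalised) of a function on the imaginary axis -/
def cn (g : ℂ → ℂ) (n : ℤ) : ℂ :=
  ∫ t in (0 : ℝ)..(4 * Real.pi), Complex.exp (-(n * (t * Complex.I)) / 2) * g (t * Complex.I)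

lemma periodic_lift_eq_zero (w : ℝ → ℂ) (hw : Continuous w) (hper : Function.Periodic w (4 * Real.pi))
    (h : ∀ n : ℤ, ∫ t in (0 : ℝ)..(4 * Real.pi),
      Complex.exp (-(n * (t * Complex.I)) / 2) * w t = 0) : ∀ t, w t = 0 := by
  have hT : Fact (0 < 4 * Real.pi) := ⟨by positivity⟩
  have hcont : Continuous (hper.lift : AddCircle (4 * Real.pi) → ℂ) :=
    continuous_coinduced_dom.mpr hw
  set W : C(AddCircle (4 * Real.pi), ℂ) := ⟨hper.lift, hcont⟩ with hW
  have hcoef : ∀ n : ℤ, fourierCoeff W n = 0 := by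
    intro n
    rw [fourierCoeff_eq_intervalIntegral _ n 0, zero_add]
    have h1 : ∫ x in (0 : ℝ)..(4 * Real.pi),
        (fourier (-n) (x : AddCircle (4 * Real.pi)) : ℂ) • W (x : AddCircle (4 * Real.pi)) =
        ∫ t in (0 : ℝ)..(4 * Real.pi), Complex.exp (-(n * (t * Complex.I)) / 2) * w t := by
      refine intervalIntegral.integral_congr (fun x _ => ?_)
      rw [fourier_coe_apply, smul_eq_mul]
      have h2 : W (x : AddCircle (4 * Real.pi)) = w x := hper.lift_coe x
      rw [h2]
      congr 2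
      have hpi : (Real.pi : ℂ) ≠ 0 := by exact_mod_cast Real.pi_ne_zero
      push_cast
      field_simp
      ring
    rw [h1, h n, smul_zero]
  have hsum : Summable (fourierCoeff W) := by
    have : fourierCoeff W = fun _ => 0 := funext hcoef
    rw [this]
    exact summable_zero
  have h3 := hasSum_fourier_series_of_summable hsum
  have h4 : HasSum (fun i : ℤ => fourierCoeff W i • (fourier i : C(AddCircle (4 * Real.pi), ℂ)))
      0 := by
    have : (fun i : ℤ => fourierCoeff W i • (fourier i : C(AddCircle (4 * Real.pi), ℂ))) =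
        fun _ => 0 := by
      funext i
      rw [hcoef i, zero_smul]
    rw [this]
    exact hasSum_zero
  have h5 : W = 0 := h3.unique h4
  intro t
  have h6 : W (t : AddCircle (4 * Real.pi)) = w t := hper.lift_coe t
  rw [← h6, h5]
  rfl

lemma hasDerivAt_imag (g : ℂ → ℂ) (g' : ℂ) (t : ℝ) (h : HasDerivAt g g' (t * Complex.I)) :
    HasDerivAt (fun t : ℝ => g (t * Complex.I)) (g' * Complex.I) t := by
  have e1 : HasDerivAt (fun w : ℂ => g (w * Complex.I)) (g' * Complex.I) (t : ℂ) := by
    have e3 : HasDerivAt (fun w : ℂ => w * Complex.I) Complex.I (t : ℂ) := by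
      simpa using (hasDerivAt_id (t : ℂ)).mul_const Complex.I
    exact HasDerivAt.comp (h₂ := g) (h := fun w : ℂ => w * Complex.I) (t : ℂ) h e3
  exact e1.comp_ofReal

/-- the recurrence for the Fourier coefficients -/
lemma cn_recurrence (g : ℂ → ℂ) (hg : Differentiable ℂ g) (Lam α β γ : ℂ)
    (hper : ∀ s, g (s + 4 * Real.pi * Complex.I) = g s)
    (hode : ∀ s, deriv (deriv g) s = (Lam - (α * Complex.exp s + β * Complex.exp (-s) +
      γ * (Complex.exp (2 * s) + Complex.exp (-(2 * s))))) * g s) (n : ℤ) :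
    (Lam - (n : ℂ) ^ 2 / 4) * cn g n = α * cn g (n - 2) + β * cn g (n + 2) +
      γ * (cn g (n - 4) + cn g (n + 4)) := by
  have hderper : ∀ s, deriv g (s + 4 * Real.pi * Complex.I) = deriv g s := by
    intro s
    have h1 : deriv (fun s => g (s + 4 * Real.pi * Complex.I)) s =
        deriv g (s + 4 * Real.pi * Complex.I) := deriv_comp_add_const g _ s
    have h2 : (fun s => g (s + 4 * Real.pi * Complex.I)) = g := funext hper
    rw [← h1, h2]
  set hn : ℂ → ℂ := fun s => Complex.exp (-(n * s) / 2) * (deriv g s + n / 2 * g s) with hhn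
  have hD : ∀ s, HasDerivAt hn (Complex.exp (-(n * s) / 2) *
      (Lam - (α * Complex.exp s + β * Complex.exp (-s) +
      γ * (Complex.exp (2 * s) + Complex.exp (-(2 * s)))) - (n : ℂ) ^ 2 / 4) * g s) s := by
    intro s
    have e1 : HasDerivAt (fun s : ℂ => Complex.exp (-(n * s) / 2))
        (Complex.exp (-(n * s) / 2) * (-n / 2)) s := by
      have e0 : HasDerivAt (fun s : ℂ => -(n * s) / 2) (-n / 2) s := by
        have := ((hasDerivAt_id s).const_mul (n : ℂ)).neg.div_const 2
        simpa using this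
      exact e0.cexp
    have e2 : HasDerivAt (fun s => deriv g s + n / 2 * g s)
        (deriv (deriv g) s + n / 2 * deriv g s) s :=
      (hg.deriv s).hasDerivAt.add ((hg s).hasDerivAt.const_mul _)
    refine (e1.mul e2).congr_deriv ?_
    rw [hode s]
    ring
  have hnper : hn (((4 * Real.pi : ℝ) : ℂ) * Complex.I) = hn (((0 : ℝ) : ℂ) * Complex.I) := by
    rw [hhn]
    have h1 : (((4 * Real.pi : ℝ) : ℂ) * Complex.I) = 0 + 4 * Real.pi * Complex.I := by
      push_cast
      ring
    have h2 : Complex.exp (-(n * (0 + 4 * Real.pi * Complex.I)) / 2) = 1 := by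
      have : (-(n * (0 + 4 * Real.pi * Complex.I)) / 2 : ℂ) = ((-n : ℤ) : ℂ) *
          (2 * Real.pi * Complex.I) := by
        push_cast
        ring
      rw [this]
      exact Complex.exp_int_mul_two_pi_mul_I _
    simp only [h1]
    rw [hper 0, hderper 0, h2]
    simp
  have hint : ∫ t in (0 : ℝ)..(4 * Real.pi), (Complex.exp (-(n * (t * Complex.I)) / 2) *
      (Lam - (α * Complex.exp (t * Complex.I) + β * Complex.exp (-(t * Complex.I)) +
      γ * (Complex.exp (2 * (t * Complex.I)) + Complex.exp (-(2 * (t * Complex.I))))) -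
        (n : ℂ) ^ 2 / 4) * g (t * Complex.I)) * Complex.I = 0 := by
    rw [intervalIntegral.integral_eq_sub_of_hasDerivAt
      (f := fun t : ℝ => hn (t * Complex.I)) (fun t _ => hasDerivAt_imag hn _ t (hD _)) ?_,
      hnper, sub_self]
    refine Continuous.intervalIntegrable ?_ _ _
    have hgc := hg.continuous
    fun_prop
  rw [intervalIntegral.integral_mul_const] at hint
  have hint2 := (mul_eq_zero.1 hint).resolve_right Complex.I_ne_zero
  have hi : ∀ m : ℤ, IntervalIntegrable (fun t : ℝ => Complex.exp (-(m * (t * Complex.I)) / 2) *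
      g (t * Complex.I)) volume 0 (4 * Real.pi) := by
    intro m
    refine Continuous.intervalIntegrable ?_ _ _
    have hgc := hg.continuous
    fun_prop
  have hsplit : ∀ t : ℝ, (Complex.exp (-(n * (t * Complex.I)) / 2) *
      (Lam - (α * Complex.exp (t * Complex.I) + β * Complex.exp (-(t * Complex.I)) +
      γ * (Complex.exp (2 * (t * Complex.I)) + Complex.exp (-(2 * (t * Complex.I))))) -
        (n : ℂ) ^ 2 / 4) * g (t * Complex.I)) =
      (Lam - (n : ℂ) ^ 2 / 4) * (Complex.exp (-(n * (t * Complex.I)) / 2) * g (t * Complex.I)) -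
      (α * (Complex.exp (-((n - 2 : ℤ) * (t * Complex.I)) / 2) * g (t * Complex.I)) +
       β * (Complex.exp (-((n + 2 : ℤ) * (t * Complex.I)) / 2) * g (t * Complex.I)) +
       γ * (Complex.exp (-((n - 4 : ℤ) * (t * Complex.I)) / 2) * g (t * Complex.I)) +
       γ * (Complex.exp (-((n + 4 : ℤ) * (t * Complex.I)) / 2) * g (t * Complex.I))) := by
    intro t
    have x1 : Complex.exp (-((n - 2 : ℤ) * (t * Complex.I)) / 2) =
        Complex.exp (-(n * (t * Complex.I)) / 2) * Complex.exp (t * Complex.I) := by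
      rw [← Complex.exp_add]; congr 1; push_cast; ring
    have x2 : Complex.exp (-((n + 2 : ℤ) * (t * Complex.I)) / 2) =
        Complex.exp (-(n * (t * Complex.I)) / 2) * Complex.exp (-(t * Complex.I)) := by
      rw [← Complex.exp_add]; congr 1; push_cast; ring
    have x3 : Complex.exp (-((n - 4 : ℤ) * (t * Complex.I)) / 2) =
        Complex.exp (-(n * (t * Complex.I)) / 2) * Complex.exp (2 * (t * Complex.I)) := by
      rw [← Complex.exp_add]; congr 1; push_cast; ring
    have x4 : Complex.exp (-((n + 4 : ℤ) * (t * Complex.I)) / 2) =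
        Complex.exp (-(n * (t * Complex.I)) / 2) * Complex.exp (-(2 * (t * Complex.I))) := by
      rw [← Complex.exp_add]; congr 1; push_cast; ring
    rw [x1, x2, x3, x4]
    ring
  simp only [hsplit] at hint2
  rw [intervalIntegral.integral_sub, intervalIntegral.integral_add, intervalIntegral.integral_add,
    intervalIntegral.integral_add, intervalIntegral.integral_const_mul,
    intervalIntegral.integral_const_mul, intervalIntegral.integral_const_mul,
    intervalIntegral.integral_const_mul, intervalIntegral.integral_const_mul] at hint2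
  · unfold cn
    linear_combination hint2
  · exact (hi _).const_mul _
  · exact (hi _).const_mul _
  · exact ((hi _).const_mul _).add ((hi _).const_mul _)
  · exact (hi _).const_mul _
  · exact (((hi _).const_mul _).add ((hi _).const_mul _)).add ((hi _).const_mul _)
  · exact (hi _).const_mul _
  · exact (hi _).const_mul _
  · exact ((((hi _).const_mul _).add ((hi _).const_mul _)).add ((hi _).const_mul _)).add
      ((hi _).const_mul _)

lemma norm_cn_le (g : ℂ → ℂ) (hg : Continuous g) : ∃ K : ℝ, 0 ≤ K ∧ ∀ n : ℤ, ‖cn g n‖ ≤ K := by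
  have hc : Continuous (fun t : ℝ => g (t * Complex.I)) := by fun_prop
  obtain ⟨M, hM⟩ := (isCompact_Icc (a := (0 : ℝ)) (b := 4 * Real.pi)).exists_bound_of_continuousOn
    hc.continuousOn
  refine ⟨|M| * |4 * Real.pi - 0|, by positivity, fun n => ?_⟩
  unfold cn
  refine intervalIntegral.norm_integral_le_of_norm_le_const ?_
  intro t ht
  rw [Set.uIoc_of_le (by positivity)] at ht
  rw [norm_mul]
  have h1 : ‖Complex.exp (-(n * (t * Complex.I)) / 2)‖ = 1 := by
    have : (-(n * (t * Complex.I)) / 2 : ℂ) = ((-(n * t) / 2 : ℝ) : ℂ) * Complex.I := by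
      push_cast
      ring
    rw [this]
    exact Complex.norm_exp_ofReal_mul_I _
  rw [h1, one_mul]
  exact (hM t ⟨ht.1.le, ht.2⟩).trans (le_abs_self M)

/-- abstract localisation: a `4πi`-periodic solution forces the spectral parameter near `n²/4` -/
theorem localize_abstract (g : ℂ → ℂ) (hg : Differentiable ℂ g) (Lam α β γ : ℂ)
    (hper : ∀ s, g (s + 4 * Real.pi * Complex.I) = g s)
    (hode : ∀ s, deriv (deriv g) s = (Lam - (α * Complex.exp s + β * Complex.exp (-s) +
      γ * (Complex.exp (2 * s) + Complex.exp (-(2 * s))))) * g s) (hne : g ≠ 0)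
    (q : ℝ) (hq : ‖α‖ + ‖β‖ + 2 * ‖γ‖ < q) : ∃ n : ℤ, ‖Lam - (n : ℂ) ^ 2 / 4‖ < q := by
  by_contra hcon
  push Not at hcon
  set q0 : ℝ := ‖α‖ + ‖β‖ + 2 * ‖γ‖ with hq0
  have hq00 : 0 ≤ q0 := by positivity
  have hqpos : 0 < q := hq00.trans_lt hq
  obtain ⟨K, hK0, hK⟩ := norm_cn_le g hg.continuous
  have hstep : ∀ k : ℕ, ∀ n : ℤ, ‖cn g n‖ ≤ (q0 / q) ^ k * K := by
    intro k
    induction k with
    | zero => intro n; simpa using hK n
    | succ k ih =>
      intro n
      have h1 := cn_recurrence g hg Lam α β γ hper hode n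
      have h2 : q * ‖cn g n‖ ≤ q0 * ((q0 / q) ^ k * K) := by
        calc q * ‖cn g n‖ ≤ ‖Lam - (n : ℂ) ^ 2 / 4‖ * ‖cn g n‖ :=
              mul_le_mul_of_nonneg_right (hcon n) (norm_nonneg _)
          _ = ‖α * cn g (n - 2) + β * cn g (n + 2) + γ * (cn g (n - 4) + cn g (n + 4))‖ := by
              rw [← norm_mul, h1]
          _ ≤ ‖α‖ * ‖cn g (n - 2)‖ + ‖β‖ * ‖cn g (n + 2)‖ +
              ‖γ‖ * (‖cn g (n - 4)‖ + ‖cn g (n + 4)‖) := by
              refine (norm_add_le _ _).trans (add_le_add ((norm_add_le _ _).trans ?_) ?_)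
              · rw [norm_mul, norm_mul]
              · rw [norm_mul]
                exact mul_le_mul_of_nonneg_left (norm_add_le _ _) (norm_nonneg _)
          _ ≤ ‖α‖ * ((q0 / q) ^ k * K) + ‖β‖ * ((q0 / q) ^ k * K) +
              ‖γ‖ * ((q0 / q) ^ k * K + (q0 / q) ^ k * K) := by
              gcongr
              · exact ih _
              · exact ih _
              · exact ih _
              · exact ih _
          _ = q0 * ((q0 / q) ^ k * K) := by rw [hq0]; ring
      have h3 : ‖cn g n‖ ≤ (q0 * ((q0 / q) ^ k * K)) / q := by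
        rw [le_div_iff₀ hqpos, mul_comm]
        exact h2
      refine h3.trans (le_of_eq ?_)
      rw [pow_succ]
      field_simp
  have hzero : ∀ n : ℤ, cn g n = 0 := by
    intro n
    have hlt : q0 / q < 1 := (div_lt_one hqpos).2 hq
    have hlim : Filter.Tendsto (fun k : ℕ => (q0 / q) ^ k * K) Filter.atTop (𝓝 (0 * K)) :=
      (tendsto_pow_atTop_nhds_zero_of_lt_one (by positivity) hlt).mul_const K
    rw [zero_mul] at hlim
    have h1 : ‖cn g n‖ ≤ 0 := ge_of_tendsto' hlim (fun k => hstep k n)
    exact norm_le_zero_iff.1 h1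
  have hw : ∀ t : ℝ, g (t * Complex.I) = 0 := by
    refine periodic_lift_eq_zero (fun t : ℝ => g (t * Complex.I)) ?_ ?_ ?_
    · have := hg.continuous
      fun_prop
    · intro t
      have : (((t + 4 * Real.pi : ℝ) : ℂ) * Complex.I) =
          (t : ℂ) * Complex.I + 4 * Real.pi * Complex.I := by
        push_cast
        ring
      change g (((t + 4 * Real.pi : ℝ) : ℂ) * Complex.I) = g (t * Complex.I)
      rw [this]
      exact hper _
    · exact hzero
  apply hne
  have han : AnalyticOnNhd ℂ g Set.univ := fun z _ => hg.analyticAt z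
  have hfreq : ∃ᶠ z in 𝓝[≠] (0 : ℂ), g z = (0 : ℂ → ℂ) z := by
    have hlim : Filter.Tendsto (fun n : ℕ => ((1 / ((n : ℝ) + 1) : ℝ) : ℂ) * Complex.I)
        Filter.atTop (𝓝[≠] 0) := by
      rw [tendsto_nhdsWithin_iff]
      constructor
      · have h1 : Filter.Tendsto (fun n : ℕ => (1 / ((n : ℝ) + 1) : ℝ)) Filter.atTop (𝓝 0) :=
          tendsto_one_div_add_atTop_nhds_zero_nat
        have h2 : Filter.Tendsto (fun n : ℕ => ((1 / ((n : ℝ) + 1) : ℝ) : ℂ)) Filter.atTop
            (𝓝 ((0 : ℝ) : ℂ)) := (Complex.continuous_ofReal.tendsto 0).comp h1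
        have h3 := h2.mul_const Complex.I
        simpa using h3
      · refine Filter.Eventually.of_forall (fun n => ?_)
        have : ((1 / ((n : ℝ) + 1) : ℝ) : ℂ) ≠ 0 := by
          exact_mod_cast (by positivity : (0 : ℝ) < 1 / ((n : ℝ) + 1)).ne'
        exact mul_ne_zero this Complex.I_ne_zero
    exact hlim.frequently (Filter.Frequently.of_forall (fun n => hw _))
  have h := han.eq_of_frequently_eq (g := (0 : ℂ → ℂ)) (fun z _ => analyticAt_const) hfreq
  exact h

/-- the bound for the potential -/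
def qq (l mu : ℂ) : ℝ := ‖mu‖ * (‖l‖ + 1) + ‖mu‖ ^ 2 / 2

/-- localisation for the double confluent Heun equation -/
theorem localize (l lam mu : ℂ) (h : FF l lam mu = 0) (q : ℝ) (hq : qq l mu < q) :
    ∃ n : ℤ, ‖(l ^ 2 / 4 - lam - mu ^ 2 / 2) - (n : ℂ) ^ 2 / 4‖ < q := by
  obtain ⟨c, f, hc, hf, hf0, hfp⟩ := exists_floquet l lam mu h
  have hf' := (isSol_iff _ _ _ _).1 (mem_Sol.1 hf)
  set e : ℂ → ℂ := fun s => Complex.exp (-(l * s + mu * (Complex.exp (-s) + Complex.exp s)) / 2)
    with he
  set g : ℂ → ℂ := fun s => e s * f s with hg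
  have hexpneg : ∀ s : ℂ, HasDerivAt (fun s : ℂ => Complex.exp (-s)) (Complex.exp (-s) * (-1)) s :=
    fun s => (Complex.hasDerivAt_exp (-s)).comp s (hasDerivAt_neg s)
  have hed : ∀ s, HasDerivAt e (-(c1 l mu s) / 2 * e s) s := by
    intro s
    have e2 : HasDerivAt (fun s : ℂ => l * s) l s := by
      simpa using (hasDerivAt_id s).const_mul l
    have e3 : HasDerivAt (fun s : ℂ => -(l * s + mu * (Complex.exp (-s) + Complex.exp s)) / 2)
        (-(l + mu * (Complex.exp (-s) * (-1) + Complex.exp s)) / 2) s :=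
      (e2.add (((hexpneg s).add (Complex.hasDerivAt_exp s)).const_mul mu)).neg.div_const 2
    refine e3.cexp.congr_deriv ?_
    rw [he]
    unfold c1
    ring
  have hc1d : ∀ s, HasDerivAt (c1 l mu) (mu * (Complex.exp (-s) + Complex.exp s)) s := by
    intro s
    have e1 := (((hexpneg s).sub (Complex.hasDerivAt_exp s)).const_mul mu).const_sub l
    refine e1.congr_deriv ?_
    ring
  have hgd : ∀ s, HasDerivAt g (e s * (deriv f s - c1 l mu s / 2 * f s)) s := by
    intro s
    refine ((hed s).mul (hf'.1 s).hasDerivAt).congr_deriv ?_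
    ring
  have hgdiff : Differentiable ℂ g := fun s => (hgd s).differentiableAt
  have hgderiv : deriv g = fun s => e s * (deriv f s - c1 l mu s / 2 * f s) :=
    funext fun s => (hgd s).deriv
  have hexp2 : ∀ s : ℂ, Complex.exp (2 * s) = Complex.exp s ^ 2 := by
    intro s
    rw [← Complex.exp_nat_mul]
    norm_num
  have hexp2' : ∀ s : ℂ, Complex.exp (-(2 * s)) = Complex.exp (-s) ^ 2 := by
    intro s
    rw [← Complex.exp_nat_mul]
    congr 1
    push_cast
    ring
  have hexpm : ∀ s : ℂ, Complex.exp (-s) * Complex.exp s = 1 := by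
    intro s
    rw [← Complex.exp_add]
    simp
  have hode : ∀ s, deriv (deriv g) s = ((l ^ 2 / 4 - lam - mu ^ 2 / 2) -
      ((mu * (l - 1) / 2) * Complex.exp s + (mu * (l + 1) / 2) * Complex.exp (-s) +
      (-(mu ^ 2) / 4) * (Complex.exp (2 * s) + Complex.exp (-(2 * s))))) * g s := by
    intro s
    have e1 : HasDerivAt (fun s => deriv f s - c1 l mu s / 2 * f s)
        (deriv (deriv f) s - (mu * (Complex.exp (-s) + Complex.exp s) / 2 * f s +
          c1 l mu s / 2 * deriv f s)) s :=
      (hf'.1.deriv s).hasDerivAt.sub (((hc1d s).div_const 2).mul (hf'.1 s).hasDerivAt)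
    have e2 := (hed s).mul e1
    rw [hgderiv]
    have e3 : deriv (fun s => e s * (deriv f s - c1 l mu s / 2 * f s)) s = _ := e2.deriv
    rw [e3, hf'.2 s, hexp2, hexp2']
    have hm := hexpm s
    rw [hg]
    unfold c0 c1
    linear_combination (-(mu ^ 2) / 2 * e s * f s) * hm
  have hper : ∀ s, g (s + 4 * Real.pi * Complex.I) = g s := by
    intro s
    have h1 : s + 4 * Real.pi * Complex.I = s + PP + PP := by
      unfold PP
      ring
    have h2 : f (s + 4 * Real.pi * Complex.I) = c ^ 2 * f s := by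
      rw [h1, hfp, hfp]
      ring
    have h3 : e (s + 4 * Real.pi * Complex.I) = Complex.exp (-(PP * l)) * e s := by
      rw [he]
      have x1 : Complex.exp (s + 4 * Real.pi * Complex.I) = Complex.exp s := by
        rw [h1]
        unfold PP
        rw [exp_add_two_pi, exp_add_two_pi]
      have x2 : Complex.exp (-(s + 4 * Real.pi * Complex.I)) = Complex.exp (-s) := by
        rw [Complex.exp_neg, x1, Complex.exp_neg]
      simp only [x1, x2]
      rw [← Complex.exp_add]
      congr 1
      unfold PP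
      ring
    have h4 : Complex.exp (-(PP * l)) * Complex.exp (PP * l) = 1 := by
      rw [← Complex.exp_add]
      simp
    rw [hg]
    simp only
    rw [h2, h3, hc]
    linear_combination (e s * f s) * h4
  have hne : g ≠ 0 := by
    intro h0
    apply hf0
    funext s
    have h1 : g s = 0 := congrFun h0 s
    rw [hg] at h1
    exact (mul_eq_zero.1 h1).resolve_left (Complex.exp_ne_zero _)
  refine localize_abstract g hgdiff _ (mu * (l - 1) / 2) (mu * (l + 1) / 2) (-(mu ^ 2) / 4) hper
    hode hne q (lt_of_le_of_lt ?_ hq)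
  unfold qq
  have y1 : ‖mu * (l - 1) / 2‖ ≤ ‖mu‖ * (‖l‖ + 1) / 2 := by
    rw [norm_div, norm_mul]
    have : ‖l - 1‖ ≤ ‖l‖ + 1 := by
      refine (norm_sub_le _ _).trans ?_
      simp
    have h2 : ‖(2 : ℂ)‖ = 2 := by simp
    rw [h2]
    gcongr
  have y2 : ‖mu * (l + 1) / 2‖ ≤ ‖mu‖ * (‖l‖ + 1) / 2 := by
    rw [norm_div, norm_mul]
    have : ‖l + 1‖ ≤ ‖l‖ + 1 := by
      refine (norm_add_le _ _).trans ?_
      simp
    have h2 : ‖(2 : ℂ)‖ = 2 := by simp
    rw [h2]
    gcongr
  have y3 : ‖-(mu ^ 2) / 4‖ = ‖mu‖ ^ 2 / 4 := by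
    rw [norm_div, norm_neg, norm_pow]
    have h2 : ‖(4 : ℂ)‖ = 4 := by simp
    rw [h2]
  rw [y3]
  linarith

end

end Pool.Agent.Lib_helper75.Heun
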