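import Pool.Agent.Lib_helper75.Heun.Defs

/-!
# The monodromy matrix and the entire function defining `SigmaTilde`
-/

namespace Pool.Agent.Lib_helper75.Heun

open Topology Polynomial

noncomputable section

/-- the period -/
def PP : ℂ := 2 * Real.pi * Complex.I

/-- basis of the space of solutions given by initial data -/
def solBasis (l lam mu : ℂ) : Module.Basis (Fin 2) ℂ (Sol l lam mu) :=
  Module.Basis.ofEquivFun (solEquiv l lam mu)

/-- the trace of the monodromy -/
def TT (l lam mu : ℂ) : ℂ := Y1 l lam mu 1 0 PP + Y2 l lam mu 0 1 PP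

/-- the function defining the locus -/
def FF (l lam mu : ℂ) : ℂ := TT l lam mu ^ 2 - 4 * Complex.exp (PP * l)

/-- the monodromy matrix -/
lemma toMatrix_eq (l lam mu : ℂ) :
    LinearMap.toMatrix (solBasis l lam mu) (solBasis l lam mu) (monodromy l lam mu) =
      !![Y1 l lam mu 1 0 PP, Y1 l lam mu 0 1 PP; Y2 l lam mu 1 0 PP, Y2 l lam mu 0 1 PP] := by
  have key : ∀ (j : Fin 2), (solBasis l lam mu j : ℂ → ℂ) =
      Y1 l lam mu ((Pi.single j (1 : ℂ) : Fin 2 → ℂ) 0) ((Pi.single j (1 : ℂ) : Fin 2 → ℂ) 1) := by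
    intro j
    unfold solBasis
    rw [Module.Basis.coe_ofEquivFun]
    rfl
  have hrepr : ∀ (f : Sol l lam mu) (i : Fin 2), (solBasis l lam mu).repr f i =
      (![f.1 0, deriv f.1 0] : Fin 2 → ℂ) i := by
    intro f i
    unfold solBasis
    rw [Module.Basis.ofEquivFun_repr_apply]
    rfl
  have hd : ∀ (a b : ℂ), deriv (fun s => Y1 l lam mu a b (s + 2 * Real.pi * Complex.I)) 0 =
      Y2 l lam mu a b PP := by
    intro a b
    rw [deriv_comp_add_const (Y1 l lam mu a b) _ 0, zero_add, deriv_Y1]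
    rfl
  ext i j
  rw [LinearMap.toMatrix_apply, hrepr]
  have hm : (monodromy l lam mu (solBasis l lam mu j)).1 =
      fun s => (solBasis l lam mu j : ℂ → ℂ) (s + 2 * Real.pi * Complex.I) := rfl
  rw [hm, key j]
  fin_cases i <;> fin_cases j <;> simp [hd, PP]

lemma wronskian (l lam mu : ℂ) :
    Y1 l lam mu 1 0 PP * Y2 l lam mu 0 1 PP - Y1 l lam mu 0 1 PP * Y2 l lam mu 1 0 PP =
      Complex.exp (PP * l) := by
  set W : ℂ → ℂ := fun s => Y1 l lam mu 1 0 s * Y2 l lam mu 0 1 s -
    Y1 l lam mu 0 1 s * Y2 l lam mu 1 0 s with hW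
  set E : ℂ → ℂ := fun s => Complex.exp (-(l * s + mu * (Complex.exp (-s) + Complex.exp s)))
    with hE
  have hWd : ∀ s, HasDerivAt W (c1 l mu s * W s) s := by
    intro s
    have e1 : ∀ a b, HasDerivAt (Y1 l lam mu a b) (Y2 l lam mu a b s) s := by
      intro a b
      rw [← deriv_Y1]
      exact (differentiable_Y1 l lam mu a b s).hasDerivAt
    have e2 : ∀ a b, HasDerivAt (Y2 l lam mu a b)
        (c0 l lam mu s * Y1 l lam mu a b s + c1 l mu s * Y2 l lam mu a b s) s := by
      intro a b
      rw [← deriv_Y2]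
      exact (differentiable_Y2 l lam mu a b s).hasDerivAt
    have e3 := ((e1 1 0).mul (e2 0 1)).sub ((e1 0 1).mul (e2 1 0))
    refine e3.congr_deriv ?_
    rw [hW]
    ring
  have hEd : ∀ s, HasDerivAt E (-(c1 l mu s) * E s) s := by
    intro s
    have e1 : HasDerivAt (fun s : ℂ => Complex.exp (-s)) (Complex.exp (-s) * (-1)) s :=
      (Complex.hasDerivAt_exp (-s)).comp s (hasDerivAt_neg s)
    have e2 : HasDerivAt (fun s : ℂ => l * s) l s := by
      simpa using (hasDerivAt_id s).const_mul l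
    have e3 : HasDerivAt (fun s : ℂ => -(l * s + mu * (Complex.exp (-s) + Complex.exp s)))
        (-(l + mu * (Complex.exp (-s) * (-1) + Complex.exp s))) s :=
      (e2.add ((e1.add (Complex.hasDerivAt_exp s)).const_mul mu)).neg
    have e4 := e3.cexp
    refine e4.congr_deriv ?_
    rw [hE]
    unfold c1
    ring
  have hG : ∀ s, HasDerivAt (fun s => W s * E s) 0 s := by
    intro s
    refine ((hWd s).mul (hEd s)).congr_deriv ?_
    ring
  have hconst : W PP * E PP = W 0 * E 0 := by
    have h1 : Differentiable ℂ (fun s => W s * E s) := fun s => (hG s).differentiableAt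
    exact is_const_of_deriv_eq_zero h1 (fun s => (hG s).deriv) PP 0
  have h0 : W 0 = 1 := by
    rw [hW]
    simp [Y1_zero, Y2_zero]
  have hexp : Complex.exp PP = 1 := Complex.exp_two_pi_mul_I
  have hexp' : Complex.exp (-PP) = 1 := by rw [Complex.exp_neg, hexp, inv_one]
  have hEP : E PP = Complex.exp (-(PP * l)) * E 0 := by
    rw [hE]
    simp only [hexp, hexp', neg_zero, Complex.exp_zero, mul_zero, zero_add]
    rw [← Complex.exp_add]
    congr 1
    ring
  have hE0 : E 0 ≠ 0 := Complex.exp_ne_zero _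
  rw [hEP, h0, one_mul] at hconst
  have h3 : W PP * Complex.exp (-(PP * l)) = 1 := by
    have : (W PP * Complex.exp (-(PP * l))) * E 0 = 1 * E 0 := by
      rw [mul_assoc, hconst, one_mul]
    exact mul_right_cancel₀ hE0 this
  have h4 : Complex.exp (-(PP * l)) * Complex.exp (PP * l) = 1 := by
    rw [← Complex.exp_add]
    simp
  calc W PP = W PP * (Complex.exp (-(PP * l)) * Complex.exp (PP * l)) := by rw [h4, mul_one]
    _ = (W PP * Complex.exp (-(PP * l))) * Complex.exp (PP * l) := by ring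
    _ = Complex.exp (PP * l) := by rw [h3, one_mul]

lemma charpoly_eq (l lam mu : ℂ) : LinearMap.charpoly (monodromy l lam mu) =
    X ^ 2 - C (TT l lam mu) * X + C (Complex.exp (PP * l)) := by
  rw [← LinearMap.charpoly_toMatrix (monodromy l lam mu) (solBasis l lam mu), toMatrix_eq,
    Matrix.charpoly_fin_two, Matrix.trace_fin_two_of, Matrix.det_fin_two_of, wronskian]
  rfl

lemma rootMultiplicity_iff (t d c : ℂ) :
    2 ≤ (X ^ 2 - C t * X + C d : ℂ[X]).rootMultiplicity c ↔ t = 2 * c ∧ d = c ^ 2 := by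
  set P : ℂ[X] := X ^ 2 - C t * X + C d with hP
  have hPeq : P = C 1 * X ^ 2 + C (-t) * X + C d := by
    rw [hP]
    simp
    ring
  have hPne : P ≠ 0 := by
    intro h
    have h1 : P.coeff 2 = 1 := by
      rw [hPeq]
      simp
    rw [h] at h1
    simp at h1
  have hPdeg : P.natDegree = 2 := by
    rw [hPeq]
    exact natDegree_quadratic one_ne_zero
  have hPmonic : P.Monic := by
    rw [Monic, leadingCoeff, hPdeg, hPeq]
    simp
  rw [le_rootMultiplicity_iff hPne]
  have hsq : ((X - C c) ^ 2 : ℂ[X]) = C 1 * X ^ 2 + C (-(2 * c)) * X + C (c ^ 2) := by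
    simp only [map_one, map_neg, map_mul, map_pow, C_ofNat]
    ring
  constructor
  · intro h
    have hm : ((X - C c) ^ 2 : ℂ[X]).Monic := (monic_X_sub_C c).pow 2
    have hd : ((X - C c) ^ 2 : ℂ[X]).natDegree = 2 := by
      rw [natDegree_pow, natDegree_X_sub_C, mul_one]
    have heq : (X - C c) ^ 2 = P := by
      refine Polynomial.eq_of_monic_of_associated hm hPmonic ?_
      refine associated_of_dvd_of_natDegree_le h hPne ?_
      rw [hd, hPdeg]
    rw [hsq, hPeq] at heq
    generalize c ^ 2 = d' at heq ⊢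
    have h1 := congrArg (fun p : ℂ[X] => p.coeff 1) heq
    have h0 := congrArg (fun p : ℂ[X] => p.coeff 0) heq
    simp [coeff_X, coeff_C] at h1 h0
    exact ⟨h1.symm, h0.symm⟩
  · rintro ⟨h1, h2⟩
    rw [hsq, hPeq, h1, h2]

/-- the locus is the zero set of the entire function `FF` -/
theorem mem_SigmaTilde_iff (l lam mu : ℂ) : (l, lam, mu) ∈ SigmaTilde ↔ FF l lam mu = 0 := by
  unfold SigmaTilde
  rw [Set.mem_ofPred_eq]
  simp only [charpoly_eq, rootMultiplicity_iff]
  unfold FF
  constructor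
  · rintro ⟨c, h1, h2⟩
    rw [h1, h2]
    ring
  · intro h
    refine ⟨TT l lam mu / 2, by ring, ?_⟩
    linear_combination (-1 / 4 : ℂ) * h

/-- on the locus there is a Floquet solution with the double eigenvalue -/
theorem exists_floquet (l lam mu : ℂ) (h : FF l lam mu = 0) : ∃ (c : ℂ) (f : ℂ → ℂ),
    c ^ 2 = Complex.exp (PP * l) ∧ f ∈ Sol l lam mu ∧ f ≠ 0 ∧ ∀ s, f (s + PP) = c * f s := by
  set c : ℂ := TT l lam mu / 2 with hc
  have hc2 : c ^ 2 = Complex.exp (PP * l) := by
    unfold FF at h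
    rw [hc]
    linear_combination (1 / 4 : ℂ) * h
  have hroot : (LinearMap.charpoly (monodromy l lam mu)).IsRoot c := by
    rw [charpoly_eq, IsRoot, eval_add, eval_sub, eval_mul, eval_pow, eval_X, eval_C, eval_C]
    have : TT l lam mu = 2 * c := by rw [hc]; ring
    rw [this, ← hc2]
    ring
  have hev := (Module.End.hasEigenvalue_iff_isRoot_charpoly (monodromy l lam mu) c).2 hroot
  obtain ⟨f, hf⟩ := hev.exists_hasEigenvector
  refine ⟨c, f.1, hc2, f.2, ?_, ?_⟩
  · intro h0
    exact hf.2 (Subtype.ext h0)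
  · intro s
    have h1 := hf.apply_eq_smul
    have h2 := congrArg (fun g : Sol l lam mu => g.1 s) h1
    exact h2

/-- conversely a Floquet solution with `c ^ 2 = exp (2πi l)` forces a double eigenvalue -/
theorem FF_eq_zero_of_floquet (l lam mu c : ℂ) (f : ℂ → ℂ) (hc : c ^ 2 = Complex.exp (PP * l))
    (hf : f ∈ Sol l lam mu) (hf0 : f ≠ 0) (h : ∀ s, f (s + PP) = c * f s) : FF l lam mu = 0 := by
  have hev : Module.End.HasEigenvector (monodromy l lam mu) c ⟨f, hf⟩ := by
    rw [Module.End.hasEigenvector_iff, Module.End.mem_eigenspace_iff]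
    refine ⟨Subtype.ext (funext fun s => h s), ?_⟩
    intro h0
    exact hf0 (congrArg Subtype.val h0)
  have hroot := (Module.End.hasEigenvalue_iff_isRoot_charpoly (monodromy l lam mu) c).1
    (Module.End.hasEigenvalue_of_hasEigenvector hev)
  rw [charpoly_eq, IsRoot, eval_add, eval_sub, eval_mul, eval_pow, eval_X, eval_C, eval_C, ← hc]
    at hroot
  have hcne : c ≠ 0 := by
    intro h0
    rw [h0] at hc
    have := Complex.exp_ne_zero (PP * l)
    rw [← hc] at this
    simp at this
  have h1 : (2 * c - TT l lam mu) * c = 0 := by linear_combination hroot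
  have h2 : 2 * c - TT l lam mu = 0 := by
    rcases mul_eq_zero.1 h1 with h | h
    · exact h
    · exact absurd h hcne
  unfold FF
  rw [← hc]
  linear_combination (-2 * c - TT l lam mu) * h2

/-- joint analyticity -/
theorem analyticAt_FF {E : Type*} [NormedAddCommGroup E] [NormedSpace ℂ E] {l lam mu : E → ℂ}
    {e : E} (hl : AnalyticAt ℂ l e) (hlam : AnalyticAt ℂ lam e) (hmu : AnalyticAt ℂ mu e) :
    AnalyticAt ℂ (fun x => FF (l x) (lam x) (mu x)) e := by
  unfold FF TT
  have h1 := analyticAt_Y1 1 0 hl hlam hmu (analyticAt_const (v := PP))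
  have h2 := analyticAt_Y2 0 1 hl hlam hmu (analyticAt_const (v := PP))
  exact ((h1.add h2).pow 2).sub (analyticAt_const.mul ((analyticAt_const.mul hl).cexp))

end

end Pool.Agent.Lib_helper75.Heun
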