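import Pool.Agent.Lib_helper75.Heun.Coord

/-!
# The case `mu = 0` and the capacity of the small discs
-/

namespace Pool.Agent.Lib_helper75.Heun

open Topology MeasureTheory Metric Filter ComplexConjugate

noncomputable section

lemma TT_mu_zero (l κ : ℂ) (hκ : κ ≠ 0) : TT l (l ^ 2 / 4 - κ ^ 2) 0 =
    Complex.exp ((l / 2 + κ) * PP) + Complex.exp ((l / 2 - κ) * PP) := by
  set a : ℂ := l / 2 + κ with ha
  set b : ℂ := l / 2 - κ with hb
  have hE : ∀ x s : ℂ, HasDerivAt (fun s : ℂ => Complex.exp (x * s)) (x * Complex.exp (x * s)) s := by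
    intro x s
    have e0 : HasDerivAt (fun s : ℂ => x * s) x s := by
      simpa using (hasDerivAt_id s).const_mul x
    refine e0.cexp.congr_deriv ?_
    ring
  have hab : a - b = 2 * κ := by rw [ha, hb]; ring
  have h2 : (2 * κ : ℂ) ≠ 0 := mul_ne_zero two_ne_zero hκ
  have key : ∀ A B : ℂ, ∀ s,
      A * Complex.exp (a * s) + B * Complex.exp (b * s) =
        Y1 l (l ^ 2 / 4 - κ ^ 2) 0 (A + B) (A * a + B * b) s ∧
      A * (a * Complex.exp (a * s)) + B * (b * Complex.exp (b * s)) =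
        Y2 l (l ^ 2 / 4 - κ ^ 2) 0 (A + B) (A * a + B * b) s := by
    intro A B s
    have := eq_Y1 l (l ^ 2 / 4 - κ ^ 2) 0
      (fun s => A * Complex.exp (a * s) + B * Complex.exp (b * s))
      (fun s => A * (a * Complex.exp (a * s)) + B * (b * Complex.exp (b * s)))
      (fun s => ((hE a s).const_mul A).add ((hE b s).const_mul B))
      (fun s => by
        refine ((((hE a s).const_mul a).const_mul A).add
          (((hE b s).const_mul b).const_mul B)).congr_deriv ?_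
        unfold c0 c1
        rw [ha, hb]
        ring) s
    simp only [mul_zero, Complex.exp_zero, mul_one] at this
    exact this
  have h10 := (key (-(b / (2 * κ))) (a / (2 * κ)) PP).1
  have h01 := (key (1 / (2 * κ)) (-(1 / (2 * κ))) PP).2
  have x1 : -(b / (2 * κ)) + a / (2 * κ) = 1 := by
    field_simp
    rw [ha, hb]
    ring
  have x2 : -(b / (2 * κ)) * a + a / (2 * κ) * b = 0 := by ring
  have x3 : 1 / (2 * κ) + -(1 / (2 * κ)) = 0 := by ring
  have x4 : 1 / (2 * κ) * a + -(1 / (2 * κ)) * b = 1 := by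
    field_simp
    rw [ha, hb]
    ring
  rw [x1, x2] at h10
  rw [x3, x4] at h01
  unfold TT
  rw [← h10, ← h01]
  have hκ2 : κ = (a - b) / 2 := by rw [hab]; ring
  field_simp
  rw [hκ2]
  ring

lemma Phi_mu_zero_aux (l κ : ℂ) (hκ : κ ≠ 0) : Phi l 0 (κ ^ 2) =
    -4 * Complex.exp (PP * l) * Complex.sin (2 * Real.pi * κ) ^ 2 := by
  unfold Phi FF
  have h0 : l ^ 2 / 4 - (0 : ℂ) ^ 2 / 2 - κ ^ 2 = l ^ 2 / 4 - κ ^ 2 := by ring
  rw [h0, TT_mu_zero l κ hκ]
  set E : ℂ := Complex.exp (l / 2 * PP) with hE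
  set u : ℂ := Complex.exp (κ * PP) with hu
  set v : ℂ := Complex.exp (-(κ * PP)) with hv
  have h1 : Complex.exp ((l / 2 + κ) * PP) = E * u := by
    rw [hE, hu, ← Complex.exp_add]; congr 1; ring
  have h2 : Complex.exp ((l / 2 - κ) * PP) = E * v := by
    rw [hE, hv, ← Complex.exp_add]; congr 1; ring
  have h3 : Complex.exp (PP * l) = E ^ 2 := by
    rw [hE, ← Complex.exp_nat_mul]; congr 1; push_cast; ring
  have h4 : u * v = 1 := by
    rw [hu, hv, ← Complex.exp_add]; simp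
  have h5 : Complex.sin (2 * Real.pi * κ) = (v - u) * Complex.I / 2 := by
    rw [Complex.sin]
    have e1 : -(2 * Real.pi * κ) * Complex.I = -(κ * PP) := by unfold PP; ring
    have e2 : (2 * Real.pi * κ) * Complex.I = κ * PP := by unfold PP; ring
    rw [e1, e2]
  rw [h1, h2, h3, h5]
  have hI : Complex.I ^ 2 = -1 := Complex.I_sq
  linear_combination (4 * E ^ 2) * h4 + (E ^ 2 * (v - u) ^ 2) * hI

lemma continuous_Phi_zero (l : ℂ) : Continuous (fun z => Phi l 0 z) := by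
  rw [continuous_iff_continuousAt]
  intro z
  exact (analyticAt_slice (analyticAt_Phi_mu l (0, z))).continuousAt

lemma Phi_mu_zero (l κ : ℂ) : Phi l 0 (κ ^ 2) =
    -4 * Complex.exp (PP * l) * Complex.sin (2 * Real.pi * κ) ^ 2 := by
  have h : (fun κ : ℂ => Phi l 0 (κ ^ 2)) =
      fun κ => -4 * Complex.exp (PP * l) * Complex.sin (2 * Real.pi * κ) ^ 2 := by
    refine Continuous.ext_on (dense_compl_singleton (0 : ℂ)) ?_ ?_ ?_
    · exact (continuous_Phi_zero l).comp (continuous_pow 2)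
    · fun_prop
    · intro κ hκ
      exact Phi_mu_zero_aux l κ hκ
  exact congrFun h κ

lemma eq_of_zero_mu_zero (l : ℂ) (n : ℕ) (z : ℂ)
    (hz : z ∈ closedBall ((n : ℂ) ^ 2 / 4) (1 / 16 : ℝ)) (h0 : Phi l 0 z = 0) :
    z = (n : ℂ) ^ 2 / 4 := by
  by_contra hne
  have hpos : 0 < ‖z - (n : ℂ) ^ 2 / 4‖ := norm_pos_iff.2 (sub_ne_zero.2 hne)
  have hq0 : qq l 0 = 0 := by unfold qq; simp
  set d := ‖z - (n : ℂ) ^ 2 / 4‖ with hd
  have hd16 : d ≤ 1 / 16 := by
    rw [mem_closedBall_iff_norm] at hz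
    exact hz
  obtain ⟨m, hm⟩ := Phi_localize_nat l 0 z h0 d (by rw [hq0]; exact hpos)
  have h1 : ‖((n : ℂ) ^ 2 / 4 - (m : ℂ) ^ 2 / 4)‖ < 1 / 8 := by
    calc ‖((n : ℂ) ^ 2 / 4 - (m : ℂ) ^ 2 / 4)‖
        = ‖(z - (m : ℂ) ^ 2 / 4) - (z - (n : ℂ) ^ 2 / 4)‖ := by congr 1; ring
      _ ≤ ‖z - (m : ℂ) ^ 2 / 4‖ + ‖z - (n : ℂ) ^ 2 / 4‖ := norm_sub_le _ _
      _ < 1 / 8 := by linarith
  have h2 : ((n : ℂ) ^ 2 / 4 - (m : ℂ) ^ 2 / 4) =
      ((((n : ℤ) ^ 2 - (m : ℤ) ^ 2 : ℤ) : ℝ) / 4 : ℝ) := by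
    push_cast
    ring
  rw [h2, Complex.norm_real, Real.norm_eq_abs, abs_div] at h1
  have h3 : |(((n : ℤ) ^ 2 - (m : ℤ) ^ 2 : ℤ) : ℝ)| < 1 := by
    rw [abs_of_pos (by norm_num : (0 : ℝ) < 4)] at h1
    linarith
  have h4 : ((n : ℤ) ^ 2 - (m : ℤ) ^ 2 : ℤ) = 0 := by
    have h5 : |((n : ℤ) ^ 2 - (m : ℤ) ^ 2 : ℤ)| < 1 := by exact_mod_cast h3
    exact Int.abs_lt_one_iff.1 h5
  have h6 : (n : ℂ) ^ 2 = (m : ℂ) ^ 2 := by
    have : (n : ℤ) ^ 2 = (m : ℤ) ^ 2 := by linarith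
    exact_mod_cast this
  rw [← h6] at hm
  exact lt_irrefl _ hm

/-- the capacity at `mu = 0` -/
lemma capacity_zero (l : ℂ) (n : ℕ) (s : Multiset ℂ)
    (hs : IsZeros (fun w => Phi l 0 w) ((n : ℂ) ^ 2 / 4) (1 / 16) s) :
    Multiset.card s ≤ 2 ∧ (n = 0 → Multiset.card s ≤ 1) := by
  set z0 : ℂ := (n : ℂ) ^ 2 / 4 with hz0
  set m := Multiset.card s with hm
  have hrep : s = Multiset.replicate m z0 := by
    rw [Multiset.eq_replicate]
    refine ⟨rfl, fun a ha => ?_⟩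
    have haB := ball_subset_closedBall (hs.1 a ha)
    exact eq_of_zero_mu_zero l n a haB ((hs.zero_iff haB).2 ha)
  obtain ⟨_, u, hu, hu0, hfac⟩ := hs
  have hz0mem : z0 ∈ closedBall z0 (1 / 16 : ℝ) := mem_closedBall_self (by norm_num)
  have hfz := hfac z0 hz0mem
  rw [hrep] at hfz
  simp only [Multiset.map_replicate, Multiset.prod_replicate] at hfz
  set κ0 : ℂ := (n : ℂ) / 2 with hκ0
  have hκz : κ0 ^ 2 = z0 := by rw [hκ0, hz0]; ring
  have hsq : Tendsto (fun κ : ℂ => κ ^ 2) (𝓝 κ0) (𝓝 z0) := by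
    have := (continuous_pow 2 : Continuous (fun κ : ℂ => κ ^ 2)).tendsto κ0
    rwa [hκz] at this
  have hev : (fun κ : ℂ => -4 * Complex.exp (PP * l) * Complex.sin (2 * Real.pi * κ) ^ 2) =ᶠ[𝓝 κ0]
      fun κ => (κ ^ 2 - z0) ^ m * u (κ ^ 2) := by
    filter_upwards [hsq.eventually hfz] with κ hκ
    rw [← Phi_mu_zero, hκ]
  -- the order of the left side
  have hsin : analyticOrderAt (fun κ : ℂ => Complex.sin (2 * Real.pi * κ)) κ0 = 1 := by
    refine AnalyticAt.analyticOrderAt_eq_one_of_zero_deriv_ne_zero ?_ ?_ ?_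
    · fun_prop
    · have : (2 * Real.pi * κ0 : ℂ) = (n : ℕ) * Real.pi := by rw [hκ0]; ring
      rw [this]
      exact Complex.sin_nat_mul_pi n
    · have e0 : HasDerivAt (fun κ : ℂ => 2 * Real.pi * κ) (2 * Real.pi) κ0 := by
        simpa using (hasDerivAt_id κ0).const_mul (2 * Real.pi : ℂ)
      rw [e0.csin.deriv]
      have h1 : Complex.cos (2 * Real.pi * κ0) ≠ 0 := by
        intro h
        have h2 := Complex.sin_sq_add_cos_sq (2 * Real.pi * κ0)
        have h3 : (2 * Real.pi * κ0 : ℂ) = (n : ℕ) * Real.pi := by rw [hκ0]; ring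
        rw [h, h3, Complex.sin_nat_mul_pi n] at h2
        simp at h2
      exact mul_ne_zero h1 (by
        have : (Real.pi : ℂ) ≠ 0 := by exact_mod_cast Real.pi_ne_zero
        exact mul_ne_zero two_ne_zero this)
  have hL : analyticOrderAt
      (fun κ : ℂ => -4 * Complex.exp (PP * l) * Complex.sin (2 * Real.pi * κ) ^ 2) κ0 = 2 := by
    have a1 : AnalyticAt ℂ (fun _ : ℂ => -4 * Complex.exp (PP * l)) κ0 := analyticAt_const
    have a2 : AnalyticAt ℂ (fun κ : ℂ => Complex.sin (2 * Real.pi * κ)) κ0 := by fun_prop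
    have e1 : analyticOrderAt (fun _ : ℂ => -4 * Complex.exp (PP * l)) κ0 = 0 := by
      rw [a1.analyticOrderAt_eq_zero]
      exact mul_ne_zero (by norm_num) (Complex.exp_ne_zero _)
    have e2 : analyticOrderAt ((fun κ : ℂ => Complex.sin (2 * Real.pi * κ)) ^ 2) κ0 = 2 := by
      rw [analyticOrderAt_pow a2, hsin]
      norm_num
    have e3 := analyticOrderAt_mul a1 (a2.pow 2)
    rw [e1, e2, zero_add] at e3
    exact e3
  -- the order of the right side
  have hcomp : AnalyticAt ℂ (fun κ : ℂ => u (κ ^ 2)) κ0 := by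
    have : AnalyticAt ℂ u (κ0 ^ 2) := by
      rw [hκz]
      exact hu z0 hz0mem
    exact AnalyticAt.fun_comp (g := u) (f := fun κ : ℂ => κ ^ 2) this (by fun_prop)
  have hq : AnalyticAt ℂ (fun κ : ℂ => κ ^ 2 - z0) κ0 := by fun_prop
  have hR : analyticOrderAt (fun κ : ℂ => (κ ^ 2 - z0) ^ m * u (κ ^ 2)) κ0 =
      m • analyticOrderAt (fun κ : ℂ => κ ^ 2 - z0) κ0 +
        analyticOrderAt (fun κ : ℂ => u (κ ^ 2)) κ0 := by
    have e3 := analyticOrderAt_mul (hq.pow m) hcomp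
    rw [analyticOrderAt_pow hq] at e3
    exact e3
  rw [analyticOrderAt_congr hev, hR] at hL
  have hbase : 1 ≤ analyticOrderAt (fun κ : ℂ => κ ^ 2 - z0) κ0 := by
    rw [Order.one_le_iff_ne_zero, hq.analyticOrderAt_ne_zero]
    rw [hκz, sub_self]
  have hle1 : (m : ℕ∞) ≤ 2 := by
    calc (m : ℕ∞) = m • 1 := by simp
      _ ≤ m • analyticOrderAt (fun κ : ℂ => κ ^ 2 - z0) κ0 := by
          exact nsmul_le_nsmul_right hbase m
      _ ≤ _ := le_self_add
      _ = 2 := hL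
  refine ⟨by exact_mod_cast hle1, fun hn => ?_⟩
  have hz00 : z0 = 0 := by rw [hz0, hn]; simp
  have hκ00 : κ0 = 0 := by rw [hκ0, hn]; simp
  have hbase2 : analyticOrderAt (fun κ : ℂ => κ ^ 2 - z0) κ0 = 2 := by
    have e1 : (fun κ : ℂ => κ ^ 2 - z0) = (fun κ : ℂ => κ) ^ 2 := by
      funext κ
      simp [hz00]
    rw [e1, analyticOrderAt_pow (by fun_prop)]
    have e2 : analyticOrderAt (fun κ : ℂ => κ) κ0 = 1 := by
      refine AnalyticAt.analyticOrderAt_eq_one_of_zero_deriv_ne_zero (by fun_prop) hκ00 ?_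
      simp
    rw [e2]
    norm_num
  rw [hbase2] at hL
  have hle2 : ((m * 2 : ℕ) : ℕ∞) ≤ 2 := by
    calc ((m * 2 : ℕ) : ℕ∞) = m • 2 := by push_cast; simp
      _ ≤ _ := le_self_add
      _ = 2 := hL
  have h3 : m * 2 ≤ 2 := by exact_mod_cast hle2
  omega

/-- the capacity of the small discs for small `mu` -/
lemma capacity (l : ℂ) (n : ℕ) : ∀ᶠ mu : ℂ in 𝓝 0, ∃ s,
    IsZeros (fun w => Phi l mu w) ((n : ℂ) ^ 2 / 4) (1 / 16) s ∧
      Multiset.card s ≤ 2 ∧ (n = 0 → Multiset.card s ≤ 1) := by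
  have hq0 : qq l 0 < 1 / 16 := by unfold qq; simp
  obtain ⟨s0, hs0⟩ := exists_isZeros (f := fun w => Phi l 0 w) (c := (n : ℂ) ^ 2 / 4)
    (R := 1 / 16) (by norm_num) (fun z _ => analyticAt_slice (analyticAt_Phi_mu l (0, z)))
    (small_sphere_free l 0 n hq0)
  have h1 := card_locally_constant (fun q : ℂ × ℂ => Phi l q.1 q.2) 0 ((n : ℂ) ^ 2 / 4)
    (R := 1 / 16) (by norm_num) (fun z _ => analyticAt_Phi_mu l (0, z))
    (small_sphere_free l 0 n hq0) s0 hs0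
  filter_upwards [h1] with mu hmu
  obtain ⟨s, hs, hcard⟩ := hmu
  refine ⟨s, hs, ?_⟩
  rw [hcard]
  exact capacity_zero l n s0 hs0

end

end Pool.Agent.Lib_helper75.Heun
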