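import Pool.Agent.Lib_helper75.Heun.Volterra

/-!
# Entire solutions of the (lifted) special double confluent Heun equation

We solve `f'' = c0 f + c1 f'` with `c0 = -(lam + mu (l-1) e^s)`, `c1 = l - mu (e^{-s} - e^s)`, on the
whole complex plane, with joint analyticity in the parameters and the variable.
-/

namespace Pool.Agent.Lib_helper75.Heun

open MeasureTheory Set unitInterval Topology

noncomputable section

/-- coefficient of `f` -/
def c0 (l lam mu s : ℂ) : ℂ := -(lam + mu * (l - 1) * Complex.exp s)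

/-- coefficient of `f'` -/
def c1 (l mu s : ℂ) : ℂ := l - mu * (Complex.exp (-s) - Complex.exp s)

/-- the inclusion `[0,1] → ℂ` -/
def theta : CI := mkCI ⟨fun t => ((t : ℝ) : ℂ), by fun_prop⟩

lemma theta_apply (t : I) : theta t = ((t : ℝ) : ℂ) := rfl

/-- evaluation at a point as a continuous linear map -/
def ev (t : I) : CI →L[ℂ] ℂ :=
  LinearMap.mkContinuous
    { toFun := fun u => u t
      map_add' := fun _ _ => rfl
      map_smul' := fun _ _ => rfl } 1 (by
        intro u
        rw [one_mul]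
        exact CI.norm_coe_le_norm u t)

lemma ev_apply (t : I) (u : CI) : ev t u = u t := rfl

/-- `τ ↦ e^{s τ}` -/
def Es (s : ℂ) : CI := NormedSpace.exp (s • theta)

lemma CI.pow_apply (u : CI) (n : ℕ) (t : I) : (u ^ n) t = (u t) ^ n := by
  induction n with
  | zero => rw [pow_zero, pow_zero, CI.one_apply]
  | succ n ih => rw [pow_succ, pow_succ, CI.mul_apply, ih]

lemma Es_apply (s : ℂ) (t : I) : Es s t = Complex.exp (s * t) := by
  have h1 : HasSum (fun n : ℕ => ((n.factorial : ℂ)⁻¹) • (s • theta) ^ n)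
      (NormedSpace.exp (s • theta)) := NormedSpace.exp_series_hasSum_exp' (𝕂 := ℂ) (s • theta)
  have h2 := h1.mapL (ev t)
  have h3 : HasSum (fun n : ℕ => ((n.factorial : ℂ)⁻¹) • (s * t) ^ n)
      (NormedSpace.exp (s * t)) := NormedSpace.exp_series_hasSum_exp' (𝕂 := ℂ) (s * (t : ℂ))
  rw [← Complex.exp_eq_exp_ℂ] at h3
  refine HasSum.unique h2 ?_
  convert h3 using 2 with n
  rw [ev_apply, CI.smul_apply, CI.pow_apply, CI.smul_apply, theta_apply, smul_eq_mul]

/-- the coefficients along a ray -/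
def ray (l lam mu s : ℂ) : CI × CI :=
  (-(lam • (1 : CI) + (mu * (l - 1)) • Es s), l • (1 : CI) - mu • (Es (-s) - Es s))

lemma ray_fst_apply (l lam mu s : ℂ) (t : I) : (ray l lam mu s).1 t = c0 l lam mu (s * t) := by
  simp only [ray, CI.neg_apply, CI.add_apply, CI.smul_apply, CI.one_apply, Es_apply, c0, mul_one]

lemma ray_snd_apply (l lam mu s : ℂ) (t : I) : (ray l lam mu s).2 t = c1 l mu (s * t) := by
  simp only [ray, CI.sub_apply, CI.smul_apply, CI.one_apply, Es_apply, c1, mul_one, neg_mul]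

/-- constants as an element of the state space -/
def cst (a b : ℂ) : XX := (a • (1 : CI), b • (1 : CI))

/-- the solution along the ray -/
def raySol (l lam mu a b s : ℂ) : XX := RR s (ray l lam mu s) (cst a b)

/-- the value of the solution with initial data `(a, b)` at `0` -/
def Y1 (l lam mu a b s : ℂ) : ℂ := (raySol l lam mu a b s).1 1

/-- the value of the derivative of the solution with initial data `(a, b)` at `0` -/
def Y2 (l lam mu a b s : ℂ) : ℂ := (raySol l lam mu a b s).2 1

section analytic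

variable {E : Type*} [NormedAddCommGroup E] [NormedSpace ℂ E]
  {l lam mu s : E → ℂ} {e : E}

lemma analyticAt_Es (hs : AnalyticAt ℂ s e) : AnalyticAt ℂ (fun x => Es (s x)) e := by
  have h1 : AnalyticAt ℂ (fun x => s x • theta) e := hs.smul analyticAt_const
  have h2 : AnalyticAt ℂ (NormedSpace.exp : CI → CI) (s e • theta) :=
    NormedSpace.exp_analytic (𝕂 := ℂ) (𝔸 := CI) _
  exact AnalyticAt.comp (g := (NormedSpace.exp : CI → CI)) (f := fun x => s x • theta) h2 h1

lemma analyticAt_ray (hl : AnalyticAt ℂ l e) (hlam : AnalyticAt ℂ lam e)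
    (hmu : AnalyticAt ℂ mu e) (hs : AnalyticAt ℂ s e) :
    AnalyticAt ℂ (fun x => ray (l x) (lam x) (mu x) (s x)) e := by
  have h1 := analyticAt_Es hs
  have h2 := analyticAt_Es (s := fun x => - s x) hs.neg
  have hone : AnalyticAt ℂ (fun _ : E => (1 : CI)) e := analyticAt_const
  refine AnalyticAt.prod ?_ ?_
  · exact ((hlam.smul hone).add ((hmu.mul (hl.sub analyticAt_const)).smul h1)).neg
  · exact (hl.smul hone).sub (hmu.smul (h2.sub h1))

lemma analyticAt_raySol (a b : ℂ) (hl : AnalyticAt ℂ l e) (hlam : AnalyticAt ℂ lam e)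
    (hmu : AnalyticAt ℂ mu e) (hs : AnalyticAt ℂ s e) :
    AnalyticAt ℂ (fun x => raySol (l x) (lam x) (mu x) a b (s x)) e := by
  have h := analyticAt_RR hs (analyticAt_ray hl hlam hmu hs)
  exact AnalyticAt.fun_comp ((ContinuousLinearMap.apply ℂ XX (cst a b)).analyticAt _) h

lemma analyticAt_Y1 (a b : ℂ) (hl : AnalyticAt ℂ l e) (hlam : AnalyticAt ℂ lam e)
    (hmu : AnalyticAt ℂ mu e) (hs : AnalyticAt ℂ s e) :
    AnalyticAt ℂ (fun x => Y1 (l x) (lam x) (mu x) a b (s x)) e :=
  AnalyticAt.fun_comp (((ev 1).comp (ContinuousLinearMap.fst ℂ CI CI)).analyticAt _)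
    (analyticAt_raySol a b hl hlam hmu hs)

lemma analyticAt_Y2 (a b : ℂ) (hl : AnalyticAt ℂ l e) (hlam : AnalyticAt ℂ lam e)
    (hmu : AnalyticAt ℂ mu e) (hs : AnalyticAt ℂ s e) :
    AnalyticAt ℂ (fun x => Y2 (l x) (lam x) (mu x) a b (s x)) e :=
  AnalyticAt.fun_comp (((ev 1).comp (ContinuousLinearMap.snd ℂ CI CI)).analyticAt _)
    (analyticAt_raySol a b hl hlam hmu hs)

end analytic

/-! ### the fixed point equations -/

lemma raySol_eq (l lam mu a b s : ℂ) :
    raySol l lam mu a b s = cst a b + s • VV (ray l lam mu s) (raySol l lam mu a b s) :=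
  RR_fixed _ _ _

lemma raySol_fst (l lam mu a b s : ℂ) (t : I) :
    (raySol l lam mu a b s).1 t = a + s * volt (raySol l lam mu a b s).2 t := by
  have h := congrArg (fun x : XX => x.1 t) (raySol_eq l lam mu a b s)
  simp only [VV_apply] at h
  rw [h]
  simp only [cst, Prod.fst_add, Prod.smul_fst, CI.add_apply, CI.smul_apply, CI.one_apply, mul_one]

lemma raySol_snd (l lam mu a b s : ℂ) (t : I) :
    (raySol l lam mu a b s).2 t = b + s * volt ((ray l lam mu s).1 * (raySol l lam mu a b s).1 +
      (ray l lam mu s).2 * (raySol l lam mu a b s).2) t := by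
  have h := congrArg (fun x : XX => x.2 t) (raySol_eq l lam mu a b s)
  simp only [VV_apply] at h
  rw [h]
  simp only [cst, Prod.snd_add, Prod.smul_snd, CI.add_apply, CI.smul_apply, CI.one_apply, mul_one]

/-- uniqueness for the fixed point equations -/
lemma raySol_unique (l lam mu a b s : ℂ) (u v : CI)
    (h1 : ∀ t : I, u t = a + s * volt v t)
    (h2 : ∀ t : I, v t = b + s * volt ((ray l lam mu s).1 * u + (ray l lam mu s).2 * v) t) :
    (u, v) = raySol l lam mu a b s := by
  refine RR_unique _ _ _ _ ?_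
  rw [VV_apply]
  refine Prod.ext (CI.ext fun t => ?_) (CI.ext fun t => ?_)
  · simp only [cst, Prod.fst_add, Prod.smul_fst, CI.add_apply, CI.smul_apply, CI.one_apply,
      mul_one]
    exact h1 t
  · simp only [cst, Prod.snd_add, Prod.smul_snd, CI.add_apply, CI.smul_apply, CI.one_apply,
      mul_one]
    exact h2 t

/-- precomposition with multiplication by `τ` -/
def scale (τ : I) (u : CI) : CI :=
  mkCI ⟨fun x => u (τ * x), (CI.continuous u).comp (by fun_prop)⟩

lemma scale_apply (τ : I) (u : CI) (x : I) : scale τ u x = u (τ * x) := rfl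

lemma volt_scale (w w' : CI) (τ : I) (h : ∀ x : I, w' x = w (τ * x)) (σ' : I) :
    volt w (τ * σ') = ((τ : ℝ) : ℂ) * volt w' σ' := by
  rw [volt_apply, volt_apply]
  have h1 : (((τ * σ' : I) : ℝ)) = (τ : ℝ) * (σ' : ℝ) := rfl
  have h2 := intervalIntegral.smul_integral_comp_mul_left (a := (0 : ℝ)) (b := (σ' : ℝ))
    (ext w) (τ : ℝ)
  rw [mul_zero] at h2
  rw [h1, ← h2, Complex.real_smul]
  congr 1
  refine intervalIntegral.integral_congr (fun x hx => ?_)
  rw [Set.uIcc_of_le σ'.2.1] at hx
  have hx1 : x ∈ I := ⟨hx.1, hx.2.trans σ'.2.2⟩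
  have hx2 : (τ : ℝ) * x ∈ I := ⟨mul_nonneg τ.2.1 hx.1,
    mul_le_one₀ τ.2.2 hx.1 hx1.2⟩
  change ext w ((τ : ℝ) * x) = ext w' x
  rw [ext_of_mem w hx2, ext_of_mem w' hx1, h]
  rfl

/-- the scaling property -/
lemma raySol_scale (l lam mu a b s : ℂ) (τ : I) :
    (scale τ (raySol l lam mu a b s).1, scale τ (raySol l lam mu a b s).2) =
      raySol l lam mu a b (s * τ) := by
  refine raySol_unique _ _ _ _ _ _ _ _ (fun t => ?_) (fun t => ?_)
  · rw [scale_apply, raySol_fst, volt_scale _ (scale τ (raySol l lam mu a b s).2) τ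
      (fun x => rfl) t]
    ring
  · rw [scale_apply, raySol_snd, volt_scale _
      ((ray l lam mu (s * τ)).1 * scale τ (raySol l lam mu a b s).1 +
        (ray l lam mu (s * τ)).2 * scale τ (raySol l lam mu a b s).2) τ ?_ t]
    · ring
    · intro x
      simp only [CI.add_apply, CI.mul_apply, ray_fst_apply, ray_snd_apply, scale_apply]
      have hx : (((τ * x : I) : ℝ) : ℂ) = (τ : ℂ) * (x : ℂ) := by
        push_cast
        rfl
      rw [hx, mul_assoc]

lemma Y1_scale (l lam mu a b s : ℂ) (τ : I) :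
    Y1 l lam mu a b (s * τ) = (raySol l lam mu a b s).1 τ := by
  unfold Y1
  rw [← raySol_scale]
  simp [scale_apply]

lemma Y2_scale (l lam mu a b s : ℂ) (τ : I) :
    Y2 l lam mu a b (s * τ) = (raySol l lam mu a b s).2 τ := by
  unfold Y2
  rw [← raySol_scale]
  simp [scale_apply]

lemma Y1_zero (l lam mu a b : ℂ) : Y1 l lam mu a b 0 = a := by
  unfold Y1
  rw [raySol_fst]
  simp

lemma Y2_zero (l lam mu a b : ℂ) : Y2 l lam mu a b 0 = b := by
  unfold Y2
  rw [raySol_snd]
  simp

lemma differentiable_Y1 (l lam mu a b : ℂ) : Differentiable ℂ (Y1 l lam mu a b) := fun _ =>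
  (analyticAt_Y1 (E := ℂ) a b analyticAt_const analyticAt_const analyticAt_const
    analyticAt_id).differentiableAt

lemma differentiable_Y2 (l lam mu a b : ℂ) : Differentiable ℂ (Y2 l lam mu a b) := fun _ =>
  (analyticAt_Y2 (E := ℂ) a b analyticAt_const analyticAt_const analyticAt_const
    analyticAt_id).differentiableAt

/-- a helper: derivative of an entire function which is a primitive along rays -/
lemma deriv_eq_of_ray (y z : ℂ → ℂ) (hy : Differentiable ℂ y) (hz : Continuous z)
    (h : ∀ s : ℂ, ∃ w : CI, ∃ a : ℂ, (∀ τ : I, y (s * τ) = a + s * volt w τ) ∧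
      ∀ τ : I, w τ = z (s * τ)) : ∀ s, deriv y s = z s := by
  have key : ∀ s : ℂ, s ≠ 0 → deriv y s = z s := by
    intro s hs
    obtain ⟨w, a, h1, h2⟩ := h (s * 2)
    have hmem : (1 / 2 : ℝ) ∈ Ioo (0 : ℝ) 1 := by norm_num
    have hD1 : HasDerivAt (fun t : ℝ => y ((s * 2) * t)) ((s * 2) * deriv y s) (1 / 2) := by
      have e1 : HasDerivAt (fun t : ℂ => y ((s * 2) * t)) ((s * 2) * deriv y s)
          (((1 / 2 : ℝ)) : ℂ) := by
        have e2 : HasDerivAt y (deriv y s) ((s * 2) * (((1 / 2 : ℝ)) : ℂ)) := by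
          have : (s * 2) * (((1 / 2 : ℝ)) : ℂ) = s := by push_cast; ring
          rw [this]
          exact (hy s).hasDerivAt
        have e3 : HasDerivAt (fun t : ℂ => (s * 2) * t) (s * 2) (((1 / 2 : ℝ)) : ℂ) := by
          simpa using (hasDerivAt_id (((1 / 2 : ℝ)) : ℂ)).const_mul (s * 2)
        have e4 := e2.comp _ e3
        rw [mul_comm (deriv y s) (s * 2)] at e4
        exact e4
      exact e1.comp_ofReal
    have hD2 : HasDerivAt (fun t : ℝ => a + (s * 2) * ∫ x in (0 : ℝ)..t, ext w x)
        ((s * 2) * ext w (1 / 2)) (1 / 2) := by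
      have e1 : HasDerivAt (fun t : ℝ => ∫ x in (0 : ℝ)..t, ext w x) (ext w (1 / 2)) (1 / 2) :=
        intervalIntegral.integral_hasDerivAt_right ((continuous_ext w).intervalIntegrable _ _)
          ((continuous_ext w).stronglyMeasurableAtFilter _ _) (continuous_ext w).continuousAt
      exact (e1.const_mul (s * 2)).const_add a
    have hev : (fun t : ℝ => y ((s * 2) * t)) =ᶠ[𝓝 (1 / 2)]
        (fun t : ℝ => a + (s * 2) * ∫ x in (0 : ℝ)..t, ext w x) := by
      filter_upwards [Ioo_mem_nhds hmem.1 hmem.2] with t ht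
      exact h1 ⟨t, ht.1.le, ht.2.le⟩
    have hD3 := hD2.congr_of_eventuallyEq hev
    have heq := hD1.unique hD3
    have h3 : ext w (1 / 2) = z s := by
      rw [ext_of_mem w (⟨hmem.1.le, hmem.2.le⟩ : (1 / 2 : ℝ) ∈ I), h2]
      congr 1
      push_cast
      ring
    rw [h3] at heq
    have hs2 : s * 2 ≠ 0 := mul_ne_zero hs two_ne_zero
    exact mul_left_cancel₀ hs2 heq
  have hc : Continuous (deriv y) := by
    have : ContDiff ℂ 1 y := hy.contDiff
    exact this.continuous_deriv le_rfl
  have hfun : deriv y = z := by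
    refine Continuous.ext_on (dense_compl_singleton (0 : ℂ)) hc hz ?_
    intro s hs
    exact key s hs
  intro s
  rw [hfun]

lemma deriv_Y1 (l lam mu a b s : ℂ) : deriv (Y1 l lam mu a b) s = Y2 l lam mu a b s := by
  refine deriv_eq_of_ray _ _ (differentiable_Y1 l lam mu a b)
    (differentiable_Y2 l lam mu a b).continuous (fun s => ?_) s
  refine ⟨(raySol l lam mu a b s).2, a, fun τ => ?_, fun τ => ?_⟩
  · rw [Y1_scale, raySol_fst]
  · rw [Y2_scale]

lemma continuous_c0 (l lam mu : ℂ) : Continuous (c0 l lam mu) := by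
  unfold c0
  fun_prop

lemma continuous_c1 (l mu : ℂ) : Continuous (c1 l mu) := by
  unfold c1
  fun_prop

lemma deriv_Y2 (l lam mu a b s : ℂ) : deriv (Y2 l lam mu a b) s =
    c0 l lam mu s * Y1 l lam mu a b s + c1 l mu s * Y2 l lam mu a b s := by
  have hz : Continuous (fun s => c0 l lam mu s * Y1 l lam mu a b s +
      c1 l mu s * Y2 l lam mu a b s) :=
    ((continuous_c0 l lam mu).mul (differentiable_Y1 l lam mu a b).continuous).add
      ((continuous_c1 l mu).mul (differentiable_Y2 l lam mu a b).continuous)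
  refine deriv_eq_of_ray (Y2 l lam mu a b) (fun s => c0 l lam mu s * Y1 l lam mu a b s +
      c1 l mu s * Y2 l lam mu a b s) (differentiable_Y2 l lam mu a b) hz (fun s => ?_) s
  refine ⟨(ray l lam mu s).1 * (raySol l lam mu a b s).1 +
      (ray l lam mu s).2 * (raySol l lam mu a b s).2, b, fun τ => ?_, fun τ => ?_⟩
  · rw [Y2_scale, raySol_snd]
  · rw [Y1_scale, Y2_scale]
    simp only [CI.add_apply, CI.mul_apply, ray_fst_apply, ray_snd_apply]

/-! ### uniqueness of entire solutions -/

/-- restriction of a continuous function on the plane to a ray -/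
def onRay (f : ℂ → ℂ) (hf : Continuous f) (s : ℂ) : CI :=
  mkCI ⟨fun t => f (s * t), hf.comp (by fun_prop)⟩

lemma onRay_apply (f : ℂ → ℂ) (hf : Continuous f) (s : ℂ) (t : I) :
    onRay f hf s t = f (s * t) := rfl

lemma volt_onRay (f g : ℂ → ℂ) (hf : ∀ s, HasDerivAt f (g s) s) (hg : Continuous g) (s : ℂ)
    (t : I) : f (s * t) = f 0 + s * volt (onRay g hg s) t := by
  rw [volt_apply]
  have h1 : ∀ x ∈ Set.uIcc (0 : ℝ) (t : ℝ), HasDerivAt (fun x : ℝ => f (s * x))
      (s * g (s * x)) x := by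
    intro x _
    have e1 : HasDerivAt (fun w : ℂ => f (s * w)) (s * g (s * x)) (x : ℂ) := by
      have e3 : HasDerivAt (fun w : ℂ => s * w) s (x : ℂ) := by
        simpa using (hasDerivAt_id (x : ℂ)).const_mul s
      have e4 := (hf (s * x)).comp _ e3
      rw [mul_comm (g (s * x)) s] at e4
      exact e4
    exact e1.comp_ofReal
  have h2 : ∫ x in (0 : ℝ)..(t : ℝ), s * g (s * x) = f (s * (t : ℝ)) - f (s * ((0 : ℝ) : ℂ)) := by
    refine intervalIntegral.integral_eq_sub_of_hasDerivAt h1 ?_
    refine Continuous.intervalIntegrable ?_ _ _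
    exact continuous_const.mul (hg.comp (by fun_prop))
  have h3 : ∫ x in (0 : ℝ)..(t : ℝ), ext (onRay g hg s) x =
      ∫ x in (0 : ℝ)..(t : ℝ), g (s * x) := by
    refine intervalIntegral.integral_congr (fun x hx => ?_)
    rw [Set.uIcc_of_le t.2.1] at hx
    have hx1 : x ∈ I := ⟨hx.1, hx.2.trans t.2.2⟩
    change ext (onRay g hg s) x = g (s * x)
    rw [ext_of_mem _ hx1, onRay_apply]
  rw [h3, ← intervalIntegral.integral_const_mul, h2]
  simp

/-- uniqueness of entire solutions -/
theorem eq_Y1 (l lam mu : ℂ) (f g : ℂ → ℂ) (hf : ∀ s, HasDerivAt f (g s) s)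
    (hg : ∀ s, HasDerivAt g (c0 l lam mu s * f s + c1 l mu s * g s) s) (s : ℂ) :
    f s = Y1 l lam mu (f 0) (g 0) s ∧ g s = Y2 l lam mu (f 0) (g 0) s := by
  have hfc : Continuous f := by
    rw [continuous_iff_continuousAt]
    exact fun s => (hf s).continuousAt
  have hgc : Continuous g := by
    rw [continuous_iff_continuousAt]
    exact fun s => (hg s).continuousAt
  have hhc : Continuous (fun s => c0 l lam mu s * f s + c1 l mu s * g s) :=
    ((continuous_c0 l lam mu).mul hfc).add ((continuous_c1 l mu).mul hgc)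
  have h := raySol_unique l lam mu (f 0) (g 0) s (onRay f hfc s) (onRay g hgc s) ?_ ?_
  · constructor
    · have h1 : onRay f hfc s 1 = (raySol l lam mu (f 0) (g 0) s).1 1 :=
        congrArg (fun x : XX => x.1 1) h
      unfold Y1
      rw [← h1, onRay_apply]
      simp
    · have h1 : onRay g hgc s 1 = (raySol l lam mu (f 0) (g 0) s).2 1 :=
        congrArg (fun x : XX => x.2 1) h
      unfold Y2
      rw [← h1, onRay_apply]
      simp
  · intro t
    rw [onRay_apply]
    exact volt_onRay f g hf hgc s t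
  · intro t
    rw [onRay_apply, volt_onRay g _ hg hhc s t]
    have e : onRay (fun s => c0 l lam mu s * f s + c1 l mu s * g s) hhc s =
        (ray l lam mu s).1 * onRay f hfc s + (ray l lam mu s).2 * onRay g hgc s := by
      refine CI.ext (fun x => ?_)
      rw [CI.add_apply, CI.mul_apply, CI.mul_apply, ray_fst_apply, ray_snd_apply, onRay_apply,
        onRay_apply, onRay_apply]
    rw [e]

end

end Pool.Agent.Lib_helper75.Heun
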