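import Pool.Agent.Lib_helper75.Heun.Jacobi

/-!
# Two distinct real zeros near `n²/4` at `l = n + 2`
-/

namespace Pool.Agent.Lib_helper75.Heun

open Topology MeasureTheory Metric Filter

noncomputable section

lemma card_fiber_ge {ι κ : Type*} [Fintype ι] [Fintype κ] (x : ι → ℕ)
    (y : κ → ℕ) (hsum : ∑ i, x i = ∑ k, y k)
    (hle : ∀ v, 0 < v → (Finset.univ.filter (fun i => x i = v)).card ≤
      (Finset.univ.filter (fun k => y k = v)).card) (v : ℕ) (hv : 0 < v) :
    (Finset.univ.filter (fun k => y k = v)).card ≤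
      (Finset.univ.filter (fun i => x i = v)).card := by
  classical
  by_contra hcon
  push Not at hcon
  set T : Finset ℕ := Finset.univ.image x ∪ Finset.univ.image y with hT
  have h1 : ∑ i, x i = ∑ v ∈ T, (Finset.univ.filter (fun i => x i = v)).card * v := by
    rw [← Finset.sum_fiberwise_of_maps_to (s := Finset.univ) (t := T) (g := x)
      (fun i _ => Finset.mem_union_left _ (Finset.mem_image_of_mem x (Finset.mem_univ i)))]
    refine Finset.sum_congr rfl (fun v _ => ?_)
    exact Finset.sum_const_nat (fun i hi => (Finset.mem_filter.1 hi).2)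
  have h2 : ∑ k, y k = ∑ v ∈ T, (Finset.univ.filter (fun k => y k = v)).card * v := by
    rw [← Finset.sum_fiberwise_of_maps_to (s := Finset.univ) (t := T) (g := y)
      (fun i _ => Finset.mem_union_right _ (Finset.mem_image_of_mem y (Finset.mem_univ i)))]
    refine Finset.sum_congr rfl (fun v _ => ?_)
    exact Finset.sum_const_nat (fun i hi => (Finset.mem_filter.1 hi).2)
  have hvT : v ∈ T := by
    have hpos : 0 < (Finset.univ.filter (fun k => y k = v)).card := lt_of_le_of_lt (Nat.zero_le _) hcon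
    obtain ⟨k, hk⟩ := Finset.card_pos.1 hpos
    rw [← (Finset.mem_filter.1 hk).2]
    exact Finset.mem_union_right _ (Finset.mem_image_of_mem y (Finset.mem_univ k))
  have h3 : ∑ v ∈ T, (Finset.univ.filter (fun i => x i = v)).card * v <
      ∑ v ∈ T, (Finset.univ.filter (fun k => y k = v)).card * v := by
    refine Finset.sum_lt_sum (fun w _ => ?_) ⟨v, hvT, ?_⟩
    · rcases Nat.eq_zero_or_pos w with h | h
      · rw [h]
        simp
      · exact Nat.mul_le_mul_right w (hle w h)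
    · exact Nat.mul_lt_mul_of_pos_right hcon hv
  rw [← h1, ← h2, hsum] at h3
  exact lt_irrefl _ h3

/-- finitely many distinct zeros in the disc are bounded by the multiset of zeros -/
lemma card_le_of_zeros {f : ℂ → ℂ} {c : ℂ} {R : ℝ} {s : Multiset ℂ} (hs : IsZeros f c R s)
    (T : Finset ℂ) (hT : ∀ z ∈ T, z ∈ closedBall c R ∧ f z = 0) : T.card ≤ Multiset.card s := by
  classical
  have h1 : T ⊆ s.toFinset := by
    intro z hz
    rw [Multiset.mem_toFinset]
    exact (hs.zero_iff (hT z hz).1).1 (hT z hz).2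
  exact (Finset.card_le_card h1).trans (Multiset.toFinset_card_le s)

lemma dd_eq_cast {M k : ℕ} (h : k ≤ M + 1) : dd M k = ((k * (M + 1 - k) : ℕ) : ℝ) := by
  unfold dd
  push_cast [Nat.cast_sub h]
  ring

/-- the core counting argument -/
theorem pair_count (M : ℕ) (mu : ℝ) (hmu : mu ≠ 0)
    (hcap : ∀ n ∈ Finset.range (M + 2), ∃ s,
      IsZeros (fun w => Phi ((M : ℂ) + 1) mu w) ((n : ℂ) ^ 2 / 4) (1 / 16) s ∧
      Multiset.card s ≤ 2 ∧ (n = 0 → Multiset.card s ≤ 1))
    (hsmall1 : |mu| * (2 * ((M : ℝ) + 1)) + mu ^ 2 / 2 ≤ 1 / 16)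
    (hsmall2 : ((M : ℝ) + 1) * (|mu| * (2 * ((M : ℝ) + 1))) < 1) (n : ℕ) (hn : 1 ≤ n)
    (hM : M = n + 1) : ∃ x1 x2 : ℝ, x1 ≠ x2 ∧
      ((x1 : ℂ) ∈ closedBall ((n : ℂ) ^ 2 / 4) (1 / 16 : ℝ)) ∧
      ((x2 : ℂ) ∈ closedBall ((n : ℂ) ^ 2 / 4) (1 / 16 : ℝ)) ∧
      Phi ((M : ℂ) + 1) mu x1 = 0 ∧ Phi ((M : ℂ) + 1) mu x2 = 0 := by
  classical
  obtain ⟨lam, hinj, hsum, hloc, hF⟩ := jacobi_zeros M mu hmu
  choose kk hkM hk using hloc
  set x : Fin (M + 1) → ℕ := fun i => kk i * (M + 1 - kk i) with hx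
  set y : Fin (M + 1) → ℕ := fun k => (k : ℕ) * (M + 1 - k) with hy
  set Lam : Fin (M + 1) → ℝ := fun i => ((M : ℝ) + 1) ^ 2 / 4 - mu ^ 2 / 2 - lam i with hLam
  have hxd : ∀ i, |lam i - (x i : ℝ)| ≤ |mu| * (2 * ((M : ℝ) + 1)) := by
    intro i
    rw [hx]
    simp only
    rw [← dd_eq_cast (le_trans (hkM i) (Nat.le_succ M))]
    exact hk i
  have hLinj : Function.Injective Lam := by
    intro i j hij
    apply hinj
    rw [hLam] at hij
    simp only at hij
    linarith
  have hPhi : ∀ i, Phi ((M : ℂ) + 1) mu (Lam i) = 0 := by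
    intro i
    unfold Phi
    have : ((M : ℂ) + 1) ^ 2 / 4 - (mu : ℂ) ^ 2 / 2 - (Lam i : ℂ) = (lam i : ℂ) := by
      rw [hLam]
      push_cast
      ring
    rw [this]
    exact hF i
  -- the points with a given value lie in the disc around the corresponding square
  have hmem : ∀ (i : Fin (M + 1)) (m : ℕ), ((M : ℝ) + 1) ^ 2 / 4 - (x i : ℝ) = (m : ℝ) ^ 2 / 4 →
      (Lam i : ℂ) ∈ closedBall ((m : ℂ) ^ 2 / 4) (1 / 16 : ℝ) := by
    intro i m hm
    rw [mem_closedBall_iff_norm]
    have h1 : ((Lam i : ℂ) - (m : ℂ) ^ 2 / 4) = ((Lam i - (m : ℝ) ^ 2 / 4 : ℝ) : ℂ) := by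
      push_cast
      ring
    rw [h1, Complex.norm_real, Real.norm_eq_abs, ← hm]
    have h2 : Lam i - (((M : ℝ) + 1) ^ 2 / 4 - (x i : ℝ)) = -(lam i - (x i : ℝ)) - mu ^ 2 / 2 := by
      rw [hLam]
      ring
    rw [h2]
    have h3 := hxd i
    rw [abs_le] at h3 ⊢
    have h4 : 0 ≤ mu ^ 2 / 2 := by positivity
    constructor
    · linarith
    · linarith
  -- the sums agree
  have hsums : ∑ i, x i = ∑ k, y k := by
    have h1 : (∑ k ∈ Finset.range (M + 1), dd M k) = ((∑ k, y k : ℕ) : ℝ) := by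
      rw [← Fin.sum_univ_eq_sum_range (fun k => dd M k) (M + 1)]
      push_cast
      refine Finset.sum_congr rfl (fun k _ => ?_)
      rw [dd_eq_cast (by omega)]
    have h2 : |(∑ i, lam i) - ((∑ i, x i : ℕ) : ℝ)| < 1 := by
      push_cast
      rw [← Finset.sum_sub_distrib]
      refine (Finset.abs_sum_le_sum_abs _ _).trans_lt ?_
      refine (Finset.sum_le_sum (fun i _ => hxd i)).trans_lt ?_
      rw [Finset.sum_const, Finset.card_univ, Fintype.card_fin, nsmul_eq_mul]
      push_cast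
      exact hsmall2
    rw [hsum, h1] at h2
    have h3 : |((∑ k, y k : ℕ) : ℤ) - ((∑ i, x i : ℕ) : ℤ)| < 1 := by
      have : |(((∑ k, y k : ℕ) : ℤ) : ℝ) - (((∑ i, x i : ℕ) : ℤ) : ℝ)| < 1 := by
        rw [Int.cast_natCast, Int.cast_natCast]
        exact h2
      exact_mod_cast this
    have h4 := Int.abs_lt_one_iff.1 h3
    omega
  -- capacities
  have hcapv : ∀ v, 0 < v → (Finset.univ.filter (fun i => x i = v)).card ≤
      (Finset.univ.filter (fun k => y k = v)).card := by
    intro v hv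
    rcases Finset.eq_empty_or_nonempty (Finset.univ.filter (fun i => x i = v)) with he | hne
    · rw [he]
      simp
    · obtain ⟨i0, hi0⟩ := hne
      have hi0v : kk i0 * (M + 1 - kk i0) = v := (Finset.mem_filter.1 hi0).2
      have hk1 : 1 ≤ kk i0 := by
        rcases Nat.eq_zero_or_pos (kk i0) with h | h
        · rw [h, zero_mul] at hi0v
          omega
        · exact h
      have hk2 := hkM i0
      set m : ℕ := ((M + 1 : ℤ) - 2 * kk i0).natAbs with hm
      have hmsq : ((m : ℝ)) ^ 2 = ((M : ℝ) + 1 - 2 * kk i0) ^ 2 := by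
        have h1 : ((m : ℤ)) ^ 2 = ((M + 1 : ℤ) - 2 * kk i0) ^ 2 := by
          rw [hm]
          exact Int.natAbs_sq _
        exact_mod_cast h1
      have hmrange : m ∈ Finset.range (M + 2) := by
        rw [Finset.mem_range]
        omega
      have hval : ∀ i, x i = v → ((M : ℝ) + 1) ^ 2 / 4 - (x i : ℝ) = (m : ℝ) ^ 2 / 4 := by
        intro i hi
        rw [hi, hmsq, ← hi0v]
        push_cast [Nat.cast_sub (show kk i0 ≤ M + 1 by omega)]
        ring
      obtain ⟨s, hs, hs2, hs1⟩ := hcap m hmrange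
      have hcard : (Finset.univ.filter (fun i => x i = v)).card ≤ Multiset.card s := by
        have h1 := card_le_of_zeros hs
          ((Finset.univ.filter (fun i => x i = v)).image (fun i => (Lam i : ℂ))) (by
            intro z hz
            obtain ⟨i, hi, rfl⟩ := Finset.mem_image.1 hz
            exact ⟨hmem i m (hval i (Finset.mem_filter.1 hi).2), hPhi i⟩)
        rwa [Finset.card_image_of_injective _ (fun i j hij => hLinj (by exact_mod_cast hij))] at h1
      rcases Nat.eq_zero_or_pos m with hm0 | hm0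
      · refine (hcard.trans (hs1 hm0)).trans ?_
        rw [Nat.succ_le_iff, Finset.card_pos]
        refine ⟨⟨kk i0, by omega⟩, ?_⟩
        rw [Finset.mem_filter]
        exact ⟨Finset.mem_univ _, hi0v⟩
      · refine (hcard.trans hs2).trans ?_
        have hlt : 1 < (Finset.univ.filter (fun k : Fin (M + 1) => y k = v)).card := by
          rw [Finset.one_lt_card]
          refine ⟨⟨kk i0, by omega⟩, ?_, ⟨M + 1 - kk i0, by omega⟩, ?_, ?_⟩
          · rw [Finset.mem_filter]
            exact ⟨Finset.mem_univ _, hi0v⟩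
          · rw [Finset.mem_filter]
            refine ⟨Finset.mem_univ _, ?_⟩
            rw [hy]
            simp only
            have : M + 1 - (M + 1 - kk i0) = kk i0 := by omega
            rw [this, mul_comm]
            exact hi0v
          · intro h
            rw [Fin.mk.injEq] at h
            omega
        omega
  -- conclusion for the value `M`
  have hMpos : 0 < M := by omega
  have hge := card_fiber_ge x y hsums hcapv M hMpos
  have hlt : 1 < (Finset.univ.filter (fun k : Fin (M + 1) => y k = M)).card := by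
    rw [Finset.one_lt_card]
    refine ⟨⟨1, by omega⟩, ?_, ⟨M, by omega⟩, ?_, ?_⟩
    · rw [Finset.mem_filter]
      refine ⟨Finset.mem_univ _, ?_⟩
      rw [hy]
      simp only
      omega
    · rw [Finset.mem_filter]
      refine ⟨Finset.mem_univ _, ?_⟩
      rw [hy]
      simp only
      have : M + 1 - M = 1 := by omega
      rw [this, mul_one]
    · intro h
      rw [Fin.mk.injEq] at h
      omega
  have hlt2 := hlt.trans_le hge
  rw [Finset.one_lt_card] at hlt2
  obtain ⟨i, hi, j, hj, hij⟩ := hlt2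
  have hval : ∀ i, x i = M → ((M : ℝ) + 1) ^ 2 / 4 - (x i : ℝ) = (n : ℝ) ^ 2 / 4 := by
    intro i hi
    rw [hi, hM]
    push_cast
    ring
  exact ⟨Lam i, Lam j, fun h => hij (hLinj h), hmem i n (hval i (Finset.mem_filter.1 hi).2),
    hmem j n (hval j (Finset.mem_filter.1 hj).2), hPhi i, hPhi j⟩

/-- for small real `mu ≠ 0` there are two distinct real zeros near `n²/4` at `l = n + 2` -/
theorem two_real_zeros (n : ℕ) (hn : 1 ≤ n) : ∀ᶠ mu : ℝ in 𝓝[≠] 0, ∃ x1 x2 : ℝ, x1 ≠ x2 ∧
      ((x1 : ℂ) ∈ closedBall ((n : ℂ) ^ 2 / 4) (1 / 16 : ℝ)) ∧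
      ((x2 : ℂ) ∈ closedBall ((n : ℂ) ^ 2 / 4) (1 / 16 : ℝ)) ∧
      Phi ((n : ℂ) + 2) mu x1 = 0 ∧ Phi ((n : ℂ) + 2) mu x2 = 0 := by
  have hcast : (((n + 1 : ℕ) : ℂ) + 1) = (n : ℂ) + 2 := by push_cast; ring
  have hofReal : Tendsto (fun mu : ℝ => (mu : ℂ)) (𝓝[≠] 0) (𝓝 0) := by
    have h1 := (Complex.continuous_ofReal.tendsto 0)
    rw [Complex.ofReal_zero] at h1
    exact h1.mono_left nhdsWithin_le_nhds
  have h1 : ∀ᶠ mu : ℝ in 𝓝[≠] 0, ∀ m ∈ Finset.range (n + 1 + 2), ∃ s,
      IsZeros (fun w => Phi (((n + 1 : ℕ) : ℂ) + 1) mu w) ((m : ℂ) ^ 2 / 4) (1 / 16) s ∧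
      Multiset.card s ≤ 2 ∧ (m = 0 → Multiset.card s ≤ 1) := by
    rw [Filter.eventually_all_finset]
    intro m _
    exact hofReal.eventually (capacity _ m)
  have h2 : ∀ᶠ mu : ℝ in 𝓝[≠] 0,
      |mu| * (2 * (((n + 1 : ℕ) : ℝ) + 1)) + mu ^ 2 / 2 < 1 / 16 := by
    have hc : Continuous (fun mu : ℝ => |mu| * (2 * (((n + 1 : ℕ) : ℝ) + 1)) + mu ^ 2 / 2) := by
      fun_prop
    have h3 := hc.tendsto 0
    simp only [abs_zero, zero_mul, ne_eq, OfNat.ofNat_ne_zero, not_false_eq_true, zero_pow,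
      zero_div, add_zero] at h3
    exact (h3.mono_left nhdsWithin_le_nhds).eventually (gt_mem_nhds (by norm_num))
  have h3 : ∀ᶠ mu : ℝ in 𝓝[≠] 0,
      (((n + 1 : ℕ) : ℝ) + 1) * (|mu| * (2 * (((n + 1 : ℕ) : ℝ) + 1))) < 1 := by
    have hc : Continuous (fun mu : ℝ =>
        (((n + 1 : ℕ) : ℝ) + 1) * (|mu| * (2 * (((n + 1 : ℕ) : ℝ) + 1)))) := by
      fun_prop
    have h3 := hc.tendsto 0
    simp only [abs_zero, zero_mul, mul_zero] at h3
    exact (h3.mono_left nhdsWithin_le_nhds).eventually (gt_mem_nhds (by norm_num))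
  filter_upwards [h1, h2, h3, self_mem_nhdsWithin] with mu a1 a2 a3 a4
  have := pair_count (n + 1) mu a4 a1 a2.le a3 n hn rfl
  rw [hcast] at this
  exact this

end

end Pool.Agent.Lib_helper75.Heun
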