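import Mathlib

/-!
# Volterra operators on `C([0,1], ℂ) × C([0,1], ℂ)`

The linear system `u' = s v`, `v' = s (a u + b v)` on `[0,1]` is written as a fixed point equation
`x = c + s • V a b x`, where `V a b` is a bounded operator depending affinely on the coefficient
functions `a`, `b`.  The operator `1 - s • V a b` is always a unit (quasi-nilpotence), so that the
solution is an analytic function of all parameters.
-/

namespace Pool.Agent.Lib_helper75.Heun

open MeasureTheory Set unitInterval Topology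

noncomputable section

/-- the space of continuous functions on the unit interval (a wrapper around `C(I, ℂ)`, so that
only the Banach algebra structure is visible to the type class system) -/
def CI : Type := C(I, ℂ)

instance : NormedCommRing CI := inferInstanceAs (NormedCommRing C(I, ℂ))
instance : NormedAlgebra ℂ CI := inferInstanceAs (NormedAlgebra ℂ C(I, ℂ))
instance : CompleteSpace CI := inferInstanceAs (CompleteSpace C(I, ℂ))
instance : FunLike CI I ℂ := inferInstanceAs (FunLike C(I, ℂ) I ℂ)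

/-- build an element of `CI` -/
def mkCI (f : C(I, ℂ)) : CI := f

lemma mkCI_apply (f : C(I, ℂ)) (x : I) : mkCI f x = f x := rfl

lemma CI.continuous (u : CI) : Continuous (fun x : I => u x) := ContinuousMap.continuous (f := (u : C(I, ℂ)))

lemma CI.norm_coe_le_norm (u : CI) (x : I) : ‖u x‖ ≤ ‖u‖ :=
  ContinuousMap.norm_coe_le_norm (f := (u : C(I, ℂ))) x

lemma CI.norm_le (u : CI) {C : ℝ} (hC : 0 ≤ C) (h : ∀ x : I, ‖u x‖ ≤ C) : ‖u‖ ≤ C :=
  (ContinuousMap.norm_le (f := (u : C(I, ℂ))) hC).2 h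

lemma CI.add_apply (u v : CI) (x : I) : (u + v) x = u x + v x := rfl
lemma CI.mul_apply (u v : CI) (x : I) : (u * v) x = u x * v x := rfl
lemma CI.smul_apply (c : ℂ) (v : CI) (x : I) : (c • v) x = c * v x := rfl
lemma CI.neg_apply (v : CI) (x : I) : (-v) x = -v x := rfl
lemma CI.sub_apply (u v : CI) (x : I) : (u - v) x = u x - v x := rfl
lemma CI.one_apply (x : I) : (1 : CI) x = 1 := rfl
lemma CI.ext {u v : CI} (h : ∀ x, u x = v x) : u = v := ContinuousMap.ext (f := (u : C(I, ℂ))) h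

/-- extension of a continuous function on the unit interval to the real line -/
def ext (u : CI) : ℝ → ℂ := Set.IccExtend (zero_le_one' ℝ) (fun x => u x)

lemma continuous_ext (u : CI) : Continuous (ext u) := by
  unfold ext
  exact u.continuous.Icc_extend'

lemma ext_of_mem (u : CI) {x : ℝ} (hx : x ∈ I) : ext u x = u ⟨x, hx⟩ := by
  unfold ext
  exact Set.IccExtend_of_mem _ _ hx

lemma norm_ext_le (u : CI) (x : ℝ) : ‖ext u x‖ ≤ ‖u‖ := by
  unfold ext Set.IccExtend
  exact CI.norm_coe_le_norm u _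

/-- integration from `0`, as a function -/
def voltFun (u : CI) : CI := mkCI {
  toFun := fun τ => ∫ x in (0 : ℝ)..(τ : ℝ), ext u x
  continuous_toFun := by
    have h : Continuous (fun t : ℝ => ∫ x in (0 : ℝ)..t, ext u x) :=
      intervalIntegral.continuous_primitive (fun a b => (continuous_ext u).intervalIntegrable a b) 0
    exact h.comp continuous_subtype_val }

lemma voltFun_apply (u : CI) (τ : I) : voltFun u τ = ∫ x in (0 : ℝ)..(τ : ℝ), ext u x := rfl

lemma ext_add (u v : CI) (x : ℝ) : ext (u + v) x = ext u x + ext v x := rfl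
lemma ext_smul (c : ℂ) (u : CI) (x : ℝ) : ext (c • u) x = c * ext u x := rfl
lemma ext_mul (u v : CI) (x : ℝ) : ext (u * v) x = ext u x * ext v x := rfl

/-- integration from `0`, as a bounded operator -/
def volt : CI →L[ℂ] CI :=
  LinearMap.mkContinuous
    { toFun := voltFun
      map_add' := by
        intro u v
        refine CI.ext (fun τ => ?_)
        simp only [voltFun_apply, CI.add_apply, ext_add]
        exact intervalIntegral.integral_add ((continuous_ext u).intervalIntegrable _ _)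
          ((continuous_ext v).intervalIntegrable _ _)
      map_smul' := by
        intro c u
        refine CI.ext (fun τ => ?_)
        simp only [voltFun_apply, CI.smul_apply, ext_smul, RingHom.id_apply]
        exact intervalIntegral.integral_const_mul _ _ }
    1 (by
      intro u
      rw [one_mul]
      refine CI.norm_le _ (norm_nonneg _) ?_
      intro τ
      change ‖∫ x in (0 : ℝ)..(τ : ℝ), ext u x‖ ≤ ‖u‖
      have h := intervalIntegral.norm_integral_le_of_norm_le_const (a := (0 : ℝ)) (b := (τ : ℝ))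
        (f := ext u) (C := ‖u‖) (fun x _ => norm_ext_le u x)
      refine h.trans ?_
      rw [sub_zero, abs_of_nonneg τ.2.1]
      nlinarith [norm_nonneg u, τ.2.2])

lemma volt_apply (u : CI) (τ : I) : volt u τ = ∫ x in (0 : ℝ)..(τ : ℝ), ext u x := rfl

/-- pointwise bound of the primitive by the primitive of a bound -/
lemma norm_volt_le_of_pow (u : CI) (K : ℝ) (n : ℕ)
    (h : ∀ τ : I, ‖u τ‖ ≤ K * (τ : ℝ) ^ n) (τ : I) :
    ‖volt u τ‖ ≤ K * (τ : ℝ) ^ (n + 1) / (n + 1) := by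
  rw [volt_apply]
  have h1 : ‖∫ x in (0 : ℝ)..(τ : ℝ), ext u x‖ ≤ ∫ x in (0 : ℝ)..(τ : ℝ), K * x ^ n := by
    refine intervalIntegral.norm_integral_le_of_norm_le τ.2.1 ?_ ?_
    · refine MeasureTheory.ae_of_all _ ?_
      intro x hx
      have hx' : x ∈ I := ⟨hx.1.le, hx.2.trans τ.2.2⟩
      rw [ext_of_mem u hx']
      exact h ⟨x, hx'⟩
    · exact (continuous_const.mul (continuous_pow n)).intervalIntegrable _ _
  refine h1.trans (le_of_eq ?_)
  rw [intervalIntegral.integral_const_mul, integral_pow]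
  simp
  ring

/-- the state space -/
abbrev XX : Type := CI × CI

/-- the coefficient part of the Volterra operator, as a continuous linear map in the coefficients -/
def VL : (CI × CI) →L[ℂ] (XX →L[ℂ] XX) :=
  ((ContinuousLinearMap.compL ℂ XX CI XX)
      ((ContinuousLinearMap.inr ℂ CI CI).comp volt)).comp
    ((((ContinuousLinearMap.compL ℂ XX CI CI).flip (ContinuousLinearMap.fst ℂ CI CI)).comp
        ((ContinuousLinearMap.mul ℂ CI).comp (ContinuousLinearMap.fst ℂ CI CI))) +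
      (((ContinuousLinearMap.compL ℂ XX CI CI).flip (ContinuousLinearMap.snd ℂ CI CI)).comp
        ((ContinuousLinearMap.mul ℂ CI).comp (ContinuousLinearMap.snd ℂ CI CI))))

lemma VL_apply (ab : CI × CI) (x : XX) : VL ab x = (0, volt (ab.1 * x.1 + ab.2 * x.2)) := by
  simp [VL]

/-- the constant part of the Volterra operator -/
def VK : XX →L[ℂ] XX :=
  (ContinuousLinearMap.inl ℂ CI CI).comp (volt.comp (ContinuousLinearMap.snd ℂ CI CI))

lemma VK_apply (x : XX) : VK x = (volt x.2, 0) := by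
  simp [VK]

/-- the Volterra operator -/
def VV (ab : CI × CI) : XX →L[ℂ] XX := VK + VL ab

lemma VV_apply (ab : CI × CI) (x : XX) : VV ab x = (volt x.2, volt (ab.1 * x.1 + ab.2 * x.2)) := by
  simp [VV, VL_apply, VK_apply]

lemma VV_pow_bound (s : ℂ) (ab : CI × CI) (x : XX) (n : ℕ) :
    ∀ τ : I, ‖(((s • VV ab) ^ n) x).1 τ‖ ≤
        ((‖s‖ * (1 + ‖ab.1‖ + ‖ab.2‖)) ^ n / (n.factorial : ℝ) * ‖x‖) * (τ : ℝ) ^ n ∧
      ‖(((s • VV ab) ^ n) x).2 τ‖ ≤
        ((‖s‖ * (1 + ‖ab.1‖ + ‖ab.2‖)) ^ n / (n.factorial : ℝ) * ‖x‖) * (τ : ℝ) ^ n := by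
  induction n with
  | zero =>
    intro τ
    simp only [pow_zero, one_apply_eq_self, Nat.factorial_zero, Nat.cast_one, div_one,
      one_mul, mul_one]
    exact ⟨(CI.norm_coe_le_norm x.1 τ).trans (norm_fst_le x),
      (CI.norm_coe_le_norm x.2 τ).trans (norm_snd_le x)⟩
  | succ n ih =>
    intro τ
    set C : ℝ := ‖s‖ * (1 + ‖ab.1‖ + ‖ab.2‖) with hC
    set K : ℝ := C ^ n / (n.factorial : ℝ) * ‖x‖ with hK
    set y : XX := ((s • VV ab) ^ n) x with hy
    have hC0 : 0 ≤ C := by positivity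
    have hK0 : 0 ≤ K := by positivity
    have hstep : ((s • VV ab) ^ (n + 1)) x = (s • VV ab) y := by
      rw [pow_succ']
      rfl
    have hfac : ((n + 1).factorial : ℝ) = (n + 1 : ℝ) * (n.factorial : ℝ) := by
      rw [Nat.factorial_succ]
      push_cast
      ring
    have hn1 : (0 : ℝ) < (n : ℝ) + 1 := by positivity
    have hfpos : (0 : ℝ) < (n.factorial : ℝ) := by exact_mod_cast Nat.factorial_pos n
    have hgoal : C ^ (n + 1) / ((n + 1).factorial : ℝ) * ‖x‖ * (τ : ℝ) ^ (n + 1) =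
        C * (K * (τ : ℝ) ^ (n + 1) / (n + 1)) := by
      rw [hK, hfac]
      field_simp
      ring
    rw [hstep, hgoal]
    have hτ0 : (0 : ℝ) ≤ (τ : ℝ) := τ.2.1
    have hsC : ‖s‖ ≤ C := by
      rw [hC]
      nlinarith [norm_nonneg s, norm_nonneg ab.1, norm_nonneg ab.2,
        mul_nonneg (norm_nonneg s) (norm_nonneg ab.1), mul_nonneg (norm_nonneg s) (norm_nonneg ab.2)]
    have hsC2 : ‖s‖ * (‖ab.1‖ + ‖ab.2‖) ≤ C := by
      rw [hC]
      nlinarith [norm_nonneg s]
    constructor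
    · have h1 : ‖volt y.2 τ‖ ≤ K * (τ : ℝ) ^ (n + 1) / (n + 1) :=
        norm_volt_le_of_pow y.2 K n (fun t => (ih t).2) τ
      have h2 : ((s • VV ab) y).1 τ = s * volt y.2 τ := by
        have h3 : (s • VV ab) y = s • (VV ab y) := rfl
        rw [h3, VV_apply]
        rfl
      rw [h2, norm_mul]
      exact mul_le_mul hsC h1 (norm_nonneg _) hC0
    · have h1 : ‖volt (ab.1 * y.1 + ab.2 * y.2) τ‖ ≤
          ((‖ab.1‖ + ‖ab.2‖) * K) * (τ : ℝ) ^ (n + 1) / (n + 1) := by
        refine norm_volt_le_of_pow _ _ n (fun t => ?_) τ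
        calc ‖(ab.1 * y.1 + ab.2 * y.2) t‖ = ‖ab.1 t * y.1 t + ab.2 t * y.2 t‖ := rfl
          _ ≤ ‖ab.1 t‖ * ‖y.1 t‖ + ‖ab.2 t‖ * ‖y.2 t‖ := by
              refine (norm_add_le _ _).trans (le_of_eq ?_)
              rw [norm_mul, norm_mul]
          _ ≤ ‖ab.1‖ * (K * (t : ℝ) ^ n) + ‖ab.2‖ * (K * (t : ℝ) ^ n) := by
              have e1 := mul_le_mul (CI.norm_coe_le_norm ab.1 t) (ih t).1 (norm_nonneg _)
                (norm_nonneg ab.1)
              have e2 := mul_le_mul (CI.norm_coe_le_norm ab.2 t) (ih t).2 (norm_nonneg _)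
                (norm_nonneg ab.2)
              exact add_le_add e1 e2
          _ = ((‖ab.1‖ + ‖ab.2‖) * K) * (t : ℝ) ^ n := by ring
      have h2 : ((s • VV ab) y).2 τ = s * volt (ab.1 * y.1 + ab.2 * y.2) τ := by
        have h3 : (s • VV ab) y = s • (VV ab y) := rfl
        rw [h3, VV_apply]
        rfl
      rw [h2, norm_mul]
      calc ‖s‖ * ‖volt (ab.1 * y.1 + ab.2 * y.2) τ‖
          ≤ ‖s‖ * (((‖ab.1‖ + ‖ab.2‖) * K) * (τ : ℝ) ^ (n + 1) / (n + 1)) :=
            mul_le_mul_of_nonneg_left h1 (norm_nonneg s)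
        _ = (‖s‖ * (‖ab.1‖ + ‖ab.2‖)) * (K * (τ : ℝ) ^ (n + 1) / (n + 1)) := by ring
        _ ≤ C * (K * (τ : ℝ) ^ (n + 1) / (n + 1)) :=
            mul_le_mul_of_nonneg_right hsC2 (by positivity)

lemma VV_pow_norm (s : ℂ) (ab : CI × CI) (n : ℕ) :
    ‖(s • VV ab) ^ n‖ ≤ (‖s‖ * (1 + ‖ab.1‖ + ‖ab.2‖)) ^ n / (n.factorial : ℝ) := by
  refine ContinuousLinearMap.opNorm_le_bound _ (by positivity) (fun x => ?_)
  set D : ℝ := (‖s‖ * (1 + ‖ab.1‖ + ‖ab.2‖)) ^ n / (n.factorial : ℝ) * ‖x‖ with hD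
  have hD0 : 0 ≤ D := by positivity
  have hb := VV_pow_bound s ab x n
  rw [Prod.norm_def]
  refine max_le ?_ ?_
  · refine CI.norm_le _ hD0 (fun τ => (hb τ).1.trans ?_)
    have : (τ : ℝ) ^ n ≤ 1 := pow_le_one₀ τ.2.1 τ.2.2
    nlinarith
  · refine CI.norm_le _ hD0 (fun τ => (hb τ).2.trans ?_)
    have : (τ : ℝ) ^ n ≤ 1 := pow_le_one₀ τ.2.1 τ.2.2
    nlinarith

lemma isUnit_one_sub (s : ℂ) (ab : CI × CI) : IsUnit (1 - s • VV ab) := by
  set T : XX →L[ℂ] XX := s • VV ab with hT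
  have hlim : Filter.Tendsto (fun n : ℕ => (‖s‖ * (1 + ‖ab.1‖ + ‖ab.2‖)) ^ n / (n.factorial : ℝ))
      Filter.atTop (𝓝 0) := FloorSemiring.tendsto_pow_div_factorial_atTop _
  obtain ⟨n, hn⟩ : ∃ n : ℕ, (‖s‖ * (1 + ‖ab.1‖ + ‖ab.2‖)) ^ n / (n.factorial : ℝ) < 1 :=
    ((tendsto_order.1 hlim).2 1 one_pos).exists
  have hTn : ‖T ^ n‖ < 1 := (VV_pow_norm s ab n).trans_lt hn
  have hu : IsUnit (1 - T ^ n) := by
    have := isUnit_one_sub_of_norm_lt_one (R := XX →L[ℂ] XX) hTn
    exact this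
  have hfac : (1 - T) * (∑ i ∈ Finset.range n, T ^ i) = 1 - T ^ n := mul_neg_geom_sum T n
  have hcomm : Commute (1 - T) (∑ i ∈ Finset.range n, T ^ i) := by
    refine Commute.sum_right _ _ _ (fun i _ => ?_)
    exact ((Commute.one_left _).sub_left ((Commute.refl T).pow_right i))
  rw [← hfac] at hu
  exact (hcomm.isUnit_mul_iff.1 hu).1

/-- the resolvent -/
def RR (s : ℂ) (ab : CI × CI) : XX →L[ℂ] XX := Ring.inverse (1 - s • VV ab)

lemma RR_mul (s : ℂ) (ab : CI × CI) : RR s ab * (1 - s • VV ab) = 1 :=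
  Ring.inverse_mul_cancel _ (isUnit_one_sub s ab)

lemma mul_RR (s : ℂ) (ab : CI × CI) : (1 - s • VV ab) * RR s ab = 1 :=
  Ring.mul_inverse_cancel _ (isUnit_one_sub s ab)

/-- the fixed point equation -/
lemma RR_fixed (s : ℂ) (ab : CI × CI) (c : XX) :
    RR s ab c = c + s • VV ab (RR s ab c) := by
  have h : RR s ab c - s • VV ab (RR s ab c) = c :=
    congrArg (fun T : XX →L[ℂ] XX => T c) (mul_RR s ab)
  exact sub_eq_iff_eq_add.1 h

/-- uniqueness of the fixed point -/
lemma RR_unique (s : ℂ) (ab : CI × CI) (c x : XX) (h : x = c + s • VV ab x) :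
    x = RR s ab c := by
  have h1 : RR s ab (x - s • VV ab x) = x :=
    congrArg (fun T : XX →L[ℂ] XX => T x) (RR_mul s ab)
  rw [← sub_eq_iff_eq_add.2 h] 
  exact h1.symm

/-- joint analyticity of the resolvent -/
lemma analyticAt_RR {E : Type*} [NormedAddCommGroup E] [NormedSpace ℂ E]
    {s : E → ℂ} {ab : E → CI × CI} {e : E} (hs : AnalyticAt ℂ s e) (hab : AnalyticAt ℂ ab e) :
    AnalyticAt ℂ (fun e' => RR (s e') (ab e')) e := by
  have h0 : AnalyticAt ℂ (fun e' => VL (ab e')) e :=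
    AnalyticAt.fun_comp (ContinuousLinearMap.analyticAt (𝕜 := ℂ) (E := CI × CI)
      (F := XX →L[ℂ] XX) VL (ab e)) hab
  have h1 : AnalyticAt ℂ (fun e' => VV (ab e')) e := analyticAt_const.add h0
  have h2 : AnalyticAt ℂ (fun e' => (1 : XX →L[ℂ] XX) - s e' • VV (ab e')) e :=
    analyticAt_const.sub (hs.smul h1)
  obtain ⟨u, hu⟩ := isUnit_one_sub (s e) (ab e)
  have h3 : AnalyticAt ℂ Ring.inverse ((1 : XX →L[ℂ] XX) - s e • VV (ab e)) := by
    rw [← hu]
    exact analyticAt_inverse (𝕜 := ℂ) (A := XX →L[ℂ] XX) u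
  exact AnalyticAt.fun_comp h3 h2

end

end Pool.Agent.Lib_helper75.Heun
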